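import Pool.Agent.Helper33K9.RS.Lv
import Pool.Agent.Helper33K9.RO.L6

set_option autoImplicit false
set_option linter.dupNamespace false

/-! # The property `SM`: hyperbolic planes, isomorphisms -/

namespace Pool.Agent.Helper33K9.RS

open MvPolynomial Pool.Agent.H628R4.TP Pool.Agent.W428.MOT Pool.Agent.TH192.MT
  Pool.Agent.Helper33K9.HP Pool.Agent.Helper33K9.FQ Pool.Agent.Helper33K9.RO
  Pool.Agent.Helper33K9.FQ.IsoL

open Pool.Agent.W375.MG (Good)

variable {σ τ : Type} [Fintype σ] [Fintype τ]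

theorem hyT_ne_zero (κ : Type) [Fintype κ] {f : MvPolynomial σ ℂ} (hf : f ≠ 0) :
    hyT κ f ≠ 0 := by
  intro h
  have h2 := congrArg (aeval (Sum.elim X 0 : σ ⊕ κ × Bool → MvPolynomial σ ℂ)) h
  rw [hyT, map_add, map_sum, aeval_rename, map_zero] at h2
  have h3 : ((Sum.elim X 0 : σ ⊕ κ × Bool → MvPolynomial σ ℂ) ∘ Sum.inl) = X := rfl
  rw [h3, aeval_X_left_apply, Finset.sum_eq_zero, add_zero] at h2
  · exact hf h2
  · intro j _
    rw [map_mul, aeval_X, aeval_X]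
    simp

theorem cc_hyT (κ : Type) [Fintype κ] {f : MvPolynomial σ ℂ} (h0 : constantCoeff f = 0) :
    constantCoeff (hyT κ f) = 0 := by
  rw [hyT, map_add, constantCoeff_rename, h0, map_sum, Finset.sum_eq_zero, add_zero]
  intro j _
  rw [map_mul, constantCoeff_X, zero_mul]

theorem RS_ren (e : σ ≃ τ) {f : MvPolynomial σ ℂ} (hf : f ≠ 0) (h : RS f) :
    RS (rename e f) := by
  refine inv' σ τ e (MvPowerSeries.renameEquiv ℂ e) 1 f (rename e f) ?_ hf ?_ h
  · rw [map_one]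
    exact one_ne_zero
  · rw [one_mul]
    exact MvPowerSeries.rename_coe _ f

/-- invariance under formal changes of coordinates and multiplication with units -/
theorem SM_inv (ε : σ ≃ τ) (Φ : MvPowerSeries σ ℂ ≃ₐ[ℂ] MvPowerSeries τ ℂ)
    (U : MvPowerSeries τ ℂ) {f : MvPolynomial σ ℂ} {g : MvPolynomial τ ℂ}
    (hU : MvPowerSeries.constantCoeff U ≠ 0) (hf : f ≠ 0)
    (h : U * Φ (f : MvPowerSeries σ ℂ) = (g : MvPowerSeries τ ℂ)) (hs : SM f) : SM g := by
  intro κ _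
  obtain ⟨Φ', U', hU', h'⟩ := stt σ τ κ ε Φ U f g hU h
  exact inv' _ _ (Equiv.sumCongr ε (Equiv.refl _)) Φ' U' _ _ hU' (hyT_ne_zero κ hf) h' (hs κ)

theorem SM_ren (e : σ ≃ τ) {f : MvPolynomial σ ℂ} (hf : f ≠ 0) (h : SM f) :
    SM (rename e f) := by
  refine SM_inv e (MvPowerSeries.renameEquiv ℂ e) 1 (f := f) ?_ hf ?_ h
  · rw [map_one]
    exact one_ne_zero
  · rw [one_mul]
    exact MvPowerSeries.rename_coe _ f

open Classical in
/-- the shifted pairs -/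
noncomputable def shF (k : ℤ) (S : Finset (ℤ × ℤ)) : Finset (ℤ × ℤ) :=
  S.image fun q => (q.1 + k * q.2, q.2)

theorem mem_shF {k : ℤ} {S : Finset (ℤ × ℤ)} {p : ℤ × ℤ} :
    p ∈ shF k S ↔ ∃ q ∈ S, p = (q.1 + k * q.2, q.2) := by
  unfold shF
  rw [Finset.mem_image]
  constructor
  · rintro ⟨q, hq, h⟩
    exact ⟨q, hq, h.symm⟩
  · rintro ⟨q, hq, h⟩
    exact ⟨q, hq, h.symm⟩

theorem div_shift (k : ℤ) (q : ℤ × ℤ) (hq : 0 < q.2) :
    (((q.1 + k * q.2 : ℤ) : ℂ)) / ((q.2 : ℤ) : ℂ) = (q.1 : ℂ) / q.2 + k := by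
  have h : ((q.2 : ℤ) : ℂ) ≠ 0 := by exact_mod_cast hq.ne'
  push_cast
  field_simp

/-- descent -/
theorem desc {g : MvPolynomial σ ℂ} (hg : g ≠ 0) (h0 : constantCoeff g = 0) (h1 : RS (hyp g))
    (h2 : RS (hyp (hyp g))) : RS g := by
  classical
  obtain ⟨S1, hS1, hz1⟩ := h1
  obtain ⟨S2, hS2, hz2⟩ := h2
  refine ⟨shF 1 S1 ∪ shF 2 S2, fun p hp => ?_, fun E hE => ?_⟩
  · rcases Finset.mem_union.1 hp with hp | hp
    · obtain ⟨q, hq, rfl⟩ := mem_shF.1 hp
      refine ⟨(hS1 q hq).1, fun c hc => ?_⟩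
      have h3 := (hS1 q hq).2 _ (bfr σ g hg h0 c hc)
      rw [Polynomial.eval_comp, Polynomial.eval_add, Polynomial.eval_X, Polynomial.eval_one] at h3
      change c.eval (((q.1 + 1 * q.2 : ℤ) : ℂ) / ((q.2 : ℤ) : ℂ)) = 0
      rw [div_shift 1 q (hS1 q hq).1, Int.cast_one]
      exact h3
    · obtain ⟨q, hq, rfl⟩ := mem_shF.1 hp
      refine ⟨(hS2 q hq).1, fun c hc => ?_⟩
      have h3 := (hS2 q hq).2 _ (bfr _ (hyp g) (hyp_ne_zero g) (by rw [cc_hyp]; exact h0) _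
        (bfr σ g hg h0 c hc))
      rw [Polynomial.eval_comp, Polynomial.eval_comp, Polynomial.eval_add, Polynomial.eval_add,
        Polynomial.eval_X, Polynomial.eval_one, Polynomial.eval_X, Polynomial.eval_one] at h3
      change c.eval (((q.1 + 2 * q.2 : ℤ) : ℂ) / ((q.2 : ℤ) : ℂ)) = 0
      rw [div_shift 2 q (hS2 q hq).1]
      have h4 : (q.1 : ℂ) / q.2 + ((2 : ℤ) : ℂ) = (q.1 : ℂ) / q.2 + 1 + 1 := by
        push_cast
        ring
      rw [h4]
      exact h3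
  · have h3 := stepT σ g E (S1 : Set (ℤ × ℤ)) (S2 : Set (ℤ × ℤ)) h0 hE
      (fun p hp => (hS1 p hp).1) (fun p hp => (hS2 p hp).1) (hz1 E hE) (hz2 E hE)
    refine ratRing_mono ?_ h3
    rintro p (⟨q, hq, rfl⟩ | ⟨q, hq, rfl⟩)
    · exact Finset.mem_coe.2 (Finset.mem_union_left _ (mem_shF.2 ⟨q, hq, rfl⟩))
    · exact Finset.mem_coe.2 (Finset.mem_union_right _ (mem_shF.2 ⟨q, hq, rfl⟩))

/-- `(σ ⊕ (κ ⊕ Unit) × Bool) ≃ (σ ⊕ κ × Bool) ⊕ Bool` -/
def e1 (σ κ : Type) : σ ⊕ (κ ⊕ Unit) × Bool ≃ (σ ⊕ κ × Bool) ⊕ Bool where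
  toFun
    | Sum.inl i => Sum.inl (Sum.inl i)
    | Sum.inr (Sum.inl k, b) => Sum.inl (Sum.inr (k, b))
    | Sum.inr (Sum.inr _, b) => Sum.inr b
  invFun
    | Sum.inl (Sum.inl i) => Sum.inl i
    | Sum.inl (Sum.inr (k, b)) => Sum.inr (Sum.inl k, b)
    | Sum.inr b => Sum.inr (Sum.inr (), b)
  left_inv := by rintro (i | ⟨k | k, b⟩) <;> rfl
  right_inv := by rintro ((i | ⟨k, b⟩) | b) <;> rfl

theorem hyp_hyT (κ : Type) [Fintype κ] (f : MvPolynomial σ ℂ) :
    hyp (hyT κ f) = rename (e1 σ κ) (hyT (κ ⊕ Unit) f) := by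
  unfold hyp hyT
  rw [Fintype.sum_sum_type]
  simp only [map_add, map_sum, map_mul, rename_rename, rename_X, Finset.univ_unique,
    Finset.sum_singleton]
  rw [← add_assoc]
  rfl

/-- `σ ⊕ (κ ⊕ κ') × Bool ≃ (σ ⊕ κ × Bool) ⊕ κ' × Bool` -/
def e2 (σ κ κ' : Type) : σ ⊕ (κ ⊕ κ') × Bool ≃ (σ ⊕ κ × Bool) ⊕ κ' × Bool where
  toFun
    | Sum.inl i => Sum.inl (Sum.inl i)
    | Sum.inr (Sum.inl k, b) => Sum.inl (Sum.inr (k, b))
    | Sum.inr (Sum.inr k, b) => Sum.inr (k, b)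
  invFun
    | Sum.inl (Sum.inl i) => Sum.inl i
    | Sum.inl (Sum.inr (k, b)) => Sum.inr (Sum.inl k, b)
    | Sum.inr (k, b) => Sum.inr (Sum.inr k, b)
  left_inv := by rintro (i | ⟨k | k, b⟩) <;> rfl
  right_inv := by rintro ((i | ⟨k, b⟩) | ⟨k, b⟩) <;> rfl

theorem hyT_hyT (κ κ' : Type) [Fintype κ] [Fintype κ'] (f : MvPolynomial σ ℂ) :
    hyT κ' (hyT κ f) = rename (e2 σ κ κ') (hyT (κ ⊕ κ') f) := by
  unfold hyT
  rw [Fintype.sum_sum_type]
  simp only [map_add, map_sum, map_mul, rename_rename, rename_X]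
  rw [← add_assoc]
  rfl

theorem hyT_equiv {κ κ' : Type} [Fintype κ] [Fintype κ'] (e : κ ≃ κ') (f : MvPolynomial σ ℂ) :
    hyT κ' f = rename (Equiv.sumCongr (Equiv.refl σ) (Equiv.prodCongr e (Equiv.refl Bool)))
      (hyT κ f) := by
  unfold hyT
  simp only [map_add, map_sum, map_mul, rename_rename, rename_X]
  rw [← Equiv.sum_comp e]
  rfl

theorem RS_all {f : MvPolynomial σ ℂ} (hf : f ≠ 0) (h0 : constantCoeff f = 0) (n : ℕ)
    (h : ∀ (κ : Type) [Fintype κ], n ≤ Fintype.card κ → RS (hyT κ f)) : SM f := by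
  induction n with
  | zero => exact fun κ _ => h κ (Nat.zero_le _)
  | succ n ih =>
    refine ih fun κ _ hκ => ?_
    rcases Nat.lt_or_ge n (Fintype.card κ) with h1 | h1
    · exact h κ h1
    · have h2 : RS (hyp (hyT κ f)) := by
        rw [hyp_hyT]
        refine RS_ren _ (hyT_ne_zero _ hf) (h _ ?_)
        rw [Fintype.card_sum, Fintype.card_unit]
        omega
      have h3 : RS (hyp (hyp (hyT κ f))) := by
        have h4 : hyp (hyp (hyT κ f)) = rename (Equiv.sumCongr (e1 σ κ) (Equiv.refl Bool))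
            (hyp (hyT (κ ⊕ Unit) f)) := by
          rw [hyp_hyT]
          unfold hyp
          simp only [map_add, map_mul, rename_rename, rename_X]
          rfl
        rw [h4]
        refine RS_ren _ (hyp_ne_zero _) ?_
        rw [hyp_hyT]
        refine RS_ren _ (hyT_ne_zero _ hf) (h _ ?_)
        rw [Fintype.card_sum, Fintype.card_sum, Fintype.card_unit]
        omega
      exact desc (hyT_ne_zero κ hf) (cc_hyT κ h0) h2 h3

/-- **Adding hyperbolic planes.** -/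
theorem SM_hyT (κ : Type) [Fintype κ] {f : MvPolynomial σ ℂ} (hf : f ≠ 0)
    (h0 : constantCoeff f = 0) : SM (hyT κ f) ↔ SM f := by
  classical
  constructor
  · intro h
    refine RS_all hf h0 (Fintype.card κ) fun κ' _ hκ' => ?_
    obtain ⟨t⟩ : Nonempty (κ ⊕ Fin (Fintype.card κ' - Fintype.card κ) ≃ κ') := by
      refine Fintype.card_eq.1 ?_
      rw [Fintype.card_sum, Fintype.card_fin]
      omega
    rw [hyT_equiv t]
    refine RS_ren _ (hyT_ne_zero _ hf) ?_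
    have h1 := h (Fin (Fintype.card κ' - Fintype.card κ))
    rw [hyT_hyT] at h1
    have h2 := RS_ren (e2 σ κ (Fin (Fintype.card κ' - Fintype.card κ))).symm
      (by
        intro h3
        exact hyT_ne_zero _ hf (rename_injective _ (Equiv.injective _) (by rw [h3, map_zero]))) h1
    rw [rename_rename] at h2
    have h3 : ((e2 σ κ (Fin (Fintype.card κ' - Fintype.card κ))).symm ∘
        e2 σ κ (Fin (Fintype.card κ' - Fintype.card κ))) = id := by
      funext i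
      simp
    rw [h3, rename_id_apply] at h2
    exact h2
  · intro h κ' _
    rw [hyT_hyT]
    exact RS_ren _ (hyT_ne_zero _ hf) (h (κ ⊕ κ'))

/-- `σ ⊕ Unit × Bool ≃ σ ⊕ Bool` -/
def e3 (σ : Type) : σ ⊕ Unit × Bool ≃ σ ⊕ Bool :=
  Equiv.sumCongr (Equiv.refl σ) (Equiv.punitProd Bool)

theorem SM_hyp {f : MvPolynomial σ ℂ} (hf : f ≠ 0) (h0 : constantCoeff f = 0) :
    SM (hyp f) ↔ SM f := by
  have h1 : hyp f = rename (e3 σ) (hyT Unit f) := by
    unfold hyp hyT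
    simp only [map_add, map_sum, map_mul, rename_rename, rename_X, Finset.univ_unique,
      Finset.sum_singleton]
    rfl
  have h2 : hyT Unit f = rename (e3 σ).symm (hyp f) := by
    rw [h1, rename_rename]
    have h3 : ((e3 σ).symm ∘ e3 σ) = id := by
      funext i
      simp
    rw [h3, rename_id_apply]
  rw [← SM_hyT Unit hf h0]
  constructor
  · intro h
    rw [h2]
    exact SM_ren _ (hyp_ne_zero f) h
  · intro h
    rw [h1]
    exact SM_ren _ (hyT_ne_zero _ hf) h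

theorem SM_iso1 (Ψ : MvPolynomial σ ℂ ≃ₐ[ℂ] MvPolynomial τ ℂ)
    (hΨ : ∀ a, constantCoeff (Ψ a) = constantCoeff a) {f : MvPolynomial σ ℂ} (hf : f ≠ 0)
    (h : SM f) : SM (Ψ f) := by
  classical
  have h0 : ∀ i, constantCoeff (Ψ (X i)) = 0 := fun i => by rw [hΨ, constantCoeff_X]
  obtain ⟨ε⟩ : Nonempty (σ ≃ τ) := Fintype.card_eq.1 (le_antisymm (card_le Ψ.symm) (card_le Ψ))
  obtain ⟨Θ, hΘ⟩ := inv τ _ (coords Ψ h0 ε).1 (fun i => Eq.mp (congrArg
    (fun v => v ∈ Submodule.span ℂ (Set.range fun j =>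
      lin ((Ψ (X (ε.symm j)) : MvPolynomial τ ℂ) : MvPowerSeries τ ℂ)))
    (SumL.single_inst _ _ i)) ((coords Ψ h0 ε).2 i))
  refine SM_inv ε ((MvPowerSeries.renameEquiv ℂ ε).trans Θ) 1 (f := f) ?_ hf ?_ h
  · rw [map_one]
    exact one_ne_zero
  · rw [one_mul]
    exact (LisoL.ext_eq Ψ ε Θ hΘ f).symm

theorem SM_iso (Φ : MvPolynomial σ ℂ ≃ₐ[ℂ] MvPolynomial τ ℂ)
    (_ : Fintype.card σ = Fintype.card τ) (hΦ : ∀ a, constantCoeff (Φ a) = constantCoeff a)
    {f : MvPolynomial σ ℂ} (hf : f ≠ 0) : SM (Φ f) ↔ SM f := by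
  constructor
  · intro h
    have h1 := SM_iso1 Φ.symm (fun a => by
      have := hΦ (Φ.symm a)
      rw [AlgEquiv.apply_symm_apply] at this
      exact this.symm) ((map_ne_zero_iff _ Φ.injective).2 hf) h
    rw [AlgEquiv.symm_apply_apply] at h1
    exact h1
  · exact SM_iso1 Φ hΦ hf

/-- The strong property at the origin. -/
def Sg {σ : Type} [Fintype σ] (f : MvPolynomial σ ℂ) : Prop :=
  ∃ S : Finset (ℤ × ℤ), (∀ p ∈ S, 0 < p.2 ∧ ∀ b : Polynomial ℂ, IsLocalBFunction f b →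
      b.eval ((p.1 : ℂ) / p.2) = 0) ∧
    ∀ E : Set (AlgebraicClosure ℂ), Good E → zetaM f {0} E ∈ ratRing ℂ (S : Set (ℤ × ℤ))

theorem SM.sg {f : MvPolynomial σ ℂ} (hf : f ≠ 0) (h0 : constantCoeff f = 0) (h : SM f) :
    Sg f := by
  classical
  have h1 : RS f := by
    have h2 := h Empty
    have h3 : hyT Empty f = rename (Sum.inl : σ → σ ⊕ Empty × Bool) f := by
      unfold hyT
      simp
    let e : σ ≃ σ ⊕ Empty × Bool := (Equiv.sumEmpty σ (Empty × Bool)).symm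
    have h4 : hyT Empty f = rename e f := h3
    have h5 := RS_ren e.symm (hyT_ne_zero Empty hf) h2
    rw [h4, rename_rename] at h5
    have h6 : (e.symm ∘ e) = id := by
      funext i
      simp
    rw [h6, rename_id_apply] at h5
    exact h5
  obtain ⟨S, hS, hz⟩ := h1
  refine ⟨insert (-1, 1) S, fun p hp => ?_, fun E hE => ?_⟩
  · rcases Finset.mem_insert.1 hp with rfl | hp
    · refine ⟨by norm_num, fun b hb => ?_⟩
      have h2 := local_neg_one hb hf h0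
      have h3 : (((-1 : ℤ) : ℂ)) / ((1 : ℤ) : ℂ) = -1 := by simp
      rw [h3]
      exact h2
    · refine ⟨(hS p hp).1, fun b hb => ?_⟩
      obtain ⟨c, hc⟩ := Polynomial.dvd_iff_isRoot.2 (show b.IsRoot (-1) from
        local_neg_one hb hf h0)
      have h3 : b = (Polynomial.X + 1) * c := by
        rw [hc, Polynomial.C_neg, Polynomial.C_1, sub_neg_eq_add]
      rw [h3, Polynomial.eval_mul, (hS p hp).2 c (by rw [← h3]; exact hb), mul_zero]
  · have h2 : geo ℂ (-1) 1 * (om * zetaM f {0} E) = zetaM f {0} E := by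
      have h3 := geo_neg_one
      have h4 : om * geo ℂ (-1) 1 = 1 := h3
      calc _ = (om * geo ℂ (-1) 1) * zetaM f {0} E := by ring
        _ = _ := by rw [h4, one_mul]
    rw [← h2]
    refine mul_mem (Algebra.subset_adjoin (Or.inr ⟨(-1, 1), ?_, rfl⟩)) (ratRing_mono ?_ (hz E hE))
    · exact Finset.mem_coe.2 (Finset.mem_insert_self _ _)
    · intro p hp
      exact Finset.mem_coe.2 (Finset.mem_insert_of_mem (Finset.mem_coe.1 hp))

end Pool.Agent.Helper33K9.RS
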