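import Pool.Agent.TH216.LR.Lr7
import Pool.Agent.Y824.MS.Four

set_option autoImplicit false

/-! # Local motivic zeta functions at the origin, affinely independent exponents: the rays only

The proofs are adapted from `Pool/Agent/TH216/LR/Lr6.lean`, `Lr7.lean` and `Pool/Agent/Y824/MS/Four.lean`.
-/

namespace Pool.Agent.Helper33K9.RS.BaseL

section

open MvPolynomial
open Pool.Agent.TH216.LR
open Pool.Agent.W428.MOT Pool.Agent.W749.MT Pool.Agent.W425.MM.Mot
open Pool.Agent.W375.MG (Good GB0 GB1 constr_W constr_GB1 zetaG)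
open Pool.Agent.TH216.MF (frc frc_le free_step cser cf Psi Omg Gd fac IsPol KRelJ RecJ formal ratR
  FR evR geoR_mul RelG KilU nonD_of_ind)
open Pool.Agent.TH216.MC (b0_empty b0_rel b1_rel pos_of_ray)
open Pool.Agent.W426.SM (gord ford IsRay face)
open Pool.Agent.W63.MTFin (mapMeas geo_sum L_mul ev)
open Pool.Agent.Y824.MS (inRat_J1)

/-- **Local motivic zeta functions of a nondegenerate polynomial: only the rays which are not
bad.** -/
theorem fin_loc1 {n r : ℕ} (m : Fin r → Fin n → ℕ) (hr0 : 0 < r) (Bad : ℚ → Prop)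
    (hB : ∀ q : ℕ, 2 ≤ q → ∀ e : Finset (Fin r) → ℂ, KRelJ q m Finset.univ e →
      ∀ T0 : ℂ, T0 ≠ 0 → ∀ σ : ℚ, Bad σ → Real.log ‖T0‖ / Real.log q = (σ : ℝ) →
      RecJ q m e Finset.univ T0) :
    ∃ S : Finset (ℤ × ℤ),
      (∀ p ∈ S, ∃ a : Fin n → ℕ, IsRay m a ∧ 0 < gord m a ∧
        ¬ Bad (((∑ i, a i : ℕ) : ℚ) / gord m a) ∧
        p = (-((∑ i, a i : ℕ) : ℤ), (gord m a : ℤ))) ∧
      ∀ (K : Type) [Field K] [CharZero K] (c : Fin r → K), NonG m c → (∀ j, c j ≠ 0) →
      ∀ (E : Set (AlgebraicClosure K)), Good E →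
        (1 - PowerSeries.C (((Lu K)⁻¹ : (MK K)ˣ) : MK K) * PowerSeries.X) *
          zetaG (sp 0 m c 1) {0} E ∈ ratRing K S := by
  classical
  have h1 : S_K0 := Pool.Agent.W417.MT.K0.main
  have h5 : S_CP1 := Pool.Agent.W346.MTCp1.main
  have hFree : S_Free := Pool.Agent.W417.MT.Free.main
  have hSub : S_Sub := Pool.Agent.W21.MTSub.main
  have hTay : S_Tay := Pool.Agent.W417.MT.Tay.main
  obtain ⟨l, hl, hG⟩ := formal hr0 m Finset.univ Bad hB
  set S : Finset (ℤ × ℤ) :=
    l.toFinset.image fun a => (-((∑ i, a i : ℕ) : ℤ), (gord m a : ℤ)) with hS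
  have hS2 : ∀ a ∈ l, (-((∑ i, a i : ℕ) : ℤ), (gord m a : ℤ)) ∈ S :=
    fun a ha => Finset.mem_image.2 ⟨a, List.mem_toFinset.2 ha, rfl⟩
  refine ⟨S, fun p hp => ?_, ?_⟩
  · obtain ⟨a, ha, rfl⟩ := Finset.mem_image.1 hp
    obtain ⟨ha1, ha2, ha3⟩ := hl a (List.mem_toFinset.1 ha)
    exact ⟨a, ha1, ha2, ha3, rfl⟩
  · intro K _ _ c hNon hc E hE
    have hW : Constr ({0} : Set (Pt K (Fin n))) := by
      have h2 : ({0} : Set (Pt K (Fin n))) = {z | ∀ i, z i = (0 : AlgebraicClosure K)} := by
        ext z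
        simp only [Set.mem_singleton_iff, Set.mem_ofPred_eq]
        constructor
        · rintro rfl i
          rfl
        · intro h
          funext i
          exact h i
      rw [h2]
      exact Constr.all fun i => Constr.eq (IsPF.coord _) IsPF.zero
    set W : Set (Pt K (Fin n)) := {0} with hWdef
    obtain ⟨M₀, hM₀⟩ := h1 K
    set M := mapMeas M₀ (algebraMap (K0 K) (MK K)) with hM
    set Y : MK K := (((Lu K)⁻¹ : (MK K)ˣ) : MK K) with hY
    have hL : M.L * Y = 1 := L_mul hM₀
    have hML : M.L = ((Lu K : (MK K)ˣ) : MK K) := by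
      have h2 : ((Lu K : (MK K)ˣ) : MK K) * Y = 1 := Units.mul_inv _
      calc M.L = M.L * (((Lu K : (MK K)ˣ) : MK K) * Y) := by rw [h2, mul_one]
        _ = (M.L * Y) * ((Lu K : (MK K)ˣ) : MK K) := by ring
        _ = _ := by rw [hL, one_mul]
    have hsum := sum hFree hSub hTay M 0 m c 1 hW hE hNon one_pos Y hL
    -- the series
    set C : Finset (Fin n) → Finset (Fin r) → PowerSeries (MK K) := fun J τ =>
      PowerSeries.map (evR (Lu K)) (cser m J τ) with hCdef
    have hCc : ∀ J τ N, PowerSeries.coeff N (C J τ) =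
        Polynomial.eval₂ (Int.castRingHom (MK K)) Y (cp 0 m 1 J τ N N) := fun J τ N => by
      simp only [hCdef, cser]
      rw [PowerSeries.coeff_map, PowerSeries.coeff_mk]
      rfl
    set D : Finset (Fin n) → Finset (Fin r) → PowerSeries (MK K) := fun J τ =>
      PowerSeries.mk fun N => ∑ l ∈ Finset.Icc 1 N,
        if 1 * l ≤ N then Y ^ l * PowerSeries.coeff (N - 1 * l) (C J τ) else 0
      with hDdef
    have hD : ∀ J τ, D J τ = PowerSeries.C Y * PowerSeries.X * C J τ * geoR (Lu K) (-1) 1 := by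
      intro J τ
      have h6 := geo_sum Y (fun N => PowerSeries.coeff N (C J τ)) 1 one_pos
      have h7 := geoR_mul (Lu K) (-1) 1 one_pos
      rw [show (1 : ℤ).toNat = 1 from rfl, zpow_neg_one] at h7
      have h9 : PowerSeries.mk (fun N => PowerSeries.coeff N (C J τ)) = C J τ := by
        ext N
        rw [PowerSeries.coeff_mk]
      rw [h9] at h6
      have h10 : D J τ * ((1 - PowerSeries.C Y * PowerSeries.X ^ 1) * geoR (Lu K) (-1) 1) =
          PowerSeries.C Y * PowerSeries.X ^ 1 * C J τ * geoR (Lu K) (-1) 1 := by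
        rw [← h6, mul_assoc]
      rw [h7, mul_one, pow_one] at h10
      exact h10
    set b0 : Finset (Fin n) → Finset (Fin r) → MK K := fun J τ => M.χ _ (GB0 0 m c 1 W E J τ)
      with hb0
    set b1 : Finset (Fin n) → Finset (Fin r) → MK K := fun J τ => M.χ _ (GB1 0 m c 1 W E J τ)
      with hb1
    -- only the points with all coordinates zero
    have hempty : ∀ J : Finset (Fin n), J ≠ Finset.univ → ∀ z : Pt K (Option (Fin n)),
        (∀ i, z (some i) ≠ 0) → ¬ (fun i => if i ∈ J then 0 else z (some i)) ∈ W := by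
      intro J hJ z hz hW'
      obtain ⟨i, hi⟩ : ∃ i, i ∉ J := by
        by_contra hcon
        push Not at hcon
        exact hJ (Finset.eq_univ_of_forall hcon)
      have h6 : (fun i => if i ∈ J then 0 else z (some i)) = (0 : Pt K (Fin n)) := hW'
      have h7 := congrFun h6 i
      simp only [if_neg hi] at h7
      exact hz i h7
    have hempty0 : ∀ J : Finset (Fin n), J ≠ Finset.univ → ∀ z : Pt K (Fin n),
        (∀ i, z i ≠ 0) → ¬ (fun i => if i ∈ J then 0 else z i) ∈ W := by
      intro J hJ z hz hW'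
      obtain ⟨i, hi⟩ : ∃ i, i ∉ J := by
        by_contra hcon
        push Not at hcon
        exact hJ (Finset.eq_univ_of_forall hcon)
      have h6 : (fun i => if i ∈ J then 0 else z i) = (0 : Pt K (Fin n)) := hW'
      have h7 := congrFun h6 i
      simp only [if_neg hi] at h7
      exact hz i h7
    have hb0z : ∀ J : Finset (Fin n), J ≠ Finset.univ → ∀ τ, b0 J τ = 0 := by
      intro J hJ τ
      have h6 : GB0 0 m c 1 W E J τ = ∅ := by
        ext z
        simp only [GB0, Set.mem_ofPred_eq, Set.mem_empty_iff_false, iff_false]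
        rintro ⟨h7, h8, -⟩
        exact hempty0 J hJ z h8 h7
      simp only [hb0]
      rw [h6, χ_empty]
    have hb1z : ∀ J : Finset (Fin n), J ≠ Finset.univ → ∀ τ, b1 J τ = 0 := by
      intro J hJ τ
      have h6 : GB1 0 m c 1 W E J τ = ∅ := by
        ext z
        simp only [GB1, Set.mem_ofPred_eq, Set.mem_empty_iff_false, iff_false]
        rintro ⟨h7, h8, -⟩
        exact hempty J hJ z h8 h7
      simp only [hb1]
      rw [h6, χ_empty]
    set F : PowerSeries (MK K) := ∑ J : Finset (Fin n), FR (Lu K) m J (b0 J) (b1 J) with hF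
    have hFmem : F * (1 - PowerSeries.C Y * PowerSeries.X) ∈ ratRing K S := by
      rw [hF, Finset.sum_mul]
      refine (ratRing K S).sum_mem fun J _ => ?_
      by_cases hJ : J = Finset.univ
      · subst hJ
        refine inRat_J1 (Lu K) m Finset.univ l (fun a ha => ⟨(hl a ha).2.1, hS2 a ha⟩) hG
          (M.χ _ (GB1 0 m c 1 W E Finset.univ ∅)) (fun _ => True) (fun _ _ _ _ => trivial)
          (fun _ h => absurd trivial h) (b0 Finset.univ) (b1 Finset.univ)
          (b0_empty M m c hE Finset.univ) rfl ?_ ?_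
        · intro i hi j0 hj0 τ hτ _
          rw [← hML]
          exact b0_rel hFree hSub M m c hc hW hE Finset.univ i hi j0 hj0 τ hτ
        · intro i hi j0 hj0 τ hτ _
          rw [← hML]
          exact b1_rel hFree hSub M m c hc hW hE Finset.univ i hi j0 hj0 τ hτ
      · have h6 : FR (Lu K) m J (b0 J) (b1 J) = 0 := by
          unfold FR
          refine Finset.sum_eq_zero fun τ _ => ?_
          rw [hb0z J hJ, hb1z J hJ]
          simp
        rw [h6, zero_mul]
        exact (ratRing K S).zero_mem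
    have hz : zetaG (sp 0 m c 1) W E =
        F - PowerSeries.C (PowerSeries.coeff 0 F) + PowerSeries.C (PowerSeries.coeff 0
          (zetaG (sp 0 m c 1) W E)) := by
      ext N
      by_cases hN : N = 0
      · subst hN
        rw [map_add, map_sub, PowerSeries.coeff_C, if_pos rfl, PowerSeries.coeff_C, if_pos rfl,
          sub_self, zero_add]
      · rw [map_add, map_sub, PowerSeries.coeff_C, if_neg hN, PowerSeries.coeff_C, if_neg hN,
          sub_zero, add_zero, zetaG, PowerSeries.coeff_mk]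
        have h6 := hsum N (by omega)
        have h7 : algebraMap (K0 K) (MK K) (cls (Fin n × Fin (N + 1))
            (Pool.Agent.W375.MG.JetG (sp 0 m c 1) W E N)) *
            (((Lu K) ^ (-((n * N : ℕ) : ℤ)) : (MK K)ˣ) : MK K) =
            M.χ _ (Pool.Agent.W375.MG.JetG (sp 0 m c 1) W E N) * Y ^ (n * N) := by
          rw [zpow_neg, zpow_natCast, ← inv_pow, Units.val_pow_eq_pow_val, ← hM₀]
          rfl
        rw [h7, h6, hF, map_sum]
        refine Finset.sum_congr rfl fun J _ => ?_
        unfold FR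
        rw [map_sum]
        refine Finset.sum_congr rfl fun τ _ => ?_
        change _ = PowerSeries.coeff N (PowerSeries.C (((Lu K : (MK K)ˣ) : MK K) ^ frc m J τ) *
          (PowerSeries.C (b0 J τ) * C J τ + PowerSeries.C (b1 J τ) *
            (PowerSeries.C Y * PowerSeries.X * C J τ * geoR (Lu K) (-1) 1)))
        rw [← hD, ← hML, PowerSeries.coeff_C_mul, map_add, PowerSeries.coeff_C_mul,
          PowerSeries.coeff_C_mul, hCc, hDdef, PowerSeries.coeff_mk, Finset.mul_sum]
        congr 2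
        refine Finset.sum_congr rfl fun i _ => ?_
        split_ifs with hi
        · rw [hCc, h5 0 m 1 J τ hr0 one_pos N (N - 1 * i) (Nat.sub_le _ _), mul_assoc]
        · rw [mul_zero]
    have hYX : (1 - PowerSeries.C Y * PowerSeries.X) ∈ ratRing K S :=
      (ratRing K S).sub_mem (ratRing K S).one_mem ((ratRing K S).mul_mem
        (Pool.Agent.W63.MTFin.C_mem _ _) (Pool.Agent.W63.MTFin.X_mem _))
    have hfin : (1 - PowerSeries.C Y * PowerSeries.X) * zetaG (sp 0 m c 1) W E =
        F * (1 - PowerSeries.C Y * PowerSeries.X) -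
          PowerSeries.C (PowerSeries.coeff 0 F) * (1 - PowerSeries.C Y * PowerSeries.X) +
          PowerSeries.C (PowerSeries.coeff 0 (zetaG (sp 0 m c 1) W E)) *
            (1 - PowerSeries.C Y * PowerSeries.X) := by
      conv_lhs => rw [hz]
      ring
    rw [hfin]
    exact (ratRing K S).add_mem ((ratRing K S).sub_mem hFmem
      ((ratRing K S).mul_mem (Pool.Agent.W63.MTFin.C_mem _ _) hYX))
      ((ratRing K S).mul_mem (Pool.Agent.W63.MTFin.C_mem _ _) hYX)

end

section

open Pool.Agent.TH216.LR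
open MvPolynomial Pool.Agent.H628R4.TP Pool.Agent.W425.MM Pool.Agent.W425.GN
open Pool.Agent.W425.ND (spa)
open Pool.Agent.W426.SM (gord IsRay face)
open Pool.Agent.W425.SV (Kil1)
open Pool.Agent.W425.SM (Ind)
open Pool.Agent.TH216.MF (RelG KilU KRelJ RecJ nonD_of_ind)
open Pool.Agent.TH216.MC (pos_of_ray)
open Pool.Agent.W428.MOT (Pt Constr ratRing sp LuMu InRat zetaE MK Lu)
open Pool.Agent.W375.MG (zetaG Good)

variable {r N : ℕ}

/-- **Affinely independent exponents, at the origin.** -/
theorem ind_loc1 {k : Type} [Field k] [Algebra k ℂ] (hr : 1 ≤ r) (v : Fin r → Fin N → ℕ)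
    (hv : Ind v) (hv0 : ∀ j, v j ≠ 0) (c : Fin r → k) (hc : ∀ j, c j ≠ 0) :
    ∃ S : Finset (ℤ × ℤ),
      (∀ p ∈ S, 0 < p.2 ∧ ∀ b : Polynomial ℂ, IsLocalBFunction
        (spa v (fun j => algebraMap k ℂ (c j))) ((Polynomial.X + 1) * b) →
          b.eval ((p.1 : ℂ) / p.2) = 0) ∧
      (∀ (K : Type) [Field K] [Algebra k K] (E : Set (AlgebraicClosure K)), Good E →
        (1 - PowerSeries.C (((Lu K)⁻¹ : (MK K)ˣ) : MK K) * PowerSeries.X) *
          zetaG (spa v (fun j => algebraMap k K (c j))) {0} E ∈ ratRing K S) := by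
  classical
  have hr0 : 0 < r := by omega
  have hkc : CharZero k := RingHom.charZero (algebraMap k ℂ)
  set f : MvPolynomial (Fin N) ℂ := spa v (fun j => algebraMap k ℂ (c j)) with hf
  have hcC : ∀ j, algebraMap k ℂ (c j) ≠ 0 := fun j => (map_ne_zero _).2 (hc j)
  have hnd : NonD v (fun j => algebraMap k ℂ (c j)) := nonD_of_ind hr0 v hv _ hcC
  have hA := relL_of_local hr v hv hv0 (fun j => algebraMap k ℂ (c j)) hcC
  obtain ⟨S, hS, hz1⟩ := fin_loc1 v hr0
    (fun σ => ∃ b, IsLocalBFunction f ((Polynomial.X + 1) * b) ∧ b.eval (-(σ : ℂ)) ≠ 0) (by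
      rintro q hq e he T0 hT0 σ ⟨b, hb, hne⟩ hlog
      obtain ⟨P, h1, h2⟩ := hA _ hb
      have h1' : b = P := mul_left_cancel₀ (Polynomial.X_add_C_ne_zero (1 : ℂ)) (by
        rw [Polynomial.C_1]
        exact h1)
      refine recJ_loc hr0 q hq v P Finset.univ Finset.univ (Finset.Subset.refl _) 0 h2 e he T0
        hT0 ?_
      intro h3
      apply hne
      have h4 : ((-Real.log ‖T0‖ / Real.log q : ℝ) : ℂ) = -(σ : ℂ) := by
        rw [neg_div, hlog]
        push_cast
        rfl
      rw [h4] at h3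
      rw [h1', h3])
  have hsp : ∀ {K : Type} [Field K] (c' : Fin r → K), spa v c' = sp 0 v c' 1 := by
    intro K _ c'
    unfold sp spa
    simp
  refine ⟨S, fun p hp => ?_, ?_⟩
  · obtain ⟨a, ha, hg, hn, rfl⟩ := hS p hp
    · refine ⟨Int.natCast_pos.2 hg, fun b hb => ?_⟩
      by_contra hne
      apply hn
      refine ⟨b, hb, ?_⟩
      have e : -((((∑ i, a i : ℕ) : ℚ) / gord v a : ℚ) : ℂ) =
          ((-((∑ i, a i : ℕ) : ℤ) : ℤ) : ℂ) / ((gord v a : ℤ) : ℂ) := by
        push_cast
        ring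
      rw [e]
      exact hne
  · intro K _ _ E hE
    have hK : CharZero K := charZero_of_injective_algebraMap (algebraMap k K).injective
    rw [hsp]
    refine hz1 K _ (nonG_of_nonD _ _ ?_) (fun j => (map_ne_zero _).2 (hc j)) E hE
    have h4 := nonD_ext (k := k) (L := AlgebraicClosure K) _ _ hnd
    have h5 : (fun j => algebraMap K (AlgebraicClosure K) (algebraMap k K (c j))) =
        fun j => algebraMap k (AlgebraicClosure K) (c j) := by
      funext j
      rw [← IsScalarTower.algebraMap_apply]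
    rw [h5]
    exact h4

end

end Pool.Agent.Helper33K9.RS.BaseL
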