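import Pool.Agent.Helper33K9.RS.St
import Pool.Agent.Helper33K9.RS.BaseM

set_option autoImplicit false
set_option linter.dupNamespace false

/-! # [BASE] sums of monomials with affinely independent exponents -/

namespace Pool.Agent.Helper33K9.RS

open MvPolynomial Pool.Agent.H628R4.TP Pool.Agent.W428.MOT Pool.Agent.TH192.MT
  Pool.Agent.Helper33K9.HP Pool.Agent.Helper33K9.FQ Pool.Agent.Helper33K9.RO

open Pool.Agent.W375.MG (Good zetaG JetG)

theorem BaseL.zetaM_eq {K : Type} [Field K] {n : ℕ} (f : MvPolynomial (Fin n) K)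
    (W : Set (Pt K (Fin n))) (E : Set (AlgebraicClosure K)) : zetaM f W E = zetaG f W E := by
  unfold zetaM zetaG
  rw [Fintype.card_fin]
  rfl

theorem base : S_BASE := by
  intro N r v c hr hv hv0 hc
  obtain ⟨S, hS, hz⟩ := BaseL.ind_loc1 (k := ℂ) hr v hv hv0 c hc
  have h1 : Pool.Agent.W425.ND.spa v (fun j => algebraMap ℂ ℂ (c j)) =
      (∑ j, C (c j) * ∏ i, X i ^ v j i : MvPolynomial (Fin N) ℂ) := rfl
  refine ⟨S, fun p hp => ⟨(hS p hp).1, fun b hb => ?_⟩, fun E hE => ?_⟩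
  · exact (hS p hp).2 b (by rw [h1]; exact hb)
  · have h2 := hz ℂ E hE
    rw [h1] at h2
    rw [BaseL.zetaM_eq]
    exact h2

end Pool.Agent.Helper33K9.RS
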