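import Pool.Agent.Helper33K9.RS.St
import Pool.Agent.Helper33K9.FQ.Bf
import Pool.Agent.Helper33K9.FQ.Der
import Pool.Agent.Y229.PS.Main

set_option autoImplicit false
set_option linter.dupNamespace false

/-! # [BFR] the reduced functional equation of `f + u v` -/

namespace Pool.Agent.Helper33K9.RS

open MvPolynomial Pool.Agent.H628R4.TP Pool.Agent.W428.MOT Pool.Agent.TH192.MT
  Pool.Agent.Helper33K9.HP Pool.Agent.Helper33K9.FQ Pool.Agent.Helper33K9.RO
open Pool.Agent.Y229.PS (IsFormalBFunction local_of_formal formal_of_local stabP Becomes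
  becomes_local)
open Pool.Agent.Y229.GL (IsCoord)

namespace BfrL

/-- the variables -/
def ev {Ω : Type} {n : ℕ} (e : Ω ≃ Fin n) : Fin (n + (1 + 1)) ≃ Ω ⊕ Bool :=
  (finSumFinEquiv.symm).trans (Equiv.sumCongr e.symm finTwoEquiv)

theorem ev_inl {Ω : Type} {n : ℕ} (e : Ω ≃ Fin n) (i : Fin n) :
    ev e (Fin.castAdd (1 + 1) i) = Sum.inl (e.symm i) := by
  unfold ev
  rw [Equiv.trans_apply, finSumFinEquiv_symm_apply_castAdd]
  rfl

theorem ev_f {Ω : Type} {n : ℕ} (e : Ω ≃ Fin n) :
    ev e (Fin.natAdd n (Fin.castAdd 1 (0 : Fin 1))) = Sum.inr false := by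
  unfold ev
  rw [Equiv.trans_apply, finSumFinEquiv_symm_apply_natAdd]
  rfl

theorem ev_t {Ω : Type} {n : ℕ} (e : Ω ≃ Fin n) :
    ev e (Fin.natAdd n (Fin.natAdd 1 (0 : Fin 1))) = Sum.inr true := by
  unfold ev
  rw [Equiv.trans_apply, finSumFinEquiv_symm_apply_natAdd]
  rfl

theorem isCoord_X (n : ℕ) :
    IsCoord (MvPowerSeries.X : Fin n → MvPowerSeries (Fin n) ℂ) := by
  unfold IsCoord
  have h : (Matrix.of fun i j : Fin n => MvPowerSeries.coeff (Finsupp.single j 1)
      (MvPowerSeries.X i : MvPowerSeries (Fin n) ℂ)) = 1 := by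
    ext i j
    rw [Matrix.of_apply, MvPowerSeries.coeff_index_single_X, Matrix.one_apply]
    by_cases h : i = j
    · rw [if_pos h, if_pos h.symm]
    · rw [if_neg h, if_neg (fun h' => h h'.symm)]
  rw [h, Matrix.det_one]
  exact one_ne_zero

/-- `f + y z` -/
noncomputable def sb {n : ℕ} (f : MvPolynomial (Fin n) ℂ) : MvPolynomial (Fin (n + (1 + 1))) ℂ :=
  rename (Fin.castAdd (1 + 1)) f + X (Fin.natAdd n (Fin.castAdd 1 (0 : Fin 1))) *
    X (Fin.natAdd n (Fin.natAdd 1 (0 : Fin 1)))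

theorem becomes {n : ℕ} (f : MvPolynomial (Fin n) ℂ) :
    Becomes (f : MvPowerSeries (Fin n) ℂ) 1 (sb f) := by
  refine ⟨MvPowerSeries.X, 1, isCoord_X _, fun i => MvPowerSeries.constantCoeff_X i,
    isUnit_one, ?_⟩
  rw [MvPowerSeries.subst_self, id_eq, one_mul]
  unfold stabP sb
  rw [MvPolynomial.coe_add, MvPolynomial.coe_mul, MvPolynomial.coe_X, MvPolynomial.coe_X,
    MvPowerSeries.rename_coe, Fin.sum_univ_one]

theorem rename_sb {Ω : Type} {n : ℕ} (e : Ω ≃ Fin n) (f : MvPolynomial Ω ℂ) :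
    rename (ev e) (sb (rename e f)) = hyp f := by
  have h : ∀ i, (ev e (Fin.castAdd (1 + 1) (e i))) = Sum.inl i := fun i => by
    rw [ev_inl, Equiv.symm_apply_apply]
  have h' : rename (ev e) (rename (Fin.castAdd (1 + 1)) (rename e f)) = rename Sum.inl f := by
    rw [rename_rename, rename_rename]
    exact congrArg (fun g => rename g f) (funext h)
  unfold sb hyp
  rw [map_add, map_mul, rename_X, rename_X, ev_f, ev_t, h']

end BfrL

open BfrL in
theorem bfr : S_BFR := by
  intro Ω _ f hf hf0 c hc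
  let e : Ω ≃ Fin (Fintype.card Ω) := Fintype.equivFin Ω
  have h1 : IsLocalBFunction (rename e f) ((Polynomial.X + 1) * c) :=
    bf der Ω _ (MvPowerSeries.renameEquiv ℂ e) f (rename e f) (MvPowerSeries.rename_coe _ f) _ hc
  have h2 : ((rename e f : MvPolynomial (Fin (Fintype.card Ω)) ℂ) :
      MvPowerSeries (Fin (Fintype.card Ω)) ℂ) ≠ 0 := by
    intro h
    rw [MvPolynomial.coe_eq_zero_iff] at h
    exact hf (rename_injective _ e.injective (by rw [h, map_zero]))
  have h3 : MvPowerSeries.constantCoeff ((rename e f : MvPolynomial (Fin (Fintype.card Ω)) ℂ) :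
      MvPowerSeries (Fin (Fintype.card Ω)) ℂ) = 0 := by
    rw [← MvPowerSeries.coeff_zero_eq_constantCoeff_apply, MvPolynomial.coeff_coe]
    change constantCoeff (rename e f) = 0
    rw [constantCoeff_rename]
    exact hf0
  have h4 := (becomes_local h2 h3 (formal_of_local h1) (becomes (rename e f))).2 c rfl
  have h5 : IsLocalBFunction (hyp f) ((Polynomial.X + 1) *
      c.comp (Polynomial.X + Polynomial.C ((1 : ℕ) : ℂ))) := by
    refine bf der _ _ (MvPowerSeries.renameEquiv ℂ (ev e)) (sb (rename e f)) (hyp f) ?_ _ h4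
    rw [← rename_sb e f]
    exact MvPowerSeries.rename_coe _ _
  rw [Nat.cast_one, Polynomial.C_1] at h5
  exact h5

end Pool.Agent.Helper33K9.RS
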