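import Pool.Agent.Helper33K9.RS.St
import Pool.Agent.Helper33K9.HP.Ser
import Pool.Agent.W417.MT.Free
import Pool.Agent.W21.MTSub

set_option autoImplicit false
set_option linter.unusedSectionVars false
set_option linter.unusedVariables false
set_option linter.dupNamespace false

/-! # [CHI] The class of the jets of `f + u v` at the origin with leading coefficient in `E` -/

namespace Pool.Agent.Helper33K9.RS

namespace ChiL

open MvPolynomial Pool.Agent.W428.MOT Pool.Agent.TH192.MT Pool.Agent.Helper33K9.HP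

variable {K : Type} [Field K] {σ : Type} [Fintype σ] {d : ℕ}

/-- conditions on one value are constructible -/
def CE (E : Set (AlgebraicClosure K)) : Prop :=
  ∀ {ι : Type} (F : Pt K ι → AlgebraicClosure K), IsPF F → Constr {z | F z ∈ E}

theorem ce_zero : CE ({0} : Set (AlgebraicClosure K)) := fun F hF => by
  have := Constr.eqz hF
  simpa only [Set.mem_singleton_iff] using this

theorem chi_lift {R : Type} [CommRing R] (M : Meas K R) {ι κ : Type} [Fintype ι] [Fintype κ]
    (e : κ → ι) (he : Function.Injective e) (S : Set (Pt K ι)) (T : Set (Pt K κ))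
    (hS : Constr S) (hT : Constr T)
    (h : ∀ z, z ∈ S ↔ (∀ p, (∀ k, e k ≠ p) → z p = 0) ∧ (fun k => z (e k)) ∈ T) :
    M.χ ι S = M.χ κ T := by
  classical
  set g : Pt K κ → Pt K ι := fun y p => if hp : ∃ k, e k = p then y hp.choose else 0 with hg
  have hge : ∀ y k, g y (e k) = y k := by
    intro y k
    have hp : ∃ k', e k' = e k := ⟨k, rfl⟩
    simp only [hg]
    rw [dif_pos hp]
    exact congrArg y (he hp.choose_spec)
  have hg0 : ∀ y p, (∀ k, e k ≠ p) → g y p = 0 := by
    intro y p hp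
    simp only [hg]
    rw [dif_neg]
    rintro ⟨k, hk⟩
    exact hp k hk
  refine M.iso S T hS hT (fun z k => z (e k)) g (regularOn_poly (fun k => IsPF.coord _) _)
    (regularOn_poly (fun p => ?_) _) ?_ ?_ ?_ ?_
  · by_cases hp : ∃ k, e k = p
    · obtain ⟨k, rfl⟩ := hp
      simp only [hge]
      exact IsPF.coord _
    · have h1 : (fun z => g z p) = fun _ => 0 := funext fun z => hg0 z p (fun k hk => hp ⟨k, hk⟩)
      rw [h1]
      exact IsPF.zero
  · intro z hz
    exact ((h z).1 hz).2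
  · intro y hy
    refine (h _).2 ⟨fun p hp => hg0 y p hp, ?_⟩
    have h1 : (fun k => g y (e k)) = y := funext fun k => hge y k
    rw [h1]
    exact hy
  · intro z hz
    funext p
    by_cases hp : ∃ k, e k = p
    · obtain ⟨k, rfl⟩ := hp
      exact hge (fun k => z (e k)) k
    · exact (hg0 (fun k => z (e k)) p (fun k hk => hp ⟨k, hk⟩)).trans
        (((h z).1 hz).1 p (fun k hk => hp ⟨k, hk⟩)).symm
  · intro y hy
    funext k
    exact hge y k

/-- the coefficients of `u` -/
noncomputable def Yc (w : Pt K ((σ ⊕ Bool) × Fin (d + 1))) (j : ℕ) : AlgebraicClosure K :=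
  PowerSeries.coeff j (ar w (Sum.inr false))

/-- the coefficients of `v` -/
noncomputable def Zc (w : Pt K ((σ ⊕ Bool) × Fin (d + 1))) (j : ℕ) : AlgebraicClosure K :=
  PowerSeries.coeff j (ar w (Sum.inr true))

/-- the coefficients of `f (x)` -/
noncomputable def Fc (f : MvPolynomial σ K) (w : Pt K ((σ ⊕ Bool) × Fin (d + 1)))
    (j : ℕ) : AlgebraicClosure K :=
  PowerSeries.coeff j (fa f w)

/-- the coefficients of `f + u v` -/
noncomputable def Gcc (f : MvPolynomial σ K) (w : Pt K ((σ ⊕ Bool) × Fin (d + 1)))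
    (j : ℕ) : AlgebraicClosure K :=
  PowerSeries.coeff j (fa f w + ar w (Sum.inr false) * ar w (Sum.inr true))

theorem isPF_Yc (j : ℕ) : IsPF (fun w : Pt K ((σ ⊕ Bool) × Fin (d + 1)) => Yc w j) := pf_ar _ _

theorem isPF_Zc (j : ℕ) : IsPF (fun w : Pt K ((σ ⊕ Bool) × Fin (d + 1)) => Zc w j) := pf_ar _ _

theorem isPF_Fc (f : MvPolynomial σ K) (j : ℕ) :
    IsPF (fun w : Pt K ((σ ⊕ Bool) × Fin (d + 1)) => Fc f w j) := pf_fa f j

theorem isPF_Gcc (f : MvPolynomial σ K) (j : ℕ) :
    IsPF (fun w : Pt K ((σ ⊕ Bool) × Fin (d + 1)) => Gcc f w j) := pf_hyp f j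

theorem Yc_of_lt (w : Pt K ((σ ⊕ Bool) × Fin (d + 1))) (j : ℕ) (hj : j < d + 1) :
    Yc w j = w (Sum.inr false, ⟨j, hj⟩) := by
  rw [Yc, coeff_ar, dif_pos hj]

theorem Zc_of_lt (w : Pt K ((σ ⊕ Bool) × Fin (d + 1))) (j : ℕ) (hj : j < d + 1) :
    Zc w j = w (Sum.inr true, ⟨j, hj⟩) := by
  rw [Zc, coeff_ar, dif_pos hj]

theorem ar_congr (w w' : Pt K ((σ ⊕ Bool) × Fin (d + 1))) (a : σ ⊕ Bool)
    (h : ∀ j, w (a, j) = w' (a, j)) : ar w a = ar w' a := by
  ext j
  rw [coeff_ar, coeff_ar]
  split_ifs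
  · exact h _
  · rfl

theorem fa_congr (f : MvPolynomial σ K) (w w' : Pt K ((σ ⊕ Bool) × Fin (d + 1)))
    (h : ∀ a j, w (Sum.inl a, j) = w' (Sum.inl a, j)) : fa f w = fa f w' :=
  congrArg (fun γ : σ → PowerSeries (AlgebraicClosure K) => aeval γ f)
    (funext fun i => ar_congr _ _ _ (h i))

theorem Fc_congr (f : MvPolynomial σ K) (w w' : Pt K ((σ ⊕ Bool) × Fin (d + 1)))
    (h : ∀ a j, w (Sum.inl a, j) = w' (Sum.inl a, j)) (j : ℕ) : Fc f w j = Fc f w' j := by
  rw [Fc, Fc, fa_congr f w w' h]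

/-- the coefficient of `t ^ (i + l)` if `ord u ≥ i` -/
noncomputable def hh (f : MvPolynomial σ K) (i l : ℕ)
    (w : Pt K ((σ ⊕ Bool) × Fin (d + 1))) : AlgebraicClosure K :=
  Fc f w (i + l) + ∑ m ∈ Finset.range (l + 1), Yc w (i + l - m) * Zc w m

/-- the part of `hh` without `v_l` -/
noncomputable def bb' (f : MvPolynomial σ K) (i l : ℕ)
    (w : Pt K ((σ ⊕ Bool) × Fin (d + 1))) : AlgebraicClosure K :=
  Fc f w (i + l) + ∑ m ∈ Finset.range l, Yc w (i + l - m) * Zc w m

theorem isPF_hh (f : MvPolynomial σ K) (i l : ℕ) :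
    IsPF (fun w : Pt K ((σ ⊕ Bool) × Fin (d + 1)) => hh f i l w) :=
  (isPF_Fc f _).add (IsPF.sum _ _ fun _ _ => (isPF_Yc _).mul (isPF_Zc _))

theorem isPF_bb (f : MvPolynomial σ K) (i l : ℕ) :
    IsPF (fun w : Pt K ((σ ⊕ Bool) × Fin (d + 1)) => bb' f i l w) :=
  (isPF_Fc f _).add (IsPF.sum _ _ fun _ _ => (isPF_Yc _).mul (isPF_Zc _))

theorem hh_eq (f : MvPolynomial σ K) (i l : ℕ) (w : Pt K ((σ ⊕ Bool) × Fin (d + 1))) :
    hh f i l w = Yc w i * Zc w l + bb' f i l w := by
  rw [hh, bb', Finset.sum_range_succ, Nat.add_sub_cancel]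
  ring

theorem coeff_small (f : MvPolynomial σ K) (i j : ℕ)
    (w : Pt K ((σ ⊕ Bool) × Fin (d + 1))) (hw : ∀ j < i, Yc w j = 0) (hz : Zc w 0 = 0)
    (hj : j < i + 1) : Gcc f w j = Fc f w j := by
  rw [Gcc, Fc, map_add, PowerSeries.coeff_mul, Finset.sum_eq_zero, add_zero]
  intro p hp
  have := Finset.HasAntidiagonal.mem_antidiagonal.1 hp
  rcases Nat.lt_or_ge p.1 i with h | h
  · have h2 : PowerSeries.coeff p.1 (ar w (Sum.inr false)) = 0 := hw p.1 h
    rw [h2, zero_mul]
  · have h3 : p.2 = 0 := by omega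
    have h2 : PowerSeries.coeff p.2 (ar w (Sum.inr true)) = 0 := by
      rw [h3]
      exact hz
    rw [h2, mul_zero]

theorem coeff_big (f : MvPolynomial σ K) (i l : ℕ)
    (w : Pt K ((σ ⊕ Bool) × Fin (d + 1))) (hw : ∀ j < i, Yc w j = 0) :
    Gcc f w (i + l) = hh f i l w := by
  rw [Gcc, mul_comm, map_add, PowerSeries.coeff_mul, hh,
    Finset.Nat.sum_antidiagonal_eq_sum_range_succ_mk]
  congr 1
  change ∑ m ∈ Finset.range (i + l + 1), Zc w m * Yc w (i + l - m) = _
  rw [show i + l + 1 = (l + 1) + i by ring, Finset.sum_range_add,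
    Finset.sum_eq_zero (s := Finset.range i), add_zero]
  · exact Finset.sum_congr rfl fun m _ => mul_comm _ _
  · intro m hm
    have hm' := Finset.mem_range.1 hm
    rw [hw _ (by omega), mul_zero]

/-- the jets with `ord u ≥ j`, `ord v ≥ 1`, `ord (f + u v) ≥ d` and coefficient `d` in `E` -/
def TE (f : MvPolynomial σ K) (W : Set (Pt K σ)) (E : Set (AlgebraicClosure K)) (d j : ℕ) :
    Set (Pt K ((σ ⊕ Bool) × Fin (d + 1))) :=
  {w | (fun i => w (Sum.inl i, 0)) ∈ W ∧ (∀ k < d, Gcc f w k = 0) ∧ Gcc f w d ∈ E ∧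
    (∀ k < j, Yc w k = 0) ∧ Zc w 0 = 0}

theorem constr_TE (f : MvPolynomial σ K) {W : Set (Pt K σ)} (hW : Constr W)
    {E : Set (AlgebraicClosure K)} (hE : CE E) (d j : ℕ) : Constr (TE f W E d j) := by
  unfold TE
  exact Constr.and (hW.preimage _ fun i => IsPF.coord _)
    (Constr.and (Constr.allLt _ fun k _ => Constr.eqz (isPF_Gcc f k))
      (Constr.and (hE _ (isPF_Gcc f d)) (Constr.and
        (Constr.allLt _ fun k _ => Constr.eqz (isPF_Yc k)) (Constr.eqz (isPF_Zc 0)))))

theorem constr_JetS (f : MvPolynomial σ K) {W : Set (Pt K σ)} (hW : Constr W)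
    {E : Set (AlgebraicClosure K)} (hE : CE E) (d : ℕ) : Constr (JetS f W E d) := by
  unfold JetS
  exact Constr.and (hW.preimage _ fun i => IsPF.coord _)
    (Constr.and (Constr.allLt _ fun k _ => Constr.eqz (pf_ck _ (fun i => IsPF.coord _) _ _))
      (hE _ (pf_ck _ (fun i => IsPF.coord _) _ _)))

/-! ### the last term -/

/-- the conditions of `TE f W E d d`, rewritten -/
def TF (f : MvPolynomial σ K) (W : Set (Pt K σ)) (E : Set (AlgebraicClosure K)) (d : ℕ) :
    Set (Pt K ((σ ⊕ Bool) × Fin (d + 1))) :=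
  {w | (fun i => w (Sum.inl i, 0)) ∈ W ∧ (∀ k < d, Fc f w k = 0) ∧ Fc f w d ∈ E ∧
    (∀ k < d, Yc w k = 0) ∧ Zc w 0 = 0}

theorem TE_end (f : MvPolynomial σ K) (W : Set (Pt K σ)) (E : Set (AlgebraicClosure K)) (d : ℕ) :
    TE f W E d d = TF f W E d := by
  ext w
  constructor
  · rintro ⟨h1, h2, h3, h4, h5⟩
    refine ⟨h1, fun k hk => ?_, ?_, h4, h5⟩
    · rw [← coeff_small f d k w h4 h5 (by omega)]
      exact h2 k hk
    · rw [← coeff_small f d d w h4 h5 (by omega)]
      exact h3
  · rintro ⟨h1, h2, h3, h4, h5⟩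
    refine ⟨h1, fun k hk => ?_, ?_, h4, h5⟩
    · rw [coeff_small f d k w h4 h5 (by omega)]
      exact h2 k hk
    · rw [coeff_small f d d w h4 h5 (by omega)]
      exact h3

theorem constr_TF (f : MvPolynomial σ K) {W : Set (Pt K σ)} (hW : Constr W)
    {E : Set (AlgebraicClosure K)} (hE : CE E) (d : ℕ) : Constr (TF f W E d) := by
  rw [← TE_end]
  exact constr_TE f hW hE d d

open Classical in
/-- the free coordinates: `u_k` for `k > i` and `v_k` for `k > q` -/
noncomputable def F1 (σ : Type) (d i q : ℕ) : Finset ((σ ⊕ Bool) × Fin (d + 1)) :=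
  ((Finset.univ.filter fun j : Fin (d + 1) => i < (j : ℕ)).image fun j => (Sum.inr false, j)) ∪
    ((Finset.univ.filter fun j : Fin (d + 1) => q < (j : ℕ)).image fun j => (Sum.inr true, j))

theorem mem_F1 (i q : ℕ) (p : (σ ⊕ Bool) × Fin (d + 1)) : p ∈ F1 σ d i q ↔
    (p.1 = Sum.inr false ∧ i < (p.2 : ℕ)) ∨ (p.1 = Sum.inr true ∧ q < (p.2 : ℕ)) := by
  classical
  simp only [F1, Finset.mem_union, Finset.mem_image, Finset.mem_filter, Finset.mem_univ,
    true_and]
  constructor
  · rintro (⟨j, hj, rfl⟩ | ⟨j, hj, rfl⟩)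
    · exact Or.inl ⟨rfl, hj⟩
    · exact Or.inr ⟨rfl, hj⟩
  · rintro (⟨h1, h2⟩ | ⟨h1, h2⟩)
    · exact Or.inl ⟨p.2, h2, Prod.ext h1.symm rfl⟩
    · exact Or.inr ⟨p.2, h2, Prod.ext h1.symm rfl⟩

theorem card_gt (N i : ℕ) :
    (Finset.univ.filter fun j : Fin (N + 1) => i < (j : ℕ)).card = N - i := by
  have h2 : (Finset.univ.filter fun j : Fin (N + 1) => i < (j : ℕ)).card =
      (Finset.Ioo i (N + 1)).card := by
    rw [← Finset.card_map Fin.valEmbedding]
    congr 1
    ext a
    simp only [Finset.mem_map, Finset.mem_filter, Finset.mem_univ, true_and,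
      Fin.valEmbedding_apply, Finset.mem_Ioo]
    constructor
    · rintro ⟨b, hb, rfl⟩
      exact ⟨hb, b.2⟩
    · rintro ⟨h1, h2⟩
      exact ⟨⟨a, h2⟩, h1, rfl⟩
  rw [h2, Nat.card_Ioo]
  omega

theorem card_F1 (i q : ℕ) : (F1 σ d i q).card = (d - i) + (d - q) := by
  classical
  rw [F1, Finset.card_union_of_disjoint, Finset.card_image_of_injective,
    Finset.card_image_of_injective, card_gt, card_gt]
  · intro a b h
    exact (Prod.ext_iff.1 h).2
  · intro a b h
    exact (Prod.ext_iff.1 h).2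
  · rw [Finset.disjoint_left]
    intro p hp hp'
    obtain ⟨a, _, rfl⟩ := Finset.mem_image.1 hp
    obtain ⟨b, _, h⟩ := Finset.mem_image.1 hp'
    have := (Prod.ext_iff.1 h).1
    simp at this

theorem chi_TF {R : Type} [CommRing R] (M : Meas K R) (f : MvPolynomial σ K)
    {W : Set (Pt K σ)} (hW : Constr W) {E : Set (AlgebraicClosure K)} (hE : CE E) (d : ℕ)
    (hd : 1 ≤ d) : M.χ _ (TF f W E d) = M.χ _ (JetS f W E d) * M.L ^ (d + 1) := by
  classical
  have h1 := Pool.Agent.W417.MT.Free.main M (TF f W E d) ∅ (F1 σ d (d - 1) 0) (fun _ => 0)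
    (Finset.disjoint_empty_left _) (constr_TF f hW hE d) ?_
  · have e0 : TF f W E d ∩ {z : Pt K ((σ ⊕ Bool) × Fin (d + 1)) | ∀ i ∈ (∅ : Finset _), z i ≠ 0} =
        TF f W E d := by
      ext z
      simp
    rw [e0, Finset.card_empty, pow_zero, mul_one, card_F1, Finset.empty_union,
      show d - (d - 1) + (d - 0) = d + 1 by omega] at h1
    rw [h1]
    congr 1
    refine chi_lift M (fun p : σ × Fin (d + 1) => ((Sum.inl p.1, p.2) : (σ ⊕ Bool) × Fin (d + 1)))
      ?_ _ _ ?_ (constr_JetS f hW hE d) ?_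
    · rintro ⟨a, j⟩ ⟨b, k⟩ h
      have h2 := Prod.ext_iff.1 h
      exact Prod.ext (Sum.inl_injective h2.1) h2.2
    · refine (constr_TF f hW hE d).inter ?_
      exact Constr.all fun p => Constr.imp' fun _ => by
        simp only [map_zero]
        exact Constr.eqz (IsPF.coord _)
    · intro z
      constructor
      · rintro ⟨⟨h2, h3, h4, h5, h6⟩, h7⟩
        refine ⟨?_, h2, h3, h4⟩
        rintro ⟨a, k⟩ hp
        rcases a with a | b
        · exact absurd rfl (hp (a, k))
        · cases b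
          · by_cases hk : (k : ℕ) < d
            · have := h5 k hk
              rwa [Yc_of_lt _ _ k.2] at this
            · rw [h7 _ ((mem_F1 _ _ _).2 (Or.inl ⟨rfl, by simp only; omega⟩)), map_zero]
          · by_cases hk : (k : ℕ) = 0
            · have h8 : k = ⟨0, by omega⟩ := Fin.ext hk
              rw [Zc_of_lt _ _ (by omega)] at h6
              rw [h8]
              exact h6
            · rw [h7 _ ((mem_F1 _ _ _).2 (Or.inr ⟨rfl, by simp only; omega⟩)), map_zero]
      · rintro ⟨h2, h3, h4, h5⟩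
        have hy : ∀ (b : Bool) (k : Fin (d + 1)), z (Sum.inr b, k) = 0 := by
          intro b k
          apply h2
          rintro ⟨a, j⟩ h
          have := (Prod.ext_iff.1 h).1
          simp at this
        refine ⟨⟨h3, h4, h5, fun k hk => ?_, ?_⟩, ?_⟩
        · rw [Yc_of_lt _ _ (by omega)]
          exact hy _ _
        · rw [Zc_of_lt _ _ (by omega)]
          exact hy _ _
        · rintro ⟨a, k⟩ hp
          rw [map_zero]
          rcases (mem_F1 _ _ _).1 hp with ⟨h6, _⟩ | ⟨h6, _⟩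
          · simp only at h6
            rw [h6]
            exact hy _ _
          · simp only at h6
            rw [h6]
            exact hy _ _
  · rintro z w h ⟨h2, h3, h4, h5, h6⟩
    have hx : ∀ a j, w (Sum.inl a, j) = z (Sum.inl a, j) := by
      intro a j
      refine h _ (Finset.notMem_empty _) ?_
      rw [mem_F1]
      rintro (⟨h', -⟩ | ⟨h', -⟩)
      · simp at h'
      · simp at h'
    refine ⟨?_, fun k hk => ?_, ?_, fun k hk => ?_, ?_⟩
    · simp only [hx]
      exact h2
    · rw [Fc_congr f w z hx]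
      exact h3 k hk
    · rw [Fc_congr f w z hx]
      exact h4
    · rw [← h5 k hk, Yc_of_lt _ _ (by omega), Yc_of_lt _ _ (by omega)]
      refine h _ (Finset.notMem_empty _) ?_
      rw [mem_F1]
      rintro (⟨-, h'⟩ | ⟨h', -⟩)
      · simp only at h'
        omega
      · simp at h'
    · rw [← h6, Zc_of_lt _ _ (by omega), Zc_of_lt _ _ (by omega)]
      refine h _ (Finset.notMem_empty _) ?_
      rw [mem_F1]
      rintro (⟨h', -⟩ | ⟨-, h'⟩)
      · simp at h'
      · simp at h'

/-! ### the layers -/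

/-- the conditions which do not involve `v_l`, `l ≥ 1` -/
def Base (f : MvPolynomial σ K) (W : Set (Pt K σ)) (i : ℕ) :
    Set (Pt K ((σ ⊕ Bool) × Fin (d + 1))) :=
  {w | (fun a => w (Sum.inl a, 0)) ∈ W ∧ (∀ j < i + 1, Fc f w j = 0) ∧
    (∀ j < i, Yc w j = 0) ∧ Yc w i ≠ 0 ∧ Zc w 0 = 0}

/-- the conditions on the last coefficients -/
def EE (E : Set (AlgebraicClosure K)) (q l : ℕ) : Set (AlgebraicClosure K) :=
  if l < q then {0} else E

theorem EE_lt (E : Set (AlgebraicClosure K)) (q l : ℕ) (h : l < q) : EE E q l = {0} :=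
  if_pos h

theorem EE_self (E : Set (AlgebraicClosure K)) (q : ℕ) : EE E q q = E :=
  if_neg (lt_irrefl q)

theorem ce_EE {E : Set (AlgebraicClosure K)} (hE : CE E) (q l : ℕ) : CE (EE E q l) := by
  unfold EE
  split_ifs
  · exact ce_zero
  · exact hE

/-- the intermediate sets -/
noncomputable def Stt (f : MvPolynomial σ K) (W : Set (Pt K σ))
    (E : Set (AlgebraicClosure K)) (i q t : ℕ) : Set (Pt K ((σ ⊕ Bool) × Fin (d + 1))) :=
  {w | w ∈ Base f W i ∧ ∀ l < q + 1, 1 ≤ l → (if l < t then hh f i l w else Zc w l) ∈ EE E q l}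

theorem constr_Base (f : MvPolynomial σ K) {W : Set (Pt K σ)} (hW : Constr W)
    (i : ℕ) : Constr (Base (d := d) f W i) := by
  unfold Base
  exact Constr.and (hW.preimage _ fun a => IsPF.coord _)
    (Constr.and (Constr.allLt _ fun j _ => Constr.eqz (isPF_Fc f j))
      (Constr.and (Constr.allLt _ fun j _ => Constr.eqz (isPF_Yc j))
        (Constr.and (Constr.eqz (isPF_Yc i)).not (Constr.eqz (isPF_Zc 0)))))

theorem constr_Stt (f : MvPolynomial σ K) {W : Set (Pt K σ)} (hW : Constr W)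
    {E : Set (AlgebraicClosure K)} (hE : CE E) (i q t : ℕ) :
    Constr (Stt (d := d) f W E i q t) := by
  unfold Stt
  refine Constr.and (constr_Base f hW i) (Constr.allLt _ fun l _ => Constr.imp' fun _ => ?_)
  split_ifs with h
  · exact ce_EE hE q l _ (isPF_hh f i l)
  · exact ce_EE hE q l _ (isPF_Zc l)

theorem Stt_top (f : MvPolynomial σ K) (W : Set (Pt K σ))
    (E : Set (AlgebraicClosure K)) (i q : ℕ) (hN : d = i + q) (hq : 1 ≤ q) :
    TE f W E d i ∩ {w | Yc w i ≠ 0} = Stt (d := d) f W E i q (q + 1) := by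
  ext w
  constructor
  · rintro ⟨⟨h1, h2, h3, h4, h5⟩, h6⟩
    refine ⟨⟨h1, ?_, h4, h6, h5⟩, ?_⟩
    · intro j hj
      rw [← coeff_small f i j w h4 h5 hj]
      exact h2 j (by omega)
    · intro l hl hl1
      rw [if_pos hl, ← coeff_big f i l w h4]
      by_cases hlq : l < q
      · rw [EE_lt _ _ _ hlq]
        exact h2 _ (by omega)
      · have : l = q := by omega
        subst this
        rw [EE_self, ← hN]
        exact h3
  · rintro ⟨⟨h1, h2, h3, h4, h6⟩, h5⟩
    refine ⟨⟨h1, ?_, ?_, h3, h6⟩, h4⟩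
    · intro j hj
      by_cases hji : j < i + 1
      · rw [coeff_small f i j w h3 h6 hji]
        exact h2 j hji
      · obtain ⟨l, rfl⟩ := Nat.exists_eq_add_of_le (show i ≤ j by omega)
        rw [coeff_big f i l w h3]
        have := h5 l (by omega) (by omega)
        rwa [if_pos (by omega), EE_lt _ _ _ (by omega)] at this
    · have := h5 q (by omega) hq
      rw [if_pos (by omega), EE_self, ← coeff_big f i q w h3, ← hN] at this
      exact this

/-! ### changing one coordinate -/

section upd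

variable [DecidableEq ((σ ⊕ Bool) × Fin (d + 1))]
  (w : Pt K ((σ ⊕ Bool) × Fin (d + 1))) (t : Fin (d + 1)) (c : AlgebraicClosure K)

theorem Yc_upd (j : ℕ) : Yc (Function.update w (Sum.inr true, t) c) j = Yc w j := by
  unfold Yc
  rw [ar_congr _ w]
  intro j
  rw [Function.update_of_ne]
  intro h
  have := (Prod.ext_iff.1 h).1
  simp at this

theorem Fc_upd (f : MvPolynomial σ K) (j : ℕ) :
    Fc f (Function.update w (Sum.inr true, t) c) j = Fc f w j := by
  apply Fc_congr
  intro a j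
  rw [Function.update_of_ne]
  intro h
  have := (Prod.ext_iff.1 h).1
  simp at this

theorem Zc_upd (j : ℕ) (hj : j ≠ t) :
    Zc (Function.update w (Sum.inr true, t) c) j = Zc w j := by
  by_cases h : j < d + 1
  · rw [Zc_of_lt _ _ h, Zc_of_lt _ _ h, Function.update_of_ne]
    intro h'
    exact hj (congrArg Fin.val (Prod.ext_iff.1 h').2)
  · rw [Zc, Zc, coeff_ar, coeff_ar, dif_neg h, dif_neg h]

theorem Zc_upd_self : Zc (Function.update w (Sum.inr true, t) c) t = c := by
  rw [Zc_of_lt _ _ t.2, Function.update_self]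

theorem hh_upd (f : MvPolynomial σ K) (i l : ℕ) (hl : l < t) :
    hh f i l (Function.update w (Sum.inr true, t) c) = hh f i l w := by
  unfold hh
  rw [Fc_upd]
  congr 1
  refine Finset.sum_congr rfl fun m hm => ?_
  have := Finset.mem_range.1 hm
  rw [Yc_upd, Zc_upd _ _ _ _ (by omega)]

theorem bb_upd (f : MvPolynomial σ K) (i l : ℕ) (hl : l ≤ t) :
    bb' f i l (Function.update w (Sum.inr true, t) c) = bb' f i l w := by
  unfold bb'
  rw [Fc_upd]
  congr 1
  refine Finset.sum_congr rfl fun m hm => ?_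
  have := Finset.mem_range.1 hm
  rw [Yc_upd, Zc_upd _ _ _ _ (by omega)]

theorem Base_upd (f : MvPolynomial σ K) (W : Set (Pt K σ)) (i : ℕ) (ht : 1 ≤ (t : ℕ)) :
    Function.update w (Sum.inr true, t) c ∈ Base f W i ↔ w ∈ Base f W i := by
  unfold Base
  simp only [Set.mem_ofPred_eq, Fc_upd, Yc_upd, Zc_upd w t c 0 (by omega)]
  have : (fun a => Function.update w (Sum.inr true, t) c (Sum.inl a, 0)) =
      fun a => w (Sum.inl a, 0) := by
    funext a
    rw [Function.update_of_ne]
    intro h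
    have := (Prod.ext_iff.1 h).1
    simp at this
  rw [this]

end upd

theorem Stt_step {R : Type} [CommRing R] (M : Meas K R) (f : MvPolynomial σ K)
    {W : Set (Pt K σ)} (hW : Constr W) {E : Set (AlgebraicClosure K)} (hE : CE E)
    (i q t : ℕ) (hN : d = i + q) (ht1 : 1 ≤ t) (ht : t ≤ q) :
    M.χ _ (Stt (d := d) f W E i q (t + 1)) = M.χ _ (Stt (d := d) f W E i q t) := by
  classical
  have htN : t < d + 1 := by omega
  refine Pool.Agent.W21.MTSub.main M _ _ (Sum.inr true, (⟨t, htN⟩ : Fin (d + 1)))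
    (fun w => Yc w i) (fun w => bb' f i t w) (constr_Stt f hW hE i q (t + 1))
    (constr_Stt f hW hE i q t) (isPF_Yc i) (isPF_bb f i t) (fun z w => Yc_upd _ _ _ _)
    (fun z w => bb_upd _ _ _ _ _ _ le_rfl) (fun z hz => hz.1.2.2.2.1) (fun z hz => hz.1.2.2.2.1) ?_
  intro w _
  have hZ : w (Sum.inr true, (⟨t, htN⟩ : Fin (d + 1))) = Zc w t := (Zc_of_lt w t htN).symm
  rw [hZ, ← hh_eq]
  unfold Stt
  simp only [Set.mem_ofPred_eq]
  rw [Base_upd w ⟨t, htN⟩ _ f W i ht1]
  refine and_congr_right fun _ => forall₂_congr fun l _ => imp_congr_right fun _ => ?_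
  rcases lt_trichotomy l t with h | h | h
  · rw [if_pos (by omega), if_pos h, hh_upd _ _ _ _ _ _ h]
  · subst h
    rw [if_pos (by omega), if_neg (lt_irrefl _)]
    have := Zc_upd_self w ⟨l, htN⟩ (hh f i l w)
    simp only at this
    rw [this]
  · rw [if_neg (by omega), if_neg (by omega), Zc_upd _ _ _ _ (by simp only; omega)]

theorem Stt_all {R : Type} [CommRing R] (M : Meas K R) (f : MvPolynomial σ K)
    {W : Set (Pt K σ)} (hW : Constr W) {E : Set (AlgebraicClosure K)} (hE : CE E)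
    (i q : ℕ) (hN : d = i + q) :
    ∀ t ≤ q, M.χ _ (Stt (d := d) f W E i q (t + 1)) = M.χ _ (Stt (d := d) f W E i q 1) := by
  intro t
  induction t with
  | zero => intro _; rfl
  | succ t ih => intro ht; rw [Stt_step M f hW hE i q (t + 1) hN (by omega) ht, ih (by omega)]

/-- the conditions without `u_i ≠ 0` -/
def Sf (f : MvPolynomial σ K) (W : Set (Pt K σ))
    (E : Set (AlgebraicClosure K)) (i q : ℕ) : Set (Pt K ((σ ⊕ Bool) × Fin (d + 1))) :=
  {w | (fun a => w (Sum.inl a, 0)) ∈ W ∧ (∀ j < i + 1, Fc f w j = 0) ∧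
    (∀ j < i, Yc w j = 0) ∧ Zc w 0 = 0 ∧ ∀ l < q + 1, 1 ≤ l → Zc w l ∈ EE E q l}

theorem constr_Sf (f : MvPolynomial σ K) {W : Set (Pt K σ)} (hW : Constr W)
    {E : Set (AlgebraicClosure K)} (hE : CE E) (i q : ℕ) :
    Constr (Sf (d := d) f W E i q) := by
  unfold Sf
  exact Constr.and (hW.preimage _ fun a => IsPF.coord _)
    (Constr.and (Constr.allLt _ fun j _ => Constr.eqz (isPF_Fc f j))
      (Constr.and (Constr.allLt _ fun j _ => Constr.eqz (isPF_Yc j))
        (Constr.and (Constr.eqz (isPF_Zc 0))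
          (Constr.allLt _ fun l _ => Constr.imp' fun _ => ce_EE hE q l _ (isPF_Zc l)))))

theorem Sf_free (f : MvPolynomial σ K) (W : Set (Pt K σ))
    (E : Set (AlgebraicClosure K)) (i q : ℕ) (hN : d = i + q) (hq : 1 ≤ q)
    (z w : Pt K ((σ ⊕ Bool) × Fin (d + 1)))
    (h : ∀ p, p ∉ ({(Sum.inr false, ⟨i, by omega⟩)} : Finset ((σ ⊕ Bool) × Fin (d + 1))) →
      p ∉ F1 σ d i q → w p = z p) (hz : z ∈ Sf f W E i q) : w ∈ Sf f W E i q := by
  obtain ⟨h1, h2, h3, h5, h4⟩ := hz
  have hx : ∀ a j, w (Sum.inl a, j) = z (Sum.inl a, j) := by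
    intro a j
    apply h
    · rw [Finset.mem_singleton]
      intro h'
      have := (Prod.ext_iff.1 h').1
      simp at this
    · rw [mem_F1]
      rintro (⟨h', -⟩ | ⟨h', -⟩)
      · simp at h'
      · simp at h'
  have hZ : ∀ l < q + 1, Zc w l = Zc z l := by
    intro l hl
    rw [Zc_of_lt _ _ (by omega), Zc_of_lt _ _ (by omega)]
    apply h
    · rw [Finset.mem_singleton]
      intro h'
      have := (Prod.ext_iff.1 h').1
      simp at this
    · rw [mem_F1]
      rintro (⟨h', -⟩ | ⟨-, h'⟩)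
      · simp at h'
      · simp only at h'
        omega
  refine ⟨?_, ?_, ?_, ?_, ?_⟩
  · simp only [hx]
    exact h1
  · intro j hj
    rw [Fc_congr f w z hx]
    exact h2 j hj
  · intro j hj
    have := h3 j hj
    rw [Yc_of_lt _ _ (by omega)] at this ⊢
    rw [h _ ?_ ?_, this]
    · rw [Finset.mem_singleton]
      intro h'
      have := congrArg Fin.val (Prod.ext_iff.1 h').2
      simp only at this
      omega
    · rw [mem_F1]
      rintro (⟨-, h'⟩ | ⟨h', -⟩)
      · simp only at h'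
        omega
      · simp at h'
  · rw [hZ 0 (by omega)]
    exact h5
  · intro l hl hl1
    rw [hZ l hl]
    exact h4 l hl hl1

theorem chi_Stt {R : Type} [CommRing R] (M : Meas K R) (f : MvPolynomial σ K)
    {W : Set (Pt K σ)} (hW : Constr W) {E : Set (AlgebraicClosure K)} (hE : CE E)
    (i q : ℕ) (hN : d = i + q) (hq : 1 ≤ q) :
    M.χ _ (Stt (d := d) f W E i q 1) =
      M.χ _ (AJ f W d (i + 1)) * M.χ (Fin 1) {a | a 0 ∈ E} * (M.L - 1) * M.L ^ d := by
  classical
  have hi1 : i < d + 1 := by omega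
  have hq1 : q < d + 1 := by omega
  set F0 : Finset ((σ ⊕ Bool) × Fin (d + 1)) := {(Sum.inr false, ⟨i, hi1⟩)} with hF0
  have e1 : Stt (d := d) f W E i q 1 = Sf f W E i q ∩ {z | ∀ p ∈ F0, z p ≠ 0} := by
    ext w
    simp only [hF0, Set.mem_inter_iff, Finset.mem_singleton, forall_eq, Set.mem_ofPred_eq]
    constructor
    · rintro ⟨⟨h1, h2, h3, h4, h5⟩, h6⟩
      refine ⟨⟨h1, h2, h3, h5, fun l hl hl1 => ?_⟩, ?_⟩
      · have := h6 l hl hl1
        rwa [if_neg (by omega)] at this
      · rw [← Yc_of_lt w i hi1]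
        exact h4
    · rintro ⟨⟨h1, h2, h3, h5, h6⟩, h4⟩
      rw [← Yc_of_lt w i hi1] at h4
      refine ⟨⟨h1, h2, h3, h4, h5⟩, fun l hl hl1 => ?_⟩
      rw [if_neg (by omega)]
      exact h6 l hl hl1
  have hd : Disjoint F0 (F1 σ d i q) := by
    rw [Finset.disjoint_left]
    intro p hp hp'
    rw [hF0, Finset.mem_singleton] at hp
    rw [mem_F1, hp] at hp'
    rcases hp' with ⟨-, h'⟩ | ⟨h', -⟩
    · simp only at h'
      omega
    · simp at h'
  rw [e1, Pool.Agent.W417.MT.Free.main M (Sf f W E i q) F0 (F1 σ d i q) (fun _ => 0) hd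
    (constr_Sf f hW hE i q) (fun z w => Sf_free f W E i q hN hq z w), card_F1,
    show d - i + (d - q) = d by omega, hF0, Finset.card_singleton, pow_one, ← hF0]
  congr 2
  have hCE : Constr ({a | a 0 ∈ E} : Set (Pt K (Fin 1))) := hE (fun a => a 0) (IsPF.coord _)
  rw [← M.prod (AJ f W d (i + 1)) {a | a 0 ∈ E} (constr_AJ f hW d (i + 1)) hCE]
  refine chi_lift M (Sum.elim
    (fun p : σ × Fin (d + 1) => ((Sum.inl p.1, p.2) : (σ ⊕ Bool) × Fin (d + 1)))
    (fun _ : Fin 1 => (Sum.inr true, ⟨q, hq1⟩))) ?_ _ _ ?_ ?_ ?_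
  · rintro (⟨a, j⟩ | a) (⟨b, k⟩ | b) h
    · simp only [Sum.elim_inl] at h
      have h2 := Prod.ext_iff.1 h
      exact congrArg Sum.inl (Prod.ext (Sum.inl_injective h2.1) h2.2)
    · simp only [Sum.elim_inl, Sum.elim_inr] at h
      have := (Prod.ext_iff.1 h).1
      simp at this
    · simp only [Sum.elim_inl, Sum.elim_inr] at h
      have := (Prod.ext_iff.1 h).1
      simp at this
    · exact congrArg Sum.inr (Subsingleton.elim _ _)
  · refine (constr_Sf f hW hE i q).inter ?_
    exact Constr.all fun p => Constr.imp' fun _ => by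
      simp only [map_zero]
      exact Constr.eqz (IsPF.coord _)
  · exact Constr.and ((constr_AJ f hW d (i + 1)).preimage _ fun i => IsPF.coord _)
      (hCE.preimage _ fun i => IsPF.coord _)
  · intro z
    constructor
    · rintro ⟨⟨h2, h3, h4, h5, h6⟩, h7⟩
      refine ⟨?_, ⟨h2, h3⟩, ?_⟩
      · rintro ⟨a, k⟩ hp
        rcases a with a | b
        · exact absurd rfl (hp (Sum.inl (a, k)))
        · cases b
          · rcases lt_trichotomy (k : ℕ) i with h | h | h
            · have := h4 k h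
              rwa [Yc_of_lt _ _ k.2] at this
            · rw [h7 _ (Finset.mem_union_left _ (by
                rw [hF0, Finset.mem_singleton]
                exact Prod.ext rfl (Fin.ext h))), map_zero]
            · rw [h7 _ (Finset.mem_union_right _ ((mem_F1 _ _ _).2 (Or.inl ⟨rfl, h⟩))), map_zero]
          · rcases lt_trichotomy (k : ℕ) q with h | h | h
            · rcases Nat.eq_zero_or_pos (k : ℕ) with h0 | h0
              · have h8 : k = ⟨0, by omega⟩ := Fin.ext h0
                rw [Zc_of_lt _ _ (by omega)] at h5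
                rw [h8]
                exact h5
              · have := h6 k (by omega) h0
                rw [Zc_of_lt _ _ k.2, EE_lt _ _ _ h] at this
                exact this
            · refine absurd ?_ (hp (Sum.inr 0))
              exact Prod.ext rfl (Fin.ext h.symm)
            · rw [h7 _ (Finset.mem_union_right _ ((mem_F1 _ _ _).2 (Or.inr ⟨rfl, h⟩))), map_zero]
      · have := h6 q (by omega) hq
        rw [Zc_of_lt _ _ hq1, EE_self] at this
        exact this
    · rintro ⟨h2, ⟨h3, h4⟩, h5⟩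
      have hy : ∀ (k : Fin (d + 1)), z (Sum.inr false, k) = 0 := by
        intro k
        apply h2
        rintro (⟨a, j⟩ | a) h
        · have := (Prod.ext_iff.1 h).1
          simp at this
        · have := (Prod.ext_iff.1 h).1
          simp at this
      have hz : ∀ (k : Fin (d + 1)), (k : ℕ) ≠ q → z (Sum.inr true, k) = 0 := by
        intro k hk
        apply h2
        rintro (⟨a, j⟩ | a) h
        · have := (Prod.ext_iff.1 h).1
          simp at this
        · have := congrArg Fin.val (Prod.ext_iff.1 h).2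
          simp only [Sum.elim_inr] at this
          omega
      refine ⟨⟨h3, h4, fun k hk => ?_, ?_, fun l hl hl1 => ?_⟩, ?_⟩
      · rw [Yc_of_lt _ _ (by omega)]
        exact hy _
      · rw [Zc_of_lt _ _ (by omega)]
        exact hz _ (by simp only; omega)
      · rw [Zc_of_lt _ _ (by omega)]
        by_cases hlq : l = q
        · subst hlq
          rw [EE_self]
          exact h5
        · rw [EE_lt _ _ _ (by omega)]
          exact hz _ hlq
      · intro p hp
        rw [map_zero]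
        rcases Finset.mem_union.1 hp with hp | hp
        · rw [hF0, Finset.mem_singleton] at hp
          rw [hp]
          exact hy _
        · obtain ⟨a, k⟩ := p
          rcases (mem_F1 i q _).1 hp with ⟨h', h''⟩ | ⟨h', h''⟩
          · simp only at h'
            rw [h']
            exact hy _
          · simp only at h' h''
            rw [h']
            exact hz _ (by omega)

theorem layer {R : Type} [CommRing R] (M : Meas K R) (f : MvPolynomial σ K)
    {W : Set (Pt K σ)} (hW : Constr W) {E : Set (AlgebraicClosure K)} (hE : CE E)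
    (i : ℕ) (hi : i < d) : M.χ _ (TE f W E d i) = M.χ _ (TE f W E d (i + 1)) +
      M.χ _ (AJ f W d (i + 1)) * M.χ (Fin 1) {a | a 0 ∈ E} * (M.L - 1) * M.L ^ d := by
  obtain ⟨q, hq⟩ := Nat.exists_eq_add_of_le hi.le
  have hq1 : 1 ≤ q := by omega
  rw [← chi_Stt M f hW hE i q hq hq1, ← Stt_all M f hW hE i q hq q le_rfl,
    ← Stt_top f W E i q hq hq1]
  have hc : Constr {w : Pt K ((σ ⊕ Bool) × Fin (d + 1)) | Yc w i ≠ 0} :=
    (Constr.eqz (isPF_Yc i)).not
  rw [← M.add _ _ (constr_TE f hW hE d (i + 1)) ((constr_TE f hW hE d i).inter hc)]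
  · congr 1
    ext w
    constructor
    · intro h
      by_cases h1 : Yc w i = 0
      · left
        obtain ⟨h2, h3, h4, h5, h6⟩ := h
        refine ⟨h2, h3, h4, fun k hk => ?_, h6⟩
        rcases Nat.lt_succ_iff_lt_or_eq.1 hk with h7 | rfl
        · exact h5 k h7
        · exact h1
      · right
        exact ⟨h, h1⟩
    · rintro (h | h)
      · obtain ⟨h2, h3, h4, h5, h6⟩ := h
        exact ⟨h2, h3, h4, fun k hk => h5 k (by omega), h6⟩
      · exact h.1
  · rw [Set.disjoint_left]
    rintro w ⟨_, _, _, h5, _⟩ ⟨_, h1⟩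
    exact h1 (h5 i (by omega))

theorem total {R : Type} [CommRing R] (M : Meas K R) (f : MvPolynomial σ K)
    {W : Set (Pt K σ)} (hW : Constr W) {E : Set (AlgebraicClosure K)} (hE : CE E)
    (hd : 1 ≤ d) : M.χ _ (TE f W E d 1) = M.χ _ (JetS f W E d) * M.L ^ (d + 1) +
      M.χ (Fin 1) {a | a 0 ∈ E} * (M.L - 1) * M.L ^ d *
        ∑ m ∈ Finset.Ico 2 (d + 1), M.χ _ (AJ f W d m) := by
  have key : ∀ n, 1 ≤ n → n ≤ d → M.χ _ (TE f W E d 1) = M.χ _ (TE f W E d n) +
      M.χ (Fin 1) {a | a 0 ∈ E} * (M.L - 1) * M.L ^ d *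
        ∑ m ∈ Finset.Ico 2 (n + 1), M.χ _ (AJ f W d m) := by
    intro n hn
    induction n, hn using Nat.le_induction with
    | base =>
      intro _
      rw [Finset.Ico_self, Finset.sum_empty, mul_zero, add_zero]
    | succ n hn ih =>
      intro hnd
      rw [ih (by omega), layer M f hW hE n (by omega),
        Finset.sum_Ico_succ_top (by omega : 2 ≤ n + 1)]
      ring
  rw [key d hd le_rfl, TE_end, chi_TF M f hW hE d hd]

end ChiL

open MvPolynomial Pool.Agent.W428.MOT Pool.Agent.TH192.MT Pool.Agent.Helper33K9.HP ChiL in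
theorem chi : S_CHI := by
  intro R _ M σ _ f E hf hE d hd
  have hW : Constr ({0} : Set (Pt ℂ σ)) := by
    have h1 : ({0} : Set (Pt ℂ σ)) = {w | ∀ i, w i = 0} := by
      ext w
      simp only [Set.mem_singleton_iff, Set.mem_ofPred_eq]
      constructor
      · intro h i
        rw [h]
        rfl
      · intro h
        funext i
        exact h i
    rw [h1]
    exact Constr.all fun i => Constr.eqz (IsPF.coord _)
  rw [← total M f hW hE hd]
  congr 1
  ext w
  simp only [JetS, TE, Set.mem_ofPred_eq, aeval_hyp, Gcc]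
  have h1 : ((fun i => w (i, 0)) ∈ ({0} : Set (Pt ℂ (σ ⊕ Bool)))) ↔
      ((fun i => w (Sum.inl i, 0)) ∈ ({0} : Set (Pt ℂ σ)) ∧ (∀ k < 1, Yc w k = 0) ∧ Zc w 0 = 0) := by
    simp only [Set.mem_singleton_iff, _root_.funext_iff, Pi.zero_apply]
    constructor
    · intro h
      refine ⟨fun a => h (Sum.inl a), fun k hk => ?_, ?_⟩
      · obtain rfl : k = 0 := by omega
        rw [Yc_of_lt _ _ (by omega)]
        exact h (Sum.inr false)
      · rw [Zc_of_lt _ _ (by omega)]
        exact h (Sum.inr true)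
    · rintro ⟨h2, h3, h4⟩ (a | b)
      · exact h2 a
      · cases b
        · have := h3 0 (by omega)
          rwa [Yc_of_lt _ _ (by omega)] at this
        · rwa [Zc_of_lt _ _ (by omega)] at h4
  rw [h1]
  tauto

end Pool.Agent.Helper33K9.RS
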