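import Pool.Agent.Helper33K9.RS.St
import Pool.Agent.Helper33K9.FQ.Iso

set_option autoImplicit false
set_option linter.dupNamespace false
set_option linter.unusedSectionVars false

/-! # Translations -/

namespace Pool.Agent.Helper33K9.RS

open MvPolynomial Pool.Agent.H628R4.TP Pool.Agent.W428.MOT Pool.Agent.TH192.MT
  Pool.Agent.Helper33K9.HP Pool.Agent.Helper33K9.FQ Pool.Agent.Helper33K9.RO
  Pool.Agent.Helper33K9.FQ.IsoL

open Pool.Agent.W375.MG (Good)

section

variable {K : Type} [Field K] {σ τ : Type} [Fintype σ] [Fintype τ]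

theorem chi_isoE {R : Type} [CommRing R] (M : Meas K R)
    (Φ : MvPolynomial σ K ≃ₐ[K] MvPolynomial τ K) (f : MvPolynomial σ K) {W : Set (Pt K σ)}
    (hW : Constr W) {E : Set (AlgebraicClosure K)}
    (hE : ∀ {ι : Type} (F : Pt K ι → AlgebraicClosure K), IsPF F → Constr {z | F z ∈ E}) (d : ℕ) :
    M.χ _ (JetS (Φ f) (WT (Φ : MvPolynomial σ K →ₐ[K] MvPolynomial τ K) W) E d) =
      M.χ _ (JetS f W E d) := by
  have hc : ∀ {ι : Type} [Fintype ι] (g : MvPolynomial ι K) {W : Set (Pt K ι)}, Constr W →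
      Constr (JetS g W E d) := by
    intro ι _ g W hW
    refine Constr.and (hW.preimage _ fun i => IsPF.coord _) (Constr.and ?_ ?_)
    · exact Constr.allLt _ fun k _ => Constr.eqz (pf_ck _ (fun i => IsPF.coord _) _ _)
    · exact hE _ (pf_ck _ (fun i => IsPF.coord _) _ _)
  have hWT : Constr (WT (Φ : MvPolynomial σ K →ₐ[K] MvPolynomial τ K) W) :=
    hW.preimage _ fun i => IsPF.poly _
  refine M.iso _ _ (hc _ hWT) (hc _ hW) (jT (Φ : MvPolynomial σ K →ₐ[K] MvPolynomial τ K))
    (jT (Φ.symm : MvPolynomial τ K →ₐ[K] MvPolynomial σ K)) (regularOn_poly (pf_jT _) _)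
    (regularOn_poly (pf_jT _) _) ?_ ?_ ?_ ?_
  · intro z hz
    exact (mem_jT _ _ _ _ _ _).2 hz
  · intro w hw
    refine (mem_jT (Φ : MvPolynomial σ K →ₐ[K] MvPolynomial τ K) f W _ d _).1 ?_
    have h1 := jT_jT Φ.symm w
    rw [AlgEquiv.symm_symm] at h1
    rw [h1]
    exact hw
  · intro z _
    exact jT_jT Φ z
  · intro w _
    have h1 := jT_jT Φ.symm w
    rw [AlgEquiv.symm_symm] at h1
    exact h1

theorem zetaM_isoE [CharZero K] (Φ : MvPolynomial σ K ≃ₐ[K] MvPolynomial τ K)
    (hcard : Fintype.card σ = Fintype.card τ) (f : MvPolynomial σ K) {W : Set (Pt K σ)}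
    (hW : Constr W) {E : Set (AlgebraicClosure K)}
    (hE : ∀ {ι : Type} (F : Pt K ι → AlgebraicClosure K), IsPF F → Constr {z | F z ∈ E}) :
    zetaM (Φ f) (WT (Φ : MvPolynomial σ K →ₐ[K] MvPolynomial τ K) W) E = zetaM f W E := by
  obtain ⟨M, -, hM⟩ := exists_meas K
  unfold zetaM
  congr 1
  funext d
  rw [← hM, ← hM, chi_isoE M Φ f hW hE, hcard]

end

variable {Ω : Type} [Fintype Ω]

/-- the point `p` -/
noncomputable def pt (p : Ω → ℂ) : Pt ℂ Ω := fun i => algebraMap ℂ (AlgebraicClosure ℂ) (p i)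

theorem zetaM_trn (p : Ω → ℂ) (f : MvPolynomial Ω ℂ) {E : Set (AlgebraicClosure ℂ)}
    (hE : Good E) : zetaM f {pt p} E = zetaM (trn p f) {0} E := by
  have hW : Constr ({pt p} : Set (Pt ℂ Ω)) := constr_point (K := ℂ) p
  have h1 := zetaM_isoE (trnE p) rfl f hW hE.constr
  have h2 : WT (trnE p : MvPolynomial Ω ℂ →ₐ[ℂ] MvPolynomial Ω ℂ) {pt p} = {0} := by
    ext w
    simp only [WT, Set.mem_ofPred_eq, Set.mem_singleton_iff]
    have h3 : (fun i => aeval w ((trnE p : MvPolynomial Ω ℂ →ₐ[ℂ] MvPolynomial Ω ℂ) (X i))) =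
        fun i => w i + pt p i := by
      funext i
      change aeval w (trn p (X i)) = _
      unfold trn
      rw [aeval_X, map_add, aeval_X, aeval_C]
      rfl
    rw [h3]
    constructor
    · intro h
      funext i
      have := congrFun h i
      simpa using this
    · rintro rfl
      funext i
      simp
  rw [h2] at h1
  exact h1.symm

theorem zetaX_eq (p : Ω → ℂ) (f : MvPolynomial Ω ℂ) (h0 : eval p f = 0) :
    zetaX f p = zetaM f {pt p} {1} := by
  obtain ⟨M, -, hM⟩ := exists_meas ℂ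
  unfold zetaX zetaM
  congr 1
  funext d
  split_ifs with hd
  · subst hd
    have h1 : JetS f {pt p} ({1} : Set (AlgebraicClosure ℂ)) 0 = ∅ := by
      ext z
      simp only [JetS, Set.mem_ofPred_eq, Set.mem_singleton_iff, Set.mem_empty_iff_false,
        iff_false, not_and]
      intro h2 _ h3
      rw [coeff_zero_aevalK] at h3
      have h4 : (fun i => PowerSeries.coeff 0 (ar z i)) = pt p := by
        rw [← h2]
        funext i
        rw [coeff_ar_zero]
      rw [h4] at h3
      have h5 : aeval (pt p) f = algebraMap ℂ (AlgebraicClosure ℂ) (eval p f) := by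
        change aeval (algebraMap ℂ (AlgebraicClosure ℂ) ∘ p) f = _
        rw [aeval_algebraMap_apply]
        rfl
      rw [h5, h0, map_zero] at h3
      exact zero_ne_one h3
    rw [← hM, h1, Pool.Agent.W749.MT.χ_empty, zero_mul]
  · rfl

/-- the global functional equation gives the local ones -/
theorem local_of_global {f : MvPolynomial Ω ℂ} (hf : f ≠ 0) (p : Ω → ℂ) {b : Polynomial ℂ}
    (hb : IsBFunction f b) : IsLocalBFunction (trn p f) b := by
  rw [local_UB (trn_ne_zero hf p)]
  refine ⟨1, by rw [map_one]; exact one_ne_zero, ?_⟩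
  have h1 : UB 1 f b := (isB_UB f b).1 hb
  have h2 := h1.iso (trnE p)
  rw [map_one] at h2
  exact h2

end Pool.Agent.Helper33K9.RS
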