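import Pool.Agent.Helper33K9.RS.M
import Pool.Agent.Helper33K9.RS.Trx

set_option autoImplicit false
set_option linter.dupNamespace false
set_option linter.unusedSectionVars false

/-! # The strong form: stably sparse germs, points -/

namespace Pool.Agent.Helper33K9.RS

open MvPolynomial Pool.Agent.H628R4.TP Pool.Agent.W428.MOT Pool.Agent.TH192.MT
  Pool.Agent.Helper33K9.HP Pool.Agent.Helper33K9.FQ Pool.Agent.Helper33K9.RO

open Pool.Agent.W375.MG (Good good_one)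

/-- **Stably sparse germs.** -/
theorem stab_sg (σ : Type) [Fintype σ] (g : MvPolynomial σ ℂ) (r : ℕ)
    (R : MvPolynomial (σ ⊕ Fin r) ℂ)
    (l : Fin r → MvPolynomial (σ ⊕ Fin r) ℂ) (u : MvPowerSeries σ ℂ)
    (y : σ → MvPowerSeries σ ℂ) (w : Fin r → MvPowerSeries σ ℂ) (hg : g ≠ 0)
    (hg0 : constantCoeff g = 0) (hu : MvPowerSeries.constantCoeff u ≠ 0) (hy : Coords y)
    (hw : ∀ j, MvPowerSeries.constantCoeff (w j) = 0)
    (hl : ∀ i, aeval (Sum.elim MvPowerSeries.X w) (l i) = 0)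
    (hJ : IsUnit (Matrix.of fun i j =>
      MvPolynomial.coeff (Finsupp.single (Sum.inr j) 1) (l i)).det)
    (hR1 : ∀ j, MvPolynomial.coeff (Finsupp.single (Sum.inr j) 1) R = 0)
    (hgR : u * aeval y g = aeval (Sum.elim MvPowerSeries.X w) R)
    (hind : AffineIndependent ℚ (fun (m : (stabL R l).support) (v : (σ ⊕ Fin r) ⊕ Fin r) =>
      ((m : (σ ⊕ Fin r) ⊕ Fin r →₀ ℕ) v : ℚ))) : Sg g :=
  SM.sg hg hg0 (stabQ σ g r R l u y w hg hg0 hu hy hw hl hJ hR1 hgR
    fun h1 h2 => sprT _ _ hind h1 h2)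

variable {Ω : Type} [Fintype Ω]

/-- The strong motivic monodromy conjecture for `f` at the point `p`: there is a finite set `S` of
pairs `(a, b)` of integers, `b > 0`, such that `a / b` is a root of every polynomial `b(s)` with
`b(s) f ^ s = P(s) f ^ (s + 1)` at `p`, where the coefficients of the differential operators in `P(s)` are
formal power series at `p` (so `a / b` is a root of the local Bernstein-Sato polynomial of `f` at `p`,
in particular of the Bernstein-Sato polynomial of `f`), and the local motivic zeta function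
`Z_{f,p}(T) = ∑_{m ≥ 1} [X_{m,1,p}] 𝕃 ^ (-m n) T ^ m` (`zetaX f p`) is in the ring generated over `𝓜_ℂ` by `T`
and the `1 / (1 - 𝕃 ^ a T ^ b)`, `(a, b) ∈ S`. The same for the zeta functions of the jets with angular
component in a constructible set `E` of nonzero numbers, with the same `S`. -/
def StrongAt (f : MvPolynomial Ω ℂ) (p : Ω → ℂ) : Prop :=
  ∃ S : Finset (ℤ × ℤ), (∀ q ∈ S, 0 < q.2 ∧
      (∀ b : Polynomial ℂ, IsLocalBFunction (trn p f) b → b.eval ((q.1 : ℂ) / q.2) = 0) ∧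
      ∀ b : Polynomial ℂ, IsBFunction f b → b.eval ((q.1 : ℂ) / q.2) = 0) ∧
    zetaX f p ∈ ratRing ℂ (S : Set (ℤ × ℤ)) ∧
    ∀ E : Set (AlgebraicClosure ℂ), Good E → zetaM f {pt p} E ∈ ratRing ℂ (S : Set (ℤ × ℤ))

theorem strongAt_of_sg {f : MvPolynomial Ω ℂ} (hf : f ≠ 0) {p : Ω → ℂ} (hp : eval p f = 0)
    (h : Sg (trn p f)) : StrongAt f p := by
  obtain ⟨S, hS, hz⟩ := h
  have h1 : ∀ E : Set (AlgebraicClosure ℂ), Good E →
      zetaM f {pt p} E ∈ ratRing ℂ (S : Set (ℤ × ℤ)) := fun E hE => by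
    rw [zetaM_trn p f hE]
    exact hz E hE
  refine ⟨S, fun q hq => ⟨(hS q hq).1, (hS q hq).2, fun b hb =>
    (hS q hq).2 b (local_of_global hf p hb)⟩, ?_, h1⟩
  rw [zetaX_eq p f hp]
  exact h1 _ good_one

/-- **Products of nodes of read-once formulas.** -/
theorem fml_strong {f : MvPolynomial Ω ℂ} {S : Set (MvPolynomial Ω ℂ)} (hf : Fml Ω f S)
    {h : MvPolynomial Ω ℂ} (hh : h ∈ NodeProd S) (h0 : h ≠ 0) (p : Ω → ℂ)
    (hp : eval p h = 0) : StrongAt h p :=
  strongAt_of_sg h0 hp (fml_sg hf hh h0 p hp)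

/-- **Stably sparse germs at a point.** -/
theorem stab_strong (g : MvPolynomial Ω ℂ) (p : Ω → ℂ) (r : ℕ)
    (R : MvPolynomial (Ω ⊕ Fin r) ℂ)
    (l : Fin r → MvPolynomial (Ω ⊕ Fin r) ℂ) (u : MvPowerSeries Ω ℂ)
    (y : Ω → MvPowerSeries Ω ℂ) (w : Fin r → MvPowerSeries Ω ℂ) (hg : g ≠ 0)
    (hg0 : eval p g = 0) (hu : MvPowerSeries.constantCoeff u ≠ 0) (hy : Coords y)
    (hw : ∀ j, MvPowerSeries.constantCoeff (w j) = 0)
    (hl : ∀ i, aeval (Sum.elim MvPowerSeries.X w) (l i) = 0)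
    (hJ : IsUnit (Matrix.of fun i j =>
      MvPolynomial.coeff (Finsupp.single (Sum.inr j) 1) (l i)).det)
    (hR1 : ∀ j, MvPolynomial.coeff (Finsupp.single (Sum.inr j) 1) R = 0)
    (hgR : u * aeval y (trn p g) = aeval (Sum.elim MvPowerSeries.X w) R)
    (hind : AffineIndependent ℚ (fun (m : (stabL R l).support) (v : (Ω ⊕ Fin r) ⊕ Fin r) =>
      ((m : (Ω ⊕ Fin r) ⊕ Fin r →₀ ℕ) v : ℚ))) : StrongAt g p :=
  strongAt_of_sg hg hg0 (stab_sg Ω (trn p g) r R l u y w (trn_ne_zero hg p)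
    (by rw [cc_trn, hg0]) hu hy hw hl hJ hR1 hgR hind)

end Pool.Agent.Helper33K9.RS
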