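import Pool.Agent.Helper33K9.RS.St
import Pool.Agent.Helper33K9.RO.Uz
import Pool.Agent.Helper33K9.RO.Ub

set_option autoImplicit false
set_option linter.dupNamespace false

/-! [INV] the strong property under formal changes of coordinates and units (helper56) -/

namespace Pool.Agent.Helper33K9.RS

open MvPolynomial Pool.Agent.H628R4.TP Pool.Agent.W428.MOT Pool.Agent.TH192.MT
  Pool.Agent.Helper33K9.HP Pool.Agent.Helper33K9.FQ Pool.Agent.Helper33K9.RO

open Pool.Agent.W375.MG (Good)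

namespace InvL

open JetL UzL

theorem constr_zero {σ : Type} [Fintype σ] : Constr ({0} : Set (Pt ℂ σ)) := by
  have h := constr_point (K := ℂ) (fun _ : σ => (0 : ℂ))
  simp only [map_zero] at h
  exact h

theorem constr_jetE {σ : Type} [Fintype σ] (f : MvPolynomial σ ℂ) (d : ℕ)
    {E : Set (AlgebraicClosure ℂ)} (hE : Good E) :
    Constr (JetS f ({0} : Set (Pt ℂ σ)) E d) := by
  refine Constr.and (constr_zero.preimage _ fun i => IsPF.coord _) (Constr.and ?_ ?_)
  · exact Constr.allLt _ fun k _ => Constr.eqz (pf_ck _ (fun i => IsPF.coord _) _ _)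
  · exact hE.constr _ (pf_ck _ (fun i => IsPF.coord _) _ _)

/-- the scaled set -/
def sc (c : ℂ) (E : Set (AlgebraicClosure ℂ)) : Set (AlgebraicClosure ℂ) :=
  {a | algebraMap ℂ (AlgebraicClosure ℂ) c * a ∈ E}

theorem good_sc {c : ℂ} {E : Set (AlgebraicClosure ℂ)} (hE : Good E) : Good (sc c E) where
  constr := fun F hF => hE.constr _ ((IsPF.const c).mul hF)
  zero := by
    show algebraMap ℂ (AlgebraicClosure ℂ) c * 0 ∉ E
    rw [mul_zero]
    exact hE.zero

theorem odE {A : Type} [Field A] {d : ℕ} {u F : PowerSeries A}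
    (hu : PowerSeries.coeff 0 u ≠ 0) (E : Set A) :
    ((∀ j < d, PowerSeries.coeff j (u * F) = 0) ∧ PowerSeries.coeff d (u * F) ∈ E) ↔
      ((∀ j < d, PowerSeries.coeff j F = 0) ∧
        PowerSeries.coeff 0 u * PowerSeries.coeff d F ∈ E) := by
  constructor
  · rintro ⟨h1, h2⟩
    have h3 : ∀ j < d, PowerSeries.coeff j F = 0 := by
      intro j
      induction j using Nat.strong_induction_on with
      | _ j ih =>
        intro hj
        have h4 := (coeff_mul_low (u := u) (d := j) fun k hk => ih k hk (by omega)).2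
        rw [h1 j hj] at h4
        exact (mul_eq_zero.1 h4.symm).resolve_left hu
    refine ⟨h3, ?_⟩
    rw [← (coeff_mul_low h3).2]
    exact h2
  · rintro ⟨h1, h2⟩
    have h3 := coeff_mul_low (u := u) h1
    exact ⟨h3.1, by rw [h3.2]; exact h2⟩

theorem mem_trE {σ : Type} [Fintype σ] (Φ : MvPowerSeries σ ℂ ≃ₐ[ℂ] MvPowerSeries σ ℂ)
    (U : MvPowerSeries σ ℂ)
    (hU : MvPowerSeries.constantCoeff U ≠ 0) {f g : MvPolynomial σ ℂ}
    (hfg : U * Φ (f : MvPowerSeries σ ℂ) = (g : MvPowerSeries σ ℂ)) {d : ℕ}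
    {z : Pt ℂ (σ × Fin (d + 1))} (hz : ∀ i, z (i, 0) = 0) (E : Set (AlgebraicClosure ℂ)) :
    jT (tr Φ d) z ∈ JetS f {0} (sc (MvPowerSeries.constantCoeff U) E) d ↔
      z ∈ JetS g {0} E d := by
  set V : MvPolynomial σ ℂ := MvPowerSeries.truncTotal (d + 1) U with hV
  have h1 := cg_jT (tr Φ d) z f
  have h2 : Cg d (aeval (ar z) (V * tr Φ d f)) (aeval (ar z) g) := by
    apply cg_of_order _ hz
    rw [← hfg]
    have e1 : ((V * tr Φ d f : MvPolynomial σ ℂ) : MvPowerSeries σ ℂ) - U * Φ f =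
        ((V : MvPowerSeries σ ℂ) - U) * ((tr Φ d f : MvPolynomial σ ℂ) : MvPowerSeries σ ℂ) +
        U * (((tr Φ d f : MvPolynomial σ ℂ) : MvPowerSeries σ ℂ) - Φ f) := by
      rw [coe_mul]
      ring
    rw [e1]
    refine le_trans (le_min ?_ ?_) MvPowerSeries.min_order_le_add
    · exact ((order_trunc U d).trans le_self_add).trans MvPowerSeries.le_order_mul
    · exact ((tr_sub Φ d f).trans le_add_self).trans MvPowerSeries.le_order_mul
  set u := aeval (ar z) V with hu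
  have hu1 : PowerSeries.coeff 0 u =
      algebraMap ℂ (AlgebraicClosure ℂ) (MvPowerSeries.constantCoeff U) := by
    rw [hu, coeff_zero_aevalK]
    have h1 : (fun i => PowerSeries.coeff 0 (ar z i)) = (0 : σ → AlgebraicClosure ℂ) := by
      funext i
      rw [coeff_ar_zero, hz]
      rfl
    rw [h1]
    have h2 : aeval (0 : σ → AlgebraicClosure ℂ) V = algebraMap ℂ _ (constantCoeff V) :=
      aeval_zero _
    rw [h2, hV, MvPowerSeries.constantCoeff_truncTotal_eq_ite, if_pos (Nat.succ_pos d)]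
  have hu0 : PowerSeries.coeff 0 u ≠ 0 := by
    rw [hu1]
    exact (map_ne_zero _).2 hU
  have h3 : ∀ k ≤ d, PowerSeries.coeff k (u * aeval (ar (jT (tr Φ d) z)) f)
      = PowerSeries.coeff k (aeval (ar z) g) := by
    intro k hk
    have e2 : aeval (ar z) (V * tr Φ d f) = u * aeval (ar z) (tr Φ d f) := map_mul _ _ _
    rw [← h2 k hk, e2, PowerSeries.coeff_mul, PowerSeries.coeff_mul]
    refine Finset.sum_congr rfl fun p hp => ?_
    rw [h1 p.2 (by have := Finset.HasAntidiagonal.mem_antidiagonal.1 hp; omega)]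
  have h4 : (fun i => jT (tr Φ d) z (i, 0)) = fun i => z (i, 0) := by
    funext i
    rw [center Φ hz, hz]
  have h5 := odE (d := d) (F := aeval (ar (jT (tr Φ d) z)) f) hu0 E
  rw [hu1, h3 d le_rfl] at h5
  unfold JetS sc
  rw [Set.mem_ofPred_eq, Set.mem_ofPred_eq, h4]
  refine and_congr Iff.rfl ?_
  rw [← h5]
  refine and_congr (forall₂_congr fun j hj => ?_) Iff.rfl
  rw [h3 j hj.le]

/-- the zeta functions under units and formal changes of coordinates -/
theorem zetaM_unit {σ : Type} [Fintype σ] (Φ : MvPowerSeries σ ℂ ≃ₐ[ℂ] MvPowerSeries σ ℂ)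
    (U : MvPowerSeries σ ℂ)
    (hU : MvPowerSeries.constantCoeff U ≠ 0) {f g : MvPolynomial σ ℂ}
    (hfg : U * Φ (f : MvPowerSeries σ ℂ) = (g : MvPowerSeries σ ℂ))
    {E : Set (AlgebraicClosure ℂ)} (hE : Good E) :
    zetaM g {0} E = zetaM f {0} (sc (MvPowerSeries.constantCoeff U) E) := by
  obtain ⟨M, -, hM⟩ := exists_meas ℂ
  unfold zetaM
  congr 1
  funext l
  rw [← hM, ← hM]
  congr 1
  refine M.iso _ _ (constr_jetE g l hE) (constr_jetE f l (good_sc hE)) (jT (tr Φ l))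
    (jT (tr Φ.symm l))
    (regularOn_poly (pf_jT _) _) (regularOn_poly (pf_jT _) _) ?_ ?_ ?_ ?_
  · intro z hz
    exact (mem_trE Φ U hU hfg (center_of_mem hz) E).2 hz
  · intro w hw
    have hc := center_of_mem hw
    refine (mem_trE Φ U hU hfg (center Φ.symm hc) E).1 ?_
    have h1 := jT_tr Φ.symm hc
    rw [AlgEquiv.symm_symm] at h1
    rw [h1]
    exact hw
  · intro z hz
    exact jT_tr Φ (center_of_mem hz)
  · intro w hw
    have h1 := jT_tr Φ.symm (center_of_mem hw)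
    rw [AlgEquiv.symm_symm] at h1
    exact h1

/-- the zeta functions under renamings -/
theorem zetaM_ren {σ τ : Type} [Fintype σ] [Fintype τ] (e : σ ≃ τ) (f : MvPolynomial σ ℂ)
    {E : Set (AlgebraicClosure ℂ)} (hE : Good E) :
    zetaM (rename e f) {0} E = zetaM f {0} E := by
  obtain ⟨M, -, hM⟩ := exists_meas ℂ
  set Φ := renameEquiv ℂ e with hΦ
  have hWT : WT (Φ : MvPolynomial σ ℂ →ₐ[ℂ] MvPolynomial τ ℂ) {0} = {0} := by
    ext w
    simp only [WT, Set.mem_ofPred_eq, Set.mem_singleton_iff]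
    constructor
    · intro h
      funext j
      have h1 := congrFun h (e.symm j)
      have h2 : (Φ : MvPolynomial σ ℂ →ₐ[ℂ] MvPolynomial τ ℂ) (X (e.symm j)) = X j := by
        show rename e (X (e.symm j)) = X j
        rw [rename_X, Equiv.apply_symm_apply]
      rw [h2, aeval_X] at h1
      exact h1
    · rintro rfl
      funext i
      have h2 : (Φ : MvPolynomial σ ℂ →ₐ[ℂ] MvPolynomial τ ℂ) (X i) = X (e i) := by
        show rename e (X i) = X (e i)
        rw [rename_X]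
      rw [h2, aeval_X]
      rfl
  have hf : (Φ : MvPolynomial σ ℂ →ₐ[ℂ] MvPolynomial τ ℂ) f = rename e f := rfl
  unfold zetaM
  congr 1
  funext l
  rw [← hM, ← hM, Fintype.card_congr e]
  congr 1
  refine M.iso _ _ (constr_jetE _ l hE) (constr_jetE f l hE)
    (jT (Φ : MvPolynomial σ ℂ →ₐ[ℂ] MvPolynomial τ ℂ))
    (jT (Φ.symm : MvPolynomial τ ℂ →ₐ[ℂ] MvPolynomial σ ℂ))
    (regularOn_poly (pf_jT _) _) (regularOn_poly (pf_jT _) _) ?_ ?_ ?_ ?_
  · intro z hz
    refine (mem_jT _ _ _ _ _ _).2 ?_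
    rw [hWT]
    exact hz
  · intro w hw
    have h2 := (mem_jT (Φ : MvPolynomial σ ℂ →ₐ[ℂ] MvPolynomial τ ℂ) f {0} E l
      (jT (Φ.symm : MvPolynomial τ ℂ →ₐ[ℂ] MvPolynomial σ ℂ) w)).1 (by
        have h1 := jT_jT Φ.symm w
        rw [AlgEquiv.symm_symm] at h1
        rw [h1]
        exact hw)
    rw [hWT] at h2
    exact h2
  · intro z _
    exact jT_jT Φ z
  · intro w _
    have h1 := jT_jT Φ.symm w
    rw [AlgEquiv.symm_symm] at h1
    exact h1

theorem rs_ren {σ τ : Type} [Fintype σ] [Fintype τ] (e : σ ≃ τ) {f : MvPolynomial σ ℂ}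
    (hf : RS f) : RS (rename e f) := by
  obtain ⟨S, hS, hZ⟩ := hf
  refine ⟨S, fun p hp => ⟨(hS p hp).1, fun c hc => (hS p hp).2 c ?_⟩, fun E hE => ?_⟩
  · refine bf der _ _ (MvPowerSeries.renameEquiv ℂ e).symm (rename e f) f ?_ _ hc
    rw [AlgEquiv.symm_apply_eq]
    exact (MvPowerSeries.rename_coe _ f).symm
  · rw [zetaM_ren e f hE]
    exact hZ E hE

theorem rs_unit {σ : Type} [Fintype σ] (Φ : MvPowerSeries σ ℂ ≃ₐ[ℂ] MvPowerSeries σ ℂ)
    (U : MvPowerSeries σ ℂ)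
    (hU : MvPowerSeries.constantCoeff U ≠ 0) {f g : MvPolynomial σ ℂ} (hf0 : f ≠ 0)
    (hfg : U * Φ (f : MvPowerSeries σ ℂ) = (g : MvPowerSeries σ ℂ)) (hf : RS f) : RS g := by
  obtain ⟨V, hV⟩ := isUnit_of hU
  have hgf : Φ.symm ((V⁻¹ : (MvPowerSeries σ ℂ)ˣ) : MvPowerSeries σ ℂ) *
      Φ.symm (g : MvPowerSeries σ ℂ) = (f : MvPowerSeries σ ℂ) := by
    rw [← map_mul, ← hfg, ← hV, Units.inv_mul_cancel_left, AlgEquiv.symm_apply_apply]
  have hU' : MvPowerSeries.constantCoeff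
      (Φ.symm ((V⁻¹ : (MvPowerSeries σ ℂ)ˣ) : MvPowerSeries σ ℂ)) ≠ 0 := by
    have h1 : IsUnit (Φ.symm ((V⁻¹ : (MvPowerSeries σ ℂ)ˣ) : MvPowerSeries σ ℂ)) :=
      (V⁻¹).isUnit.map Φ.symm
    rw [MvPowerSeries.isUnit_iff_constantCoeff] at h1
    exact h1.ne_zero
  have hg0 : g ≠ 0 := by
    intro h
    rw [h, coe_zero, map_zero, mul_zero] at hgf
    exact hf0 (coe_eq_zero_iff.1 hgf.symm)
  obtain ⟨S, hS, hZ⟩ := hf
  refine ⟨S, fun p hp => ⟨(hS p hp).1, fun c hc => (hS p hp).2 c ?_⟩, fun E hE => ?_⟩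
  · exact ub _ Φ.symm _ g f hU' hg0 hgf _ hc
  · rw [zetaM_unit Φ U hU hfg hE]
    exact hZ _ (good_sc hE)

end InvL

open InvL in
theorem inv' : S_INV := by
  intro Ω Ω' _ _ e Φ U f g hU hf0 hfg hf
  have h1 : RS (rename e f) := rs_ren e hf
  have h2 : rename e f ≠ 0 := by
    intro h
    apply hf0
    rw [← map_zero (rename e : MvPolynomial Ω ℂ →ₐ[ℂ] MvPolynomial Ω' ℂ)] at h
    exact rename_injective _ e.injective h
  refine rs_unit ((MvPowerSeries.renameEquiv ℂ e).symm.trans Φ) U hU h2 ?_ h1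
  have h3 : ((rename e f : MvPolynomial Ω' ℂ) : MvPowerSeries Ω' ℂ) =
      MvPowerSeries.renameEquiv ℂ e (f : MvPowerSeries Ω ℂ) :=
    (MvPowerSeries.rename_coe _ f).symm
  rw [h3, ← hfg]
  change U * Φ ((MvPowerSeries.renameEquiv ℂ e).symm (MvPowerSeries.renameEquiv ℂ e _)) = _
  rw [AlgEquiv.symm_apply_apply]

end Pool.Agent.Helper33K9.RS
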