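import Pool.Agent.Helper33K9.RS.St

/-!
[SPR] the strong form for polynomials with affinely independent exponents.
-/

set_option autoImplicit false
set_option linter.dupNamespace false

namespace Pool.Agent.Helper33K9.RS

open MvPolynomial Pool.Agent.H628R4.TP Pool.Agent.W428.MOT Pool.Agent.TH192.MT
  Pool.Agent.Helper33K9.HP Pool.Agent.Helper33K9.FQ Pool.Agent.Helper33K9.RO

namespace SprL

/-- sums of monomials with affinely independent exponents in arbitrary finite sets of variables -/
theorem rs_sum (base : S_BASE) (inv : S_INV) {Ω ι : Type} [Fintype Ω] [Fintype ι] [Nonempty ι]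
    (v : ι → Ω → ℕ) (c : ι → ℂ) (ha : AffineIndependent ℚ (fun (j : ι) (i : Ω) => (v j i : ℚ)))
    (hv : ∀ j, v j ≠ 0) (hc : ∀ j, c j ≠ 0) (f : MvPolynomial Ω ℂ) (hf : f ≠ 0)
    (hfd : f = ∑ j, C (c j) * ∏ i, X i ^ v j i) : RS f := by
  classical
  let ei : ι ≃ Fin (Fintype.card ι) := Fintype.equivFin ι
  let e : Ω ≃ Fin (Fintype.card Ω) := Fintype.equivFin Ω
  have h5 : rename e f = ∑ j, C (c (ei.symm j)) *
      ∏ i, X i ^ (v (ei.symm j) (e.symm i)) := by
    rw [hfd, map_sum, ← Equiv.sum_comp ei.symm]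
    refine Finset.sum_congr rfl fun j _ => ?_
    rw [map_mul, rename_C, map_prod, ← Equiv.prod_comp e]
    congr 1
    refine Finset.prod_congr rfl fun i _ => ?_
    rw [map_pow, rename_X, Equiv.symm_apply_apply]
  have h6 : AffineIndependent ℚ (fun (j : Fin (Fintype.card ι))
      (i : Fin (Fintype.card Ω)) => ((v (ei.symm j) (e.symm i) : ℕ) : ℚ)) := by
    have h7 := (ha.comp_embedding ei.symm.toEmbedding).map'
      (LinearMap.funLeft ℚ ℚ e.symm).toAffineMap
      (LinearMap.funLeft_injective_of_surjective ℚ ℚ _ e.symm.surjective)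
    exact h7
  have h8 : ∀ j : Fin (Fintype.card ι), (fun i : Fin (Fintype.card Ω) =>
      v (ei.symm j) (e.symm i)) ≠ 0 := by
    intro j h
    apply hv (ei.symm j)
    funext i
    have := congrFun h (e i)
    simpa using this
  have h9 := base (Fintype.card Ω) (Fintype.card ι) (fun j i => v (ei.symm j) (e.symm i))
    (fun j => c (ei.symm j)) Fintype.card_pos h6 h8 (fun j => hc _)
  rw [← h5] at h9
  refine inv (Fin (Fintype.card Ω)) Ω e.symm (MvPowerSeries.renameEquiv ℂ e.symm) 1 (rename e f) f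
    (by rw [map_one]; exact one_ne_zero) ?_ ?_ h9
  · intro h
    exact hf (rename_injective e e.injective (by rw [h, map_zero]))
  · rw [one_mul]
    have h10 : MvPowerSeries.renameEquiv ℂ e.symm ((rename e f : MvPolynomial _ ℂ) :
        MvPowerSeries (Fin (Fintype.card Ω)) ℂ) =
        ((rename e.symm (rename e f) : MvPolynomial Ω ℂ) : MvPowerSeries Ω ℂ) :=
      MvPowerSeries.rename_coe _ _
    rw [h10, rename_rename]
    congr 1
    have h11 : (e.symm : Fin (Fintype.card Ω) → Ω) ∘ e = id := by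
      funext i
      simp
    rw [h11, rename_id]
    rfl

theorem aff_sum {Ω ι κ : Type} [Fintype Ω] [Fintype ι] [Fintype κ] [DecidableEq κ] (m : ι → Ω → ℚ)
    (hm : AffineIndependent ℚ m) (v : ι ⊕ κ → (Ω ⊕ κ × Bool) → ℚ)
    (h1 : ∀ j i, v (Sum.inl j) (Sum.inl i) = m j i) (h2 : ∀ j x, v (Sum.inl j) (Sum.inr x) = 0)
    (h3 : ∀ j i, v (Sum.inr j) (Sum.inl i) = 0)
    (h4 : ∀ j x, v (Sum.inr j) (Sum.inr x) = if x.1 = j then 1 else 0) :
    AffineIndependent ℚ v := by
  rw [affineIndependent_iff_of_fintype]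
  intro w hw hs
  rw [Finset.weightedVSub_eq_linear_combination _ hw] at hs
  have h5 : ∀ j : κ, w (Sum.inr j) = 0 := by
    intro j
    have h := congrFun hs (Sum.inr (j, false))
    rw [Finset.sum_apply, Fintype.sum_sum_type] at h
    simp only [Pi.smul_apply, h2, h4, smul_eq_mul, mul_zero, Finset.sum_const_zero, zero_add,
      mul_ite, mul_one, Pi.zero_apply, Finset.sum_ite_eq, Finset.mem_univ, if_true] at h
    exact h
  have h6 : ∀ j : ι, w (Sum.inl j) = 0 := by
    rw [affineIndependent_iff_of_fintype] at hm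
    rw [Fintype.sum_sum_type] at hw
    simp only [h5, Finset.sum_const_zero, add_zero] at hw
    apply hm (fun j => w (Sum.inl j)) hw
    rw [Finset.weightedVSub_eq_linear_combination _ hw]
    funext i
    have h := congrFun hs (Sum.inl i)
    rw [Finset.sum_apply, Fintype.sum_sum_type] at h
    simp only [Pi.smul_apply, h1, h3, smul_eq_mul, mul_zero, Finset.sum_const_zero, add_zero,
      Pi.zero_apply] at h
    rw [Finset.sum_apply]
    simpa using h
  rintro (j | j)
  · exact h6 j
  · exact h5 j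

end SprL

open SprL in
theorem spr (base : S_BASE) (inv : S_INV) : S_SPR := by
  intro Ω _ f hl hf hf0 κ _
  classical
  have hfd : f = ∑ j : f.support, C (coeff (j : Ω →₀ ℕ) f) * ∏ i, X i ^ (j : Ω →₀ ℕ) i := by
    rw [Finset.sum_coe_sort f.support (fun j => C (coeff (j : Ω →₀ ℕ) f) * ∏ i, X i ^ j i)]
    conv_lhs => rw [f.as_sum]
    refine Finset.sum_congr rfl fun j _ => ?_
    rw [MvPolynomial.monomial_eq, Finsupp.prod_fintype _ _ (fun i => pow_zero _)]
  have hne : Nonempty f.support := by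
    obtain ⟨m, hm⟩ := MvPolynomial.support_nonempty.2 hf
    exact ⟨⟨m, hm⟩⟩
  let v : f.support ⊕ κ → (Ω ⊕ κ × Bool) → ℕ := fun o x =>
    Sum.elim (fun m : f.support => Sum.elim (fun i => (m : Ω →₀ ℕ) i) (fun _ => 0) x)
      (fun j => Sum.elim (fun _ => 0) (fun y : κ × Bool => if y.1 = j then 1 else 0) x) o
  let c : f.support ⊕ κ → ℂ := Sum.elim (fun m => coeff (m : Ω →₀ ℕ) f) (fun _ => 1)
  refine rs_sum base inv v c ?_ ?_ ?_ (hyT κ f) ?_ ?_
  · refine aff_sum (fun (m : f.support) (i : Ω) => ((m : Ω →₀ ℕ) i : ℚ)) hl _ (fun j i => rfl)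
      (fun j x => ?_) (fun j i => ?_) (fun j x => ?_)
    · show ((0 : ℕ) : ℚ) = 0
      rw [Nat.cast_zero]
    · show ((0 : ℕ) : ℚ) = 0
      rw [Nat.cast_zero]
    · show (((if x.1 = j then 1 else 0 : ℕ)) : ℚ) = _
      split_ifs <;> simp
  · rintro (m | j) h
    · have h9 : (m : Ω →₀ ℕ) = 0 := by
        ext i
        exact congrFun h (Sum.inl i)
      have h10 := m.2
      rw [h9, MvPolynomial.mem_support_iff] at h10
      exact h10 hf0
    · have h9 := congrFun h (Sum.inr (j, false))
      have h10 : (if j = j then 1 else 0 : ℕ) = 0 := h9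
      rw [if_pos rfl] at h10
      exact one_ne_zero h10
  · rintro (m | j)
    · exact MvPolynomial.mem_support_iff.1 m.2
    · exact one_ne_zero
  · intro h
    have h9 := congrArg (aeval (Sum.elim (fun i : Ω => (X i : MvPolynomial Ω ℂ)) (fun _ => 0))) h
    rw [hyT, map_add, aeval_rename, map_sum, map_zero] at h9
    have h10 : (Sum.elim (fun i : Ω => (X i : MvPolynomial Ω ℂ)) (fun _ : κ × Bool => 0)) ∘
        Sum.inl = X := rfl
    rw [h10, aeval_X_left_apply] at h9
    apply hf
    rw [← h9, left_eq_add]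
    refine Finset.sum_eq_zero fun j _ => ?_
    rw [map_mul, aeval_X, Sum.elim_inr, zero_mul]
  · rw [Fintype.sum_sum_type]
    unfold hyT
    congr 1
    · conv_lhs => rw [hfd]
      rw [map_sum]
      refine Finset.sum_congr rfl fun m _ => ?_
      rw [map_mul, rename_C, map_prod, Fintype.prod_sum_type]
      have h9 : ∀ x : κ × Bool, (X (Sum.inr x) : MvPolynomial (Ω ⊕ κ × Bool) ℂ) ^
          v (Sum.inl m) (Sum.inr x) = 1 := fun x => pow_zero _
      simp only [h9, Finset.prod_const_one, mul_one]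
      congr 1
      refine Finset.prod_congr rfl fun i _ => ?_
      rw [map_pow, rename_X]
      rfl
    · refine Finset.sum_congr rfl fun j _ => ?_
      rw [Fintype.prod_sum_type]
      have h9 : ∀ i : Ω, (X (Sum.inl i) : MvPolynomial (Ω ⊕ κ × Bool) ℂ) ^
          v (Sum.inr j) (Sum.inl i) = 1 := fun i => pow_zero _
      simp only [h9, Finset.prod_const_one, one_mul]
      have h10 : C (c (Sum.inr j)) = (1 : MvPolynomial (Ω ⊕ κ × Bool) ℂ) := C_1
      rw [h10, one_mul, Fintype.prod_prod_type]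
      have h11 : ∀ k : κ, (∏ b : Bool, (X (Sum.inr (k, b)) : MvPolynomial (Ω ⊕ κ × Bool) ℂ) ^
          v (Sum.inr j) (Sum.inr (k, b))) =
          if k = j then X (Sum.inr (k, false)) * X (Sum.inr (k, true)) else 1 := by
        intro k
        rw [Fintype.prod_bool]
        have h12 : ∀ b, v (Sum.inr j) (Sum.inr (k, b)) = if k = j then 1 else 0 := fun b => rfl
        rw [h12, h12]
        split_ifs with h
        · rw [pow_one, pow_one, mul_comm]
        · rw [pow_zero, pow_zero, one_mul]
      rw [Finset.prod_congr rfl (fun k _ => h11 k), Finset.prod_ite_eq', if_pos (Finset.mem_univ _)]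

end Pool.Agent.Helper33K9.RS
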