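import Pool.Agent.Helper33K9.RS.St
import Pool.Agent.Helper33K9.HP.Loc

set_option autoImplicit false
set_option linter.unusedSectionVars false

/-! # STEP: from `f + u v` and `f + u v + u' v'` down to `f` -/

namespace Pool.Agent.Helper33K9.RS

open MvPolynomial Pool.Agent.H628R4.TP Pool.Agent.W428.MOT Pool.Agent.TH192.MT
  Pool.Agent.Helper33K9.HP Pool.Agent.Helper33K9.FQ Pool.Agent.Helper33K9.RO

open Pool.Agent.W375.MG (Good)

open Pool.Agent.TH192.DT (ratU)

namespace StepL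

variable {R : Type} [CommRing R] (M : Meas ℂ R) {σ : Type} [Fintype σ]

/-- the coefficients of the local zeta function with angular components in `E` -/
noncomputable def ae (v : R) (f : MvPolynomial σ ℂ) (E : Set (AlgebraicClosure ℂ)) (d : ℕ) : R :=
  M.χ _ (JetS f {0} E d) * v ^ (d * Fintype.card σ)

/-- the class of `E` -/
noncomputable def ee (E : Set (AlgebraicClosure ℂ)) : R := M.χ (Fin 1) {a | a 0 ∈ E}

/-- the sums of the classes of the tails -/
noncomputable def ss (v : R) (f : MvPolynomial σ ℂ) (d : ℕ) : R :=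
  ∑ m ∈ Finset.Ico 2 (d + 1), bb M v f {0} m

lemma norm_chi (v : R) (hv : M.L * v = 1) (f : MvPolynomial σ ℂ) (d : ℕ) (x e : R) :
    (x * M.L ^ (d + 1) + e * (M.L - 1) * M.L ^ d *
      ∑ m ∈ Finset.Ico 2 (d + 1), M.χ _ (AJ f {0} d m)) * v ^ (d * (Fintype.card σ + 2)) =
    v ^ d * (M.L * (x * v ^ (d * Fintype.card σ)) + e * (M.L - 1) * ss M v f d) := by
  have hLv : M.L ^ d * v ^ d = 1 := by rw [← mul_pow, hv, one_pow]
  have h1 : (∑ m ∈ Finset.Ico 2 (d + 1), M.χ _ (AJ f {0} d m)) * v ^ (d * Fintype.card σ) =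
      ss M v f d := by
    rw [Finset.sum_mul, ss]
    refine Finset.sum_congr rfl fun m hm => ?_
    have := Finset.mem_Ico.1 hm
    exact bb_eq M v hv f (constr_zero (σ := σ)) d m (by omega)
  have h2 : v ^ (d * (Fintype.card σ + 2)) = v ^ d * v ^ d * v ^ (d * Fintype.card σ) := by
    rw [← pow_add, ← pow_add]
    congr 1
    ring
  rw [h2, pow_succ, ← h1]
  set Q := ∑ m ∈ Finset.Ico 2 (d + 1), M.χ _ (AJ f {0} d m)
  linear_combination (v ^ d * v ^ (d * Fintype.card σ) * (x * M.L + e * (M.L - 1) * Q)) * hLv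

lemma ae_hyp (hchi : S_CHI) (v : R) (hv : M.L * v = 1) {f : MvPolynomial σ ℂ}
    (h0 : constantCoeff f = 0) (E : Set (AlgebraicClosure ℂ))
    (hE : ∀ {ι : Type} (F : Pt ℂ ι → AlgebraicClosure ℂ), IsPF F → Constr {z | F z ∈ E})
    (d : ℕ) (hd : 1 ≤ d) : ae M v (hyp f) E d =
      v ^ d * (M.L * ae M v f E d + ee M E * (M.L - 1) * ss M v f d) := by
  have h1 := hchi R M σ f E h0 hE d hd
  have hc : Fintype.card (σ ⊕ Bool) = Fintype.card σ + 2 := by
    rw [Fintype.card_sum, Fintype.card_bool]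
  rw [ae, h1, hc, ae, ← norm_chi M v hv f d]
  rfl

lemma tail_eq (g : MvPolynomial σ ℂ) (d : ℕ) :
    AJ g ({0} : Set (Pt ℂ σ)) d (d + 1) = JetS g {0} {0} d := by
  ext z
  simp only [AJ, JetS, Set.mem_ofPred_eq, Set.mem_singleton_iff]
  constructor
  · rintro ⟨h1, h2⟩
    exact ⟨h1, fun j hj => h2 j (by omega), h2 d (by omega)⟩
  · rintro ⟨h1, h2, h3⟩
    refine ⟨h1, fun k hk => ?_⟩
    rcases Nat.lt_succ_iff_lt_or_eq.1 hk with h4 | rfl
    · exact h2 k h4
    · exact h3

lemma bb_tail (v : R) (hv : M.L * v = 1) (g : MvPolynomial σ ℂ) (d : ℕ) :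
    bb M v g {0} (d + 1) = ae M v g {0} d := by
  rw [ae, ← tail_eq, bb_eq M v hv g (constr_zero (σ := σ)) d (d + 1) le_rfl]

lemma ee_zero : ee M ({0} : Set (AlgebraicClosure ℂ)) = 1 := by
  rw [← chi_zero M (ι := Fin 1), ee]
  congr 1
  ext a
  simp only [Set.mem_ofPred_eq, Set.mem_singleton_iff]
  constructor
  · intro h i
    rw [Fin.eq_zero i]
    exact h
  · intro h
    exact h 0

lemma bb_hyp (hchi : S_CHI) (v : R) (hv : M.L * v = 1) {f : MvPolynomial σ ℂ}
    (h0 : constantCoeff f = 0) (d : ℕ) (hd : 1 ≤ d) : bb M v (hyp f) {0} (d + 1) =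
      v ^ d * (M.L * bb M v f {0} (d + 1) + (M.L - 1) * ss M v f d) := by
  rw [bb_tail M v hv, bb_tail M v hv, ae_hyp M hchi v hv h0 {0} (fun F hF => ?_) d hd, ee_zero,
    one_mul]
  have := Constr.eqz hF
  simpa only [Set.mem_singleton_iff] using this

lemma ae_zero (v : R) {f : MvPolynomial σ ℂ} (h0 : constantCoeff f = 0)
    (E : Set (AlgebraicClosure ℂ)) (hE : (0 : AlgebraicClosure ℂ) ∉ E) : ae M v f E 0 = 0 := by
  have h1 : JetS f ({0} : Set (Pt ℂ σ)) E 0 = ∅ := by
    ext z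
    simp only [JetS, Set.mem_ofPred_eq, Set.mem_empty_iff_false, iff_false, Set.mem_singleton_iff]
    rintro ⟨h, _, h2⟩
    apply hE
    rw [coeff_zero_aevalK] at h2
    have h3 : (fun i => PowerSeries.coeff 0 (ar z i)) = (0 : σ → AlgebraicClosure ℂ) := by
      rw [← h]
      funext i
      exact coeff_ar_zero z i
    rw [h3, aeval_zero, h0, map_zero] at h2
    exact h2
  rw [ae, h1, Pool.Agent.W375.MT.chi_empty, zero_mul]

/-- the zeta function -/
noncomputable def Z (v : R) (f : MvPolynomial σ ℂ) (E : Set (AlgebraicClosure ℂ)) :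
    PowerSeries R := PowerSeries.mk (ae M v f E)

/-- the series of the sums of the tails -/
noncomputable def SS (v : R) (f : MvPolynomial σ ℂ) : PowerSeries R :=
  PowerSeries.mk (ss M v f)

lemma ss_zero (v : R) (f : MvPolynomial σ ℂ) : ss M v f 0 = 0 := by
  rw [ss]
  simp

lemma rel1 (hchi : S_CHI) (v : R) (hv : M.L * v = 1) {f : MvPolynomial σ ℂ}
    (h0 : constantCoeff f = 0) {E : Set (AlgebraicClosure ℂ)} (hE : Good E) :
    PowerSeries.rescale M.L (Z M v (hyp f) E) = PowerSeries.C M.L * Z M v f E +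
      PowerSeries.C (ee M E * (M.L - 1)) * SS M v f := by
  have hLv : ∀ n : ℕ, M.L ^ n * v ^ n = 1 := fun n => by rw [← mul_pow, hv, one_pow]
  ext d
  rw [PowerSeries.coeff_rescale, map_add, PowerSeries.coeff_C_mul, PowerSeries.coeff_C_mul, Z, Z,
    SS, PowerSeries.coeff_mk, PowerSeries.coeff_mk, PowerSeries.coeff_mk]
  rcases Nat.eq_zero_or_pos d with rfl | hd
  · rw [ae_zero M v h0 E hE.zero, ae_zero M v (by rw [cc_hyp]; exact h0) E hE.zero, ss_zero]
    ring
  · rw [ae_hyp M hchi v hv h0 E hE.constr d hd]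
    linear_combination (M.L * ae M v f E d + ee M E * (M.L - 1) * ss M v f d) * hLv d

lemma rel3 (hchi : S_CHI) (v : R) (hv : M.L * v = 1) {f : MvPolynomial σ ℂ}
    (h0 : constantCoeff f = 0) :
    (1 - PowerSeries.C M.L * PowerSeries.X) * PowerSeries.rescale M.L (SS M v (hyp f)) =
      PowerSeries.C M.L ^ 2 * (1 - PowerSeries.X) * SS M v f +
        PowerSeries.C M.L * (PowerSeries.C M.L - 1) * PowerSeries.X * SS M v f := by
  have hLv : ∀ n : ℕ, M.L ^ n * v ^ n = 1 := fun n => by rw [← mul_pow, hv, one_pow]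
  have e1 := series1 (bb M v (hyp f) {0})
  have e2 := series1 (bb M v f {0})
  have e3 := congrArg (PowerSeries.rescale M.L) e1
  rw [map_mul, map_sub, map_one, PowerSeries.rescale_X] at e3
  have e4 : PowerSeries.C M.L ^ 2 * (1 - PowerSeries.X) * SS M v f =
      PowerSeries.C (M.L ^ 2) * PowerSeries.mk fun d => if d < 2 then 0 else bb M v f {0} d := by
    rw [← e2, map_pow]
    rw [mul_assoc]
    rfl
  have e5 : (1 - PowerSeries.C M.L * PowerSeries.X) * PowerSeries.rescale M.L (SS M v (hyp f)) =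
      PowerSeries.rescale M.L (PowerSeries.mk fun d => if d < 2 then 0 else
        bb M v (hyp f) {0} d) := e3
  have e6 : PowerSeries.C M.L * (PowerSeries.C M.L - 1) * PowerSeries.X * SS M v f =
      PowerSeries.C (M.L * (M.L - 1)) * (PowerSeries.X * SS M v f) := by
    rw [map_mul, map_sub, map_one]
    ring
  rw [e4, e5, e6]
  ext d
  rw [PowerSeries.coeff_rescale, map_add, PowerSeries.coeff_C_mul, PowerSeries.coeff_C_mul,
    PowerSeries.coeff_mk, PowerSeries.coeff_mk]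
  rcases d with _ | d
  · rw [PowerSeries.coeff_zero_X_mul]
    simp
  · rw [PowerSeries.coeff_succ_X_mul, SS, PowerSeries.coeff_mk]
    rcases Nat.eq_zero_or_pos d with rfl | hd
    · rw [ss_zero]
      simp
    · rw [if_neg (by omega), if_neg (by omega), bb_hyp M hchi v hv h0 d hd]
      linear_combination (M.L * (M.L * bb M v f {0} (d + 1) + (M.L - 1) * ss M v f d)) * hLv d

lemma alg {S : Type} [CommRing S] (l w x A B1 C2 S0 T k : S) (h4 : l * w = 1)
    (h1 : B1 = l * A + k * S0) (h2 : C2 = l * B1 + k * T)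
    (h3 : (1 - l * x) * T = l ^ 2 * (1 - x) * S0 + l * (l - 1) * x * S0) :
    (1 - w * x) * A = w ^ 3 * ((l ^ 2 + l) * ((1 - x) * B1) - (1 - l * x) * C2) := by
  have e1 : (l ^ 2 + l) * ((1 - x) * B1) - (1 - l * x) * C2 = l ^ 3 * ((1 - w * x) * A) := by
    rw [h2, h1]
    linear_combination (-k) * h3 + (l ^ 2 * x * A) * h4
  rw [e1]
  linear_combination (-((1 - w * x) * A) * (l ^ 2 * w ^ 2 + l * w + 1)) * h4

/-- One step down. -/
theorem main : S_CHI → S_STEP := by
  intro hchi σ _ f E S1 S2 h0 hE hS1 hS2 hB hC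
  obtain ⟨M, hL, hM⟩ := exists_meas ℂ
  have hv : M.L * iL = 1 := by rw [hL, iL, Units.mul_inv]
  have hz : ∀ (τ : Type) [Fintype τ] (g : MvPolynomial τ ℂ), zetaM g {0} E = Z M iL g E := by
    intro τ _ g
    unfold zetaM Z ae iL
    congr 1
    funext d
    rw [inv_pow_eq, hM, Nat.mul_comm]
  have r1 := rel1 M hchi iL hv h0 hE
  have r2 := rel1 M hchi iL hv (f := hyp f) (by rw [cc_hyp]; exact h0) hE
  have r3 := rel3 M hchi iL hv h0
  have r4 : PowerSeries.C M.L * PowerSeries.C iL = (1 : PowerSeries (MK ℂ)) := by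
    rw [← map_mul, hv, map_one]
  have r2' := congrArg (PowerSeries.rescale M.L) r2
  rw [map_add, map_mul, map_mul, resc_C, resc_C] at r2'
  have key := alg (PowerSeries.C M.L) (PowerSeries.C iL) PowerSeries.X (Z M iL f E)
    (PowerSeries.rescale M.L (Z M iL (hyp f) E))
    (PowerSeries.rescale M.L (PowerSeries.rescale M.L (Z M iL (hyp (hyp f)) E)))
    (SS M iL f) (PowerSeries.rescale M.L (SS M iL (hyp f)))
    (PowerSeries.C (ee M E * (M.L - 1))) r4 r1 r2' r3
  have k1 : (1 - PowerSeries.X) * PowerSeries.rescale M.L (Z M iL (hyp f) E) =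
      PowerSeries.rescale M.L (om * zetaM (hyp f) {0} E) := by
    rw [hz, om, map_mul, map_sub, map_one, map_mul, resc_C, PowerSeries.rescale_X, ← mul_assoc,
      mul_comm (PowerSeries.C iL), r4, one_mul]
  have k2 : (1 - PowerSeries.C M.L * PowerSeries.X) *
      PowerSeries.rescale M.L (PowerSeries.rescale M.L (Z M iL (hyp (hyp f)) E)) =
      PowerSeries.rescale (M.L ^ 2) (om * zetaM (hyp (hyp f)) {0} E) := by
    rw [hz, om, map_mul, map_sub, map_one, map_mul, resc_C, PowerSeries.rescale_X,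
      PowerSeries.rescale_rescale, pow_two, map_mul, ← mul_assoc (PowerSeries.C iL),
      ← mul_assoc (PowerSeries.C iL), mul_comm (PowerSeries.C iL), r4, one_mul]
  rw [k1, k2] at key
  have hom : om * zetaM f {0} E = (1 - PowerSeries.C iL * PowerSeries.X) * Z M iL f E := by
    rw [hz]
    rfl
  rw [hom, key, ratRing_eq]
  rw [ratRing_eq] at hB hC
  have m1 : PowerSeries.rescale M.L (om * zetaM (hyp f) {0} E) ∈
      ratU (Lu ℂ) (shn 1 S1 ∪ shn 2 S2) := by
    have h3 := rescale_rat (Lu ℂ) 1 hS1 (D' := shn 1 S1 ∪ shn 2 S2)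
      (fun p hp => Or.inl ⟨p, hp, rfl⟩) hB
    rw [zpow_one] at h3
    rw [hL]
    exact h3
  have m2 : PowerSeries.rescale (M.L ^ 2) (om * zetaM (hyp (hyp f)) {0} E) ∈
      ratU (Lu ℂ) (shn 1 S1 ∪ shn 2 S2) := by
    have h3 := rescale_rat (Lu ℂ) 2 hS2 (D' := shn 1 S1 ∪ shn 2 S2)
      (fun p hp => Or.inr ⟨p, hp, rfl⟩) hC
    have h4 : (((Lu ℂ) ^ (2 : ℤ) : (MK ℂ)ˣ) : MK ℂ) = M.L ^ 2 := by
      rw [hL, ← Units.val_pow_eq_pow_val]
      rfl
    rw [h4] at h3
    exact h3
  refine Subalgebra.mul_mem _ (Subalgebra.pow_mem _ (rat_C _ _) 3) (Subalgebra.sub_mem _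
    (Subalgebra.mul_mem _ (Subalgebra.add_mem _ (Subalgebra.pow_mem _ (rat_C _ _) 2)
      (rat_C _ _)) m1) m2)

end StepL

/-- One step down. -/
theorem step : S_CHI → S_STEP := StepL.main

end Pool.Agent.Helper33K9.RS
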