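import Pool.Agent.Helper33K9.RS.St
import Pool.Agent.Helper33K9.FQ.Sum
import Pool.Agent.Helper33K9.FQ.Co

set_option autoImplicit false

/-! # [ST] formal changes of coordinates and units of `f + ∑_j u_j v_j` -/

namespace Pool.Agent.Helper33K9.RS

open MvPolynomial Pool.Agent.H628R4.TP Pool.Agent.W428.MOT Pool.Agent.TH192.MT
  Pool.Agent.Helper33K9.HP Pool.Agent.Helper33K9.FQ Pool.Agent.Helper33K9.RO

namespace SttL

theorem coe_eq_aeval {Ω : Type} (f : MvPolynomial Ω ℂ) :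
    (f : MvPowerSeries Ω ℂ) = aeval MvPowerSeries.X f := by
  have h : (coeToMvPowerSeries.algHom ℂ : MvPolynomial Ω ℂ →ₐ[ℂ] MvPowerSeries Ω ℂ) =
      aeval MvPowerSeries.X := by
    ext i : 1
    rw [aeval_X]
    exact coe_X i
  exact congrArg (fun φ => φ f) h

theorem aeval_comp' {σ A B : Type} [CommRing A] [Algebra ℂ A] [CommRing B] [Algebra ℂ B]
    (φ : A →ₐ[ℂ] B) (x : σ → A) (F : MvPolynomial σ ℂ) :
    φ (aeval x F) = aeval (fun i => φ (x i)) F := by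
  rw [← AlgHom.comp_apply, comp_aeval]

theorem isUnit_of {Ω : Type} {F : MvPowerSeries Ω ℂ} (h : MvPowerSeries.constantCoeff F ≠ 0) :
    IsUnit F := by
  rw [MvPowerSeries.isUnit_iff_constantCoeff]
  exact h.isUnit

/-- the power series of `f + ∑_j u_j v_j` -/
theorem coe_hyT {Ω κ : Type} [Fintype Ω] [Fintype κ] (f : MvPolynomial Ω ℂ) :
    (hyT κ f : MvPowerSeries (Ω ⊕ κ × Bool) ℂ) =
      MvPowerSeries.rename (Sum.inl : Ω → Ω ⊕ κ × Bool) (f : MvPowerSeries Ω ℂ) +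
        ∑ j : κ, MvPowerSeries.X (Sum.inr (j, false)) * MvPowerSeries.X (Sum.inr (j, true)) := by
  unfold hyT
  rw [← coeToMvPowerSeries.ringHom_apply, map_add, map_sum]
  congr 1
  · rw [coeToMvPowerSeries.ringHom_apply, MvPowerSeries.rename_coe]
  · refine Finset.sum_congr rfl fun j _ => ?_
    rw [map_mul, coeToMvPowerSeries.ringHom_apply, coeToMvPowerSeries.ringHom_apply, coe_X, coe_X]

end SttL

open SttL in
theorem stt : S_ST := by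
  classical
  intro Ω Ω' κ _ _ _ e Φ U f g hU hfg
  -- the automorphism of the power series in `Ω`
  obtain ⟨Φ1, hΦ1⟩ : ∃ Φ1 : MvPowerSeries Ω ℂ ≃ₐ[ℂ] MvPowerSeries Ω ℂ,
      ∀ F, Φ1 F = MvPowerSeries.rename e.symm (Φ F) :=
    ⟨Φ.trans (MvPowerSeries.renameEquiv ℂ e.symm), fun F => rfl⟩
  have hs := SumL.coords_sum _ _ (co Ω Φ1)
    (co (κ × Bool) (AlgEquiv.refl : MvPowerSeries (κ × Bool) ℂ ≃ₐ[ℂ] MvPowerSeries (κ × Bool) ℂ))
  -- the unit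
  obtain ⟨ρ, hρ⟩ : ∃ ρ : MvPowerSeries Ω ℂ →ₐ[ℂ] MvPowerSeries (Ω ⊕ κ × Bool) ℂ,
    ρ = MvPowerSeries.rename Sum.inl := ⟨_, rfl⟩
  obtain ⟨V, hV⟩ : ∃ V, V = ρ (MvPowerSeries.rename e.symm U) := ⟨_, rfl⟩
  have hV0 : MvPowerSeries.constantCoeff V ≠ 0 := by
    rw [hV, hρ, MvPowerSeries.constantCoeff_rename, MvPowerSeries.constantCoeff_rename]
    exact hU
  obtain ⟨W, hW⟩ : IsUnit V := SttL.isUnit_of hV0
  have hc2 := AsmL.coords_mul _ hs (Sum.elim (fun _ => 1) fun p : κ × Bool => if p.2 then 1 else W⁻¹)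
  set Y' : Ω ⊕ κ × Bool → MvPowerSeries (Ω ⊕ κ × Bool) ℂ := fun v =>
    (Sum.elim (fun i => MvPowerSeries.rename (Sum.inl : Ω → Ω ⊕ κ × Bool)
      (Φ1 (MvPowerSeries.X i))) (fun i => MvPowerSeries.rename (Sum.inr : κ × Bool → Ω ⊕ κ × Bool)
      ((AlgEquiv.refl : MvPowerSeries (κ × Bool) ℂ ≃ₐ[ℂ] MvPowerSeries (κ × Bool) ℂ)
        (MvPowerSeries.X i))) v) *
      ((Sum.elim (fun _ => 1) (fun p : κ × Bool => if p.2 then 1 else W⁻¹) v :
        (MvPowerSeries (Ω ⊕ κ × Bool) ℂ)ˣ) : MvPowerSeries (Ω ⊕ κ × Bool) ℂ) with hY'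
  obtain ⟨Ψ, hΨ⟩ := inv _ Y' hc2.1 (fun i => Eq.mp (congrArg
    (fun v => v ∈ Submodule.span ℂ (Set.range fun j => lin (Y' j)))
    (SumL.single_inst _ _ i)) (hc2.2 i))
  have hΨ2 : ∀ G : MvPolynomial (Ω ⊕ κ × Bool) ℂ,
      Ψ (G : MvPowerSeries (Ω ⊕ κ × Bool) ℂ) = aeval Y' G := by
    intro G
    rw [coe_eq_aeval]
    refine (aeval_comp' (Ψ : MvPowerSeries (Ω ⊕ κ × Bool) ℂ →ₐ[ℂ]
      MvPowerSeries (Ω ⊕ κ × Bool) ℂ) _ G).trans ?_
    congr 2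
    funext i
    exact hΨ i
  -- the values
  have y1 : ∀ i, Y' (Sum.inl i) = ρ (Φ1 (MvPowerSeries.X i)) := by
    intro i
    simp only [hY', Sum.elim_inl, Units.val_one, mul_one, hρ]
  have y2 : ∀ j, Y' (Sum.inr (j, false)) = MvPowerSeries.X (Sum.inr (j, false)) *
      ((W⁻¹ : (MvPowerSeries (Ω ⊕ κ × Bool) ℂ)ˣ) : MvPowerSeries (Ω ⊕ κ × Bool) ℂ) := by
    intro j
    simp only [hY', Sum.elim_inr, AlgEquiv.coe_refl, id_eq, MvPowerSeries.rename_X,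
      Bool.false_eq_true, if_false]
  have y3 : ∀ j, Y' (Sum.inr (j, true)) = MvPowerSeries.X (Sum.inr (j, true)) := by
    intro j
    simp only [hY', Sum.elim_inr, AlgEquiv.coe_refl, id_eq, MvPowerSeries.rename_X, if_true,
      Units.val_one, mul_one]
  have h1 : aeval Y' (rename Sum.inl f : MvPolynomial (Ω ⊕ κ × Bool) ℂ) =
      ρ (Φ1 (f : MvPowerSeries Ω ℂ)) := by
    rw [aeval_rename, coe_eq_aeval]
    have h2 := aeval_comp' (ρ.comp (Φ1 : MvPowerSeries Ω ℂ →ₐ[ℂ] MvPowerSeries Ω ℂ))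
      MvPowerSeries.X f
    refine Eq.trans ?_ h2.symm
    congr 2
    funext i
    exact y1 i
  have h3 : V * ρ (Φ1 (f : MvPowerSeries Ω ℂ)) =
      ρ (MvPowerSeries.rename e.symm (g : MvPowerSeries Ω' ℂ)) := by
    rw [hV, hΦ1, ← map_mul, ← map_mul, hfg]
  have h4 : V * Ψ (hyT κ f : MvPowerSeries (Ω ⊕ κ × Bool) ℂ) =
      ρ (MvPowerSeries.rename e.symm (g : MvPowerSeries Ω' ℂ)) +
        ∑ j : κ, MvPowerSeries.X (Sum.inr (j, false)) * MvPowerSeries.X (Sum.inr (j, true)) := by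
    rw [hΨ2, hyT, map_add, map_sum, h1, mul_add, h3, Finset.mul_sum]
    congr 1
    refine Finset.sum_congr rfl fun j _ => ?_
    rw [map_mul, aeval_X, aeval_X, y2, y3, ← hW]
    have h5 : (W : MvPowerSeries (Ω ⊕ κ × Bool) ℂ) *
      ((W⁻¹ : (MvPowerSeries (Ω ⊕ κ × Bool) ℂ)ˣ) : MvPowerSeries (Ω ⊕ κ × Bool) ℂ) = 1 :=
      Units.mul_inv W
    calc (W : MvPowerSeries (Ω ⊕ κ × Bool) ℂ) * (MvPowerSeries.X (Sum.inr (j, false)) *
          ((W⁻¹ : (MvPowerSeries (Ω ⊕ κ × Bool) ℂ)ˣ) : MvPowerSeries (Ω ⊕ κ × Bool) ℂ) *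
          MvPowerSeries.X (Sum.inr (j, true)))
        = ((W : MvPowerSeries (Ω ⊕ κ × Bool) ℂ) *
          ((W⁻¹ : (MvPowerSeries (Ω ⊕ κ × Bool) ℂ)ˣ) : MvPowerSeries (Ω ⊕ κ × Bool) ℂ)) *
          (MvPowerSeries.X (Sum.inr (j, false)) * MvPowerSeries.X (Sum.inr (j, true))) := by ring
      _ = _ := by rw [h5, one_mul]
  -- the renaming of the variables
  obtain ⟨E, hE⟩ : ∃ E : Ω ⊕ κ × Bool ≃ Ω' ⊕ κ × Bool, E = Equiv.sumCongr e (Equiv.refl _) :=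
    ⟨_, rfl⟩
  refine ⟨Ψ.trans (MvPowerSeries.renameEquiv ℂ E), MvPowerSeries.rename E V, ?_, ?_⟩
  · rw [MvPowerSeries.constantCoeff_rename]
    exact hV0
  · have h6 : MvPowerSeries.rename E V * (Ψ.trans (MvPowerSeries.renameEquiv ℂ E))
        (hyT κ f : MvPowerSeries (Ω ⊕ κ × Bool) ℂ) =
        MvPowerSeries.rename E (V * Ψ (hyT κ f : MvPowerSeries (Ω ⊕ κ × Bool) ℂ)) := by
      rw [map_mul]
      rfl
    rw [h6, h4, coe_hyT, map_add, map_sum, hρ, MvPowerSeries.rename_rename,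
      MvPowerSeries.rename_rename]
    congr 1
    · congr 2
      funext i
      simp [hE]
    · refine Finset.sum_congr rfl fun j _ => ?_
      rw [map_mul, MvPowerSeries.rename_X, MvPowerSeries.rename_X]
      simp [hE]

end Pool.Agent.Helper33K9.RS
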