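import Pool.Agent.Helper33K9.RS.Chi
import Pool.Agent.Helper33K9.RS.Step
import Pool.Agent.Helper33K9.RS.Base
import Pool.Agent.Helper33K9.RS.Spr
import Pool.Agent.Helper33K9.RS.Bfr
import Pool.Agent.Helper33K9.RS.Stt
import Pool.Agent.Helper33K9.RS.Inv
import Pool.Agent.Helper33K9.RS.Trx

set_option autoImplicit false

/-! # The leaves put together -/

namespace Pool.Agent.Helper33K9.RS

theorem stepT : S_STEP := step chi

theorem sprT : S_SPR := spr base inv'

end Pool.Agent.Helper33K9.RS
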