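import Pool.Agent.Helper33K9.RO.Uz
import Pool.Agent.Helper33K9.RO.Ub
import Pool.Agent.Helper33K9.RO.Hypn
import Pool.Agent.Helper33K9.RO.St3
import Pool.Agent.Helper33K9.FQ.Mc
import Pool.Agent.Y229.CF.OfLoc

set_option autoImplicit false
set_option linter.dupNamespace false

/-! # Stably nondegenerate germs -/

namespace Pool.Agent.Helper33K9.RS

open MvPolynomial Pool.Agent.H628R4.TP Pool.Agent.W428.MOT Pool.Agent.TH192.MT
  Pool.Agent.Helper33K9.HP Pool.Agent.Helper33K9.FQ Pool.Agent.Helper33K9.RO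

open Pool.Agent.TH216.HD (Spans)
open Pool.Agent.TH216.HDNL (HypVL)
open Pool.Agent.Y229.CF (NondegC)

/-- The germ of `g` at the origin is stably nondegenerate, with the condition `HypVL`: for some `r`,
the polynomial `g(x) + z_1 y_1 + ⋯ + z_r y_r` (`hypN r g`) becomes, by an isomorphism `Φ` of the rings of
formal power series (formal coordinates) and multiplication with a unit `U`, a polynomial
`∑_j c_j X ^ (v j)`, `c_j ≠ 0`, in `n` variables which is nondegenerate with respect to the compact faces of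
its Newton polyhedron at the origin (`NondegC`) and satisfies `HypVL`. -/
def StablyND {σ : Type} [Fintype σ] (g : MvPolynomial σ ℂ) : Prop :=
  ∃ (r n k : ℕ) (_ : (σ ⊕ Fin r) ⊕ Fin r ≃ Fin n)
    (Φ : MvPowerSeries ((σ ⊕ Fin r) ⊕ Fin r) ℂ ≃ₐ[ℂ] MvPowerSeries (Fin n) ℂ)
    (U : MvPowerSeries (Fin n) ℂ) (v : Fin k → Fin n → ℕ) (c : Fin k → ℂ) (V : Finset (Fin k)),
    MvPowerSeries.constantCoeff U ≠ 0 ∧ 0 < k ∧ Function.Injective v ∧ (∀ j, v j ≠ 0) ∧
    (∀ j, c j ≠ 0) ∧ NondegC v c ∧ Spans v V ∧ HypVL v V ∧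
    U * Φ (hypN r g : MvPowerSeries ((σ ⊕ Fin r) ⊕ Fin r) ℂ) =
      ((∑ j, C (c j) * ∏ i, X i ^ v j i : MvPolynomial (Fin n) ℂ) : MvPowerSeries (Fin n) ℂ)

theorem hypN_ne_zero {σ : Type} (r : ℕ) {g : MvPolynomial σ ℂ} (hg : g ≠ 0) :
    hypN r g ≠ 0 := by
  intro h
  have h2 := congrArg (aeval (Sum.elim (Sum.elim X 0) 0 :
    (σ ⊕ Fin r) ⊕ Fin r → MvPolynomial σ ℂ)) h
  rw [hypN, map_add, map_sum, aeval_rename, map_zero] at h2
  have h3 : ((Sum.elim (Sum.elim X 0) 0 : (σ ⊕ Fin r) ⊕ Fin r → MvPolynomial σ ℂ) ∘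
    fun i => Sum.inl (Sum.inl i)) = X := rfl
  rw [h3, aeval_X_left_apply, Finset.sum_eq_zero, add_zero] at h2
  · exact hg h2
  · intro j _
    rw [map_mul, aeval_X, aeval_X]
    simp

/-- **Stably nondegenerate germs.** -/
theorem stablyND_wmmc {σ : Type} [Fintype σ] {g : MvPolynomial σ ℂ} (hg : g ≠ 0)
    (hg0 : constantCoeff g = 0) (h : StablyND g) : WMMC g := by
  obtain ⟨r, n, k, e, Φ, U, v, c, V, hU, hk, hv, hv0, hc, hnd, hV, hL, hG⟩ := h
  obtain ⟨G, hGd⟩ : ∃ G : MvPolynomial (Fin n) ℂ, G = ∑ j, C (c j) * ∏ i, X i ^ v j i := ⟨_, rfl⟩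
  obtain ⟨S, hS, hz⟩ := Pool.Agent.Y229.CF.nd_motX' (k := ℂ) hk v hv hv0 c hc hnd V hV hL
  have h1 : zetaO G ∈ ratRing ℂ (S : Set (ℤ × ℤ)) := by
    rw [zetaO_eq_zetaN, hGd]
    exact Pool.Agent.Y229.CF.zetaN_of _ S (hz ℂ)
  have h2 : ∀ p ∈ S, ∀ b : Polynomial ℂ, IsLocalBFunction G b →
      ∃ i : ℤ, b.eval ((p.1 : ℂ) / p.2 - i) = 0 := by
    intro p hp b hb
    rw [hGd] at hb
    obtain ⟨h1, h2⟩ := Pool.Agent.Y229.CF.of_local' v (by omega) _ hv hv0 hnd b hb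
    exact (hS p hp).2.2 b h1 h2
  -- the variables
  have h3 : zetaO (rename e.symm G) = zetaO G :=
    zetaO_iso (renameEquiv ℂ e.symm) (Fintype.card_congr e.symm)
      (fun a => constantCoeff_rename _ _) G
  have h4 : ∀ b, IsLocalBFunction (rename e.symm G) b → IsLocalBFunction G b := by
    refine bf der _ _ (MvPowerSeries.renameEquiv ℂ e) (rename e.symm G) G ?_
    have h5 : rename e (rename e.symm G) = G := by
      rw [rename_rename, Equiv.self_comp_symm, rename_id_apply]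
    refine Eq.trans (MvPowerSeries.rename_coe _ _) ?_
    rw [h5]
  have h5 : MvPowerSeries.rename e.symm U * (Φ.trans (MvPowerSeries.renameEquiv ℂ e.symm))
      (hypN r g : MvPowerSeries ((σ ⊕ Fin r) ⊕ Fin r) ℂ) =
      ((rename e.symm G : MvPolynomial ((σ ⊕ Fin r) ⊕ Fin r) ℂ) :
        MvPowerSeries ((σ ⊕ Fin r) ⊕ Fin r) ℂ) := by
    rw [← MvPowerSeries.rename_coe, hGd, ← hG, map_mul]
    rfl
  have hU' : MvPowerSeries.constantCoeff (MvPowerSeries.rename e.symm U) ≠ 0 := by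
    rw [MvPowerSeries.constantCoeff_rename]
    exact hU
  have h6 := ub _ _ _ _ _ hU' (hypN_ne_zero r hg) h5
  have h7 := uz _ _ _ _ _ hU' h5
  refine (hypn σ r g hg hg0).1 ⟨S, fun p hp => ⟨(hS p hp).2.1, fun b hb => ?_⟩, ?_⟩
  · obtain ⟨i, hi⟩ := h2 p hp b (h4 b (h6 b hb))
    refine ⟨-i, ?_⟩
    rw [Int.cast_neg, ← sub_eq_add_neg]
    exact hi
  · rw [h7, h3]
    exact h1

end Pool.Agent.Helper33K9.RS
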