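import Pool.Agent.Helper33K9.RS.G

set_option autoImplicit false
set_option linter.dupNamespace false
set_option linter.unusedSectionVars false

/-! # The strong form at the origin, naive zeta functions -/

namespace Pool.Agent.Helper33K9.RS

open MvPolynomial Pool.Agent.H628R4.TP Pool.Agent.W428.MOT Pool.Agent.TH192.MT
  Pool.Agent.Helper33K9.HP Pool.Agent.Helper33K9.FQ Pool.Agent.Helper33K9.RO

open Pool.Agent.W375.MG (Good good_units)

variable {Ω : Type} [Fintype Ω]

/-- The motivic monodromy conjecture at the origin for `f`, with roots of the local Bernstein-Sato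
polynomial: there is a finite set `S` of pairs `(a, b)` of integers, `b > 0`, such that `a / b` is a root
of every `b(s)` with `b(s) f ^ s = P(s) f ^ (s + 1)`, `P(s)` a polynomial in `s` whose coefficients are
differential operators with formal power series coefficients at the origin, and the local motivic
zeta function of `f` is in the ring generated by `T` and the `1 / (1 - 𝕃 ^ a T ^ b)`, `(a, b) ∈ S`.
As these `b(s)` are the multiples of the local Bernstein-Sato polynomial of `f` at the origin, the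
`a / b` are roots of it; so `a < 0` (Kashiwara), and `exp(2πi a / b)` is a monodromy eigenvalue of `f` at
points of `f = 0` in each neighbourhood of the origin (Malgrange, Kashiwara). -/
def SMMC (f : MvPolynomial Ω ℂ) : Prop :=
  ∃ S : Finset (ℤ × ℤ), (∀ q ∈ S, 0 < q.2 ∧ ∀ b : Polynomial ℂ, IsLocalBFunction f b →
      b.eval ((q.1 : ℂ) / q.2) = 0) ∧
    zetaO f ∈ ratRing ℂ (S : Set (ℤ × ℤ))

theorem zetaO_eqM (f : MvPolynomial Ω ℂ) (h0 : constantCoeff f = 0) :
    zetaO f = PowerSeries.C (((Lu ℂ) ^ (-(Fintype.card Ω : ℤ)) : (MK ℂ)ˣ) : MK ℂ) *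
      zetaM f {0} {c | c ≠ 0} := by
  obtain ⟨M, -, hM⟩ := exists_meas ℂ
  unfold zetaO zetaM
  congr 2
  funext d
  split_ifs with hd
  · subst hd
    have h1 : JetS f {0} ({c | c ≠ 0} : Set (AlgebraicClosure ℂ)) 0 = ∅ := by
      ext z
      simp only [JetS, Set.mem_ofPred_eq, Set.mem_singleton_iff, Set.mem_empty_iff_false,
        iff_false, not_and]
      intro h2 _ h3
      apply h3
      rw [coeff_zero_aevalK]
      have h4 : (fun i => PowerSeries.coeff 0 (ar z i)) = (0 : Pt ℂ Ω) := by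
        rw [← h2]
        funext i
        rw [coeff_ar_zero]
      have h5 : aeval (0 : Pt ℂ Ω) f = algebraMap ℂ (AlgebraicClosure ℂ) (constantCoeff f) :=
        aeval_zero f
      rw [h4, h5, h0, map_zero]
    rw [← hM, h1, Pool.Agent.W749.MT.χ_empty, zero_mul]
  · rfl

theorem Sg.smmc {f : MvPolynomial Ω ℂ} (h0 : constantCoeff f = 0) (h : Sg f) : SMMC f := by
  obtain ⟨S, hS, hz⟩ := h
  refine ⟨S, hS, ?_⟩
  rw [zetaO_eqM f h0]
  exact (ratRing ℂ _).mul_mem (Pool.Agent.W63.MTFin.C_mem _ _) (hz _ good_units)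

/-- **Products of nodes of read-once formulas.** -/
theorem fml_smmc {f : MvPolynomial Ω ℂ} {S : Set (MvPolynomial Ω ℂ)} (hf : Fml Ω f S)
    {h : MvPolynomial Ω ℂ} (hh : h ∈ NodeProd S) (h0 : h ≠ 0) (p : Ω → ℂ)
    (hp : eval p h = 0) : SMMC (trn p h) :=
  (fml_sg hf hh h0 p hp).smmc (by rw [cc_trn, hp])

/-- **Stably sparse germs.** -/
theorem stab_smmc (g : MvPolynomial Ω ℂ) (r : ℕ)
    (R : MvPolynomial (Ω ⊕ Fin r) ℂ)
    (l : Fin r → MvPolynomial (Ω ⊕ Fin r) ℂ) (u : MvPowerSeries Ω ℂ)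
    (y : Ω → MvPowerSeries Ω ℂ) (w : Fin r → MvPowerSeries Ω ℂ) (hg : g ≠ 0)
    (hg0 : constantCoeff g = 0) (hu : MvPowerSeries.constantCoeff u ≠ 0) (hy : Coords y)
    (hw : ∀ j, MvPowerSeries.constantCoeff (w j) = 0)
    (hl : ∀ i, aeval (Sum.elim MvPowerSeries.X w) (l i) = 0)
    (hJ : IsUnit (Matrix.of fun i j =>
      MvPolynomial.coeff (Finsupp.single (Sum.inr j) 1) (l i)).det)
    (hR1 : ∀ j, MvPolynomial.coeff (Finsupp.single (Sum.inr j) 1) R = 0)
    (hgR : u * aeval y g = aeval (Sum.elim MvPowerSeries.X w) R)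
    (hind : AffineIndependent ℚ (fun (m : (stabL R l).support) (v : (Ω ⊕ Fin r) ⊕ Fin r) =>
      ((m : (Ω ⊕ Fin r) ⊕ Fin r →₀ ℕ) v : ℚ))) : SMMC g :=
  (stab_sg Ω g r R l u y w hg hg0 hu hy hw hl hJ hR1 hgR hind).smmc hg0

end Pool.Agent.Helper33K9.RS
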