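import Pool.Agent.Helper33K9.RS.Api

set_option autoImplicit false
set_option linter.dupNamespace false
set_option linter.unusedSectionVars false

/-! # The strong form: presentations, elimination, products of nodes (as in `RO`, with `SM` in place of
`WMMC`) -/

namespace Pool.Agent.Helper33K9.RS

open MvPolynomial Pool.Agent.H628R4.TP Pool.Agent.W428.MOT Pool.Agent.TH192.MT
  Pool.Agent.Helper33K9.HP Pool.Agent.Helper33K9.FQ Pool.Agent.Helper33K9.RO

/-- The property `SM` for a polynomial which is not zero and vanishes at the origin. -/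
def Q {σ : Type} [Fintype σ] (f : MvPolynomial σ ℂ) : Prop :=
  f ≠ 0 → constantCoeff f = 0 → SM f

/-- `D` is a presentation of `F`. -/
def Pres {σ : Type} [Fintype σ] (F : MvPolynomial σ ℂ) (D : Pr σ) : Prop :=
  ∀ (Ω : Type) [Fintype Ω] (a : σ → MvPolynomial Ω ℂ) (Y R : MvPolynomial Ω ℂ),
    (∀ i, constantCoeff (a i) = 0) →
    Q (D.val (fun i => rename Sum.inl (a i)) (fun i => X (Sum.inr i)) (rename Sum.inl Y) +
      rename Sum.inl R : MvPolynomial (Ω ⊕ D.τ) ℂ) →
    Q (Y * aeval a F + R)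

/-- elimination of two variables -/
def S_ELI : Prop :=
  ∀ (Ω : Type) [Fintype Ω] (A : MvPolynomial Ω ℂ) (B : Polynomial (MvPolynomial Ω ℂ)),
    constantCoeff A = 0 → constantCoeff (B.coeff 1) = 0 →
    Q (X (Sum.inr false) * X (Sum.inr true) + X (Sum.inr false) * rename Sum.inl A +
      B.eval₂ (rename Sum.inl : MvPolynomial Ω ℂ →ₐ[ℂ] MvPolynomial (Ω ⊕ Bool) ℂ).toRingHom
        (X (Sum.inr true)) : MvPolynomial (Ω ⊕ Bool) ℂ) →
    Q (B.eval (-A))

/-- normal forms have presentations -/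
def S_PRES : Prop :=
  ∀ (σ : Type) [Fintype σ] (F : MvPolynomial σ ℂ), NP σ F → ∃ D : Pr σ, D.LI ∧ Pres F D

/-- sums of monomials with linearly independent exponents -/
def S_SPA : Prop :=
  ∀ (Ω ι : Type) [Fintype Ω] [Fintype ι] (m : ι → Ω → ℕ) (c : ι → ℂ), (∀ j, c j ≠ 0) →
    LinearIndependent ℚ (fun j i => (m j i : ℚ)) →
    Q (∑ j, C (c j) * ∏ i, X i ^ m j i : MvPolynomial Ω ℂ)

/-- several hyperbolic planes -/
def S_HYPN : Prop :=
  ∀ (σ : Type) [Fintype σ] (r : ℕ) (g : MvPolynomial σ ℂ), g ≠ 0 → constantCoeff g = 0 →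
    (SM (hypN r g) ↔ SM g)

theorem Q_equiv {σ τ : Type} [Fintype σ] [Fintype τ] (e : σ ≃ τ) (f : MvPolynomial σ ℂ)
    (h : Q (rename e f)) : Q f := by
  intro hf h0
  have h1 : (renameEquiv ℂ e) f ≠ 0 := (map_ne_zero_iff _ (renameEquiv ℂ e).injective).2 hf
  have h2 := h h1 (by rw [constantCoeff_rename]; exact h0)
  exact (SM_iso (renameEquiv ℂ e) (Fintype.card_congr e) (fun a => constantCoeff_rename _ _)
    hf).1 h2

section

variable {σ τ : Type} [Fintype σ] [Fintype τ]

theorem pres_leaf {r : ℕ} (m : Fin r → σ → ℕ) :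
    Pres (∑ j, ∏ i, X i ^ m j i : MvPolynomial σ ℂ) (prLeaf m) := by
  intro Ω _ a Y R ha h
  refine Q_equiv (Equiv.sumEmpty Ω Empty).symm _ ?_
  have h1 : (rename (Equiv.sumEmpty Ω Empty).symm (Y * aeval a (∑ j, ∏ i, X i ^ m j i :
      MvPolynomial σ ℂ) + R) : MvPolynomial (Ω ⊕ Empty) ℂ) =
      (prLeaf m).val (fun i => rename Sum.inl (a i)) (fun i => X (Sum.inr i))
        (rename Sum.inl Y) + rename Sum.inl R := by
    rw [prLeaf_val]
    change rename Sum.inl _ = _
    simp only [map_add, map_mul, map_sum, map_prod, map_pow, aeval_X]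
  rw [h1]
  exact h

theorem pres_add {F : MvPolynomial σ ℂ} {G : MvPolynomial τ ℂ} {D : Pr σ} {E : Pr τ}
    (hD : Pres F D) (hE : Pres G E) :
    Pres (rename Sum.inl F + rename Sum.inr G : MvPolynomial (σ ⊕ τ) ℂ) (prAdd D E) := by
  intro Ω _ a Y R ha h
  have e1 : Y * aeval a (rename Sum.inl F + rename Sum.inr G : MvPolynomial (σ ⊕ τ) ℂ) + R =
      Y * aeval (fun i => a (Sum.inl i)) F + (Y * aeval (fun i => a (Sum.inr i)) G + R) := by
    rw [map_add, aeval_rename, aeval_rename]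
    simp only [Function.comp_def]
    ring
  rw [e1]
  refine hD Ω (fun i => a (Sum.inl i)) Y _ (fun i => ha _) ?_
  have e2 : (D.val (fun i => rename Sum.inl (a (Sum.inl i))) (fun i => X (Sum.inr i))
      (rename Sum.inl Y) + rename Sum.inl (Y * aeval (fun i => a (Sum.inr i)) G + R) :
      MvPolynomial (Ω ⊕ D.τ) ℂ) =
      rename Sum.inl Y * aeval (fun i => rename Sum.inl (a (Sum.inr i))) G +
        (D.val (fun i => rename Sum.inl (a (Sum.inl i))) (fun i => X (Sum.inr i))
          (rename Sum.inl Y) + rename Sum.inl R) := by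
    rw [map_add, map_mul, rename_aeval]
    ring
  rw [e2]
  refine hE (Ω ⊕ D.τ) (fun i => rename Sum.inl (a (Sum.inr i))) (rename Sum.inl Y) _
    (fun i => by rw [constantCoeff_rename]; exact ha _) ?_
  refine Q_equiv (Equiv.sumAssoc Ω D.τ E.τ) _ ?_
  refine Eq.mp (congrArg Q ?_) h
  simp only [map_add, prAdd_val, rename_val, rename_rename, rename_X, Function.comp_def,
    Equiv.sumAssoc_apply_inl_inl, Equiv.sumAssoc_apply_inl_inr, Equiv.sumAssoc_apply_inr]
  ring

theorem pres_mul (eli : S_ELI) {F : MvPolynomial σ ℂ} {G : MvPolynomial τ ℂ} {D : Pr σ}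
    {E : Pr τ} (hF : constantCoeff F = 0) (hG : constantCoeff G = 0)
    (hD : Pres F D) (hE : Pres G E) :
    Pres (rename Sum.inl F * rename Sum.inr G : MvPolynomial (σ ⊕ τ) ℂ) (prMul D E) := by
  intro Ω _ a Y R ha h
  set A : MvPolynomial Ω ℂ := -aeval (fun i => a (Sum.inl i)) F with hA
  set B : Polynomial (MvPolynomial Ω ℂ) := Polynomial.C R +
    Polynomial.C (Y * aeval (fun i => a (Sum.inr i)) G) * Polynomial.X with hB
  have e1 : Y * aeval a (rename Sum.inl F * rename Sum.inr G : MvPolynomial (σ ⊕ τ) ℂ) + R =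
      B.eval (-A) := by
    rw [hB, hA, map_mul, aeval_rename, aeval_rename, Polynomial.eval_add, Polynomial.eval_mul,
      Polynomial.eval_C, Polynomial.eval_C, Polynomial.eval_X, neg_neg]
    simp only [Function.comp_def]
    ring
  rw [e1]
  refine eli Ω A B ?_ ?_ ?_
  · rw [hA, map_neg, cc_aeval _ fun i => ha _, hF, neg_zero]
  · rw [hB, Polynomial.coeff_add, Polynomial.coeff_C_succ, Polynomial.coeff_C_mul,
      Polynomial.coeff_X_one, zero_add, mul_one, map_mul, cc_aeval _ fun i => ha _, hG, mul_zero]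
  · have e2 : (X (Sum.inr false) * X (Sum.inr true) + X (Sum.inr false) * rename Sum.inl A +
        B.eval₂ (rename Sum.inl : MvPolynomial Ω ℂ →ₐ[ℂ] MvPolynomial (Ω ⊕ Bool) ℂ).toRingHom
          (X (Sum.inr true)) : MvPolynomial (Ω ⊕ Bool) ℂ) =
        (X (Sum.inr true) * rename Sum.inl Y) *
          aeval (fun i => rename Sum.inl (a (Sum.inr i))) G +
        (X (Sum.inr false) * X (Sum.inr true) +
          (-X (Sum.inr false)) * aeval (fun i => rename Sum.inl (a (Sum.inl i))) F +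
            rename Sum.inl R) := by
      rw [hB, hA, Polynomial.eval₂_add, Polynomial.eval₂_mul, Polynomial.eval₂_C,
        Polynomial.eval₂_C, Polynomial.eval₂_X]
      simp only [AlgHom.toRingHom_eq_coe, RingHom.coe_coe, map_neg, map_mul, rename_aeval]
      ring
    rw [e2]
    refine hE (Ω ⊕ Bool) _ _ _ (fun i => by rw [constantCoeff_rename]; exact ha _) ?_
    have e3 : (E.val (fun i => rename Sum.inl (rename Sum.inl (a (Sum.inr i))))
        (fun i => X (Sum.inr i)) (rename Sum.inl (X (Sum.inr true) * rename Sum.inl Y)) +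
        rename Sum.inl (X (Sum.inr false) * X (Sum.inr true) +
          (-X (Sum.inr false)) * aeval (fun i => rename Sum.inl (a (Sum.inl i))) F +
            rename Sum.inl R) : MvPolynomial ((Ω ⊕ Bool) ⊕ E.τ) ℂ) =
        (-rename Sum.inl (X (Sum.inr false))) *
          aeval (fun i => rename Sum.inl (rename Sum.inl (a (Sum.inl i)))) F +
        (E.val (fun i => rename Sum.inl (rename Sum.inl (a (Sum.inr i))))
          (fun i => X (Sum.inr i)) (rename Sum.inl (X (Sum.inr true) * rename Sum.inl Y)) +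
          rename Sum.inl (X (Sum.inr false) * X (Sum.inr true) + rename Sum.inl R)) := by
      simp only [map_add, map_neg, map_mul, rename_aeval]
      ring
    rw [e3]
    refine hD ((Ω ⊕ Bool) ⊕ E.τ) _ _ _ (fun i => by
      rw [constantCoeff_rename, constantCoeff_rename]; exact ha _) ?_
    refine Q_equiv (E3 Ω D.τ E.τ) _ ?_
    refine Eq.mp (congrArg Q ?_) h
    simp only [map_add, map_neg, map_mul, prMul_val, rename_val, rename_rename, rename_X,
      Function.comp_def, E3_1, E3_2, E3_3, E3_4]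
    ring

theorem pres_pow (eli : S_ELI) {F : MvPolynomial σ ℂ} {D : Pr σ} (hF : constantCoeff F = 0)
    {k : ℕ} (hk : 2 ≤ k) (hD : Pres F D) : Pres (F ^ k) (prPow D k) := by
  intro Ω _ a Y R ha h
  set A : MvPolynomial Ω ℂ := -aeval a F with hA
  set B : Polynomial (MvPolynomial Ω ℂ) := Polynomial.C R +
    Polynomial.C Y * Polynomial.X ^ k with hB
  have e1 : Y * aeval a (F ^ k) + R = B.eval (-A) := by
    rw [hB, hA, map_pow, Polynomial.eval_add, Polynomial.eval_mul, Polynomial.eval_pow,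
      Polynomial.eval_C, Polynomial.eval_C, Polynomial.eval_X, neg_neg]
    ring
  rw [e1]
  refine eli Ω A B ?_ ?_ ?_
  · rw [hA, map_neg, cc_aeval _ ha, hF, neg_zero]
  · rw [hB, Polynomial.coeff_add, Polynomial.coeff_C_succ, Polynomial.coeff_C_mul,
      Polynomial.coeff_X_pow, if_neg (by omega), mul_zero, add_zero, map_zero]
  · have e2 : (X (Sum.inr false) * X (Sum.inr true) + X (Sum.inr false) * rename Sum.inl A +
        B.eval₂ (rename Sum.inl : MvPolynomial Ω ℂ →ₐ[ℂ] MvPolynomial (Ω ⊕ Bool) ℂ).toRingHom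
          (X (Sum.inr true)) : MvPolynomial (Ω ⊕ Bool) ℂ) =
        (-X (Sum.inr false)) * aeval (fun i => rename Sum.inl (a i)) F +
        (X (Sum.inr false) * X (Sum.inr true) + rename Sum.inl Y * X (Sum.inr true) ^ k +
            rename Sum.inl R) := by
      rw [hB, hA, Polynomial.eval₂_add, Polynomial.eval₂_mul, Polynomial.eval₂_pow,
        Polynomial.eval₂_C, Polynomial.eval₂_C, Polynomial.eval₂_X]
      simp only [AlgHom.toRingHom_eq_coe, RingHom.coe_coe, map_neg, rename_aeval]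
      ring
    rw [e2]
    refine hD (Ω ⊕ Bool) _ _ _ (fun i => by rw [constantCoeff_rename]; exact ha _) ?_
    refine Q_equiv (Equiv.sumAssoc Ω Bool D.τ) _ ?_
    refine Eq.mp (congrArg Q ?_) h
    simp only [map_add, map_neg, map_mul, map_pow, prPow_val, rename_val, rename_rename, rename_X,
      Function.comp_def, Equiv.sumAssoc_apply_inl_inl, Equiv.sumAssoc_apply_inl_inr,
      Equiv.sumAssoc_apply_inr]
    ring

theorem pres (eli : S_ELI) : S_PRES := by
  intro σ _ F h
  induction h with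
  | leaf m hm => exact ⟨prLeaf m, prLeaf_LI m hm, pres_leaf m⟩
  | add F G _ _ h1 h2 =>
    obtain ⟨D, hD1, hD2⟩ := h1
    obtain ⟨E, hE1, hE2⟩ := h2
    exact ⟨prAdd D E, prAdd_LI hD1 hE1, pres_add hD2 hE2⟩
  | mul F G hF hG h1 h2 =>
    obtain ⟨D, hD1, hD2⟩ := h1
    obtain ⟨E, hE1, hE2⟩ := h2
    exact ⟨prMul D E, prMul_LI hD1 hE1, pres_mul eli hF.cc hG.cc hD2 hE2⟩
  | pow F k hk hF h1 =>
    obtain ⟨D, hD1, hD2⟩ := h1
    exact ⟨prPow D k, prPow_LI hD1 (by omega), pres_pow eli hF.cc hk hD2⟩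

end

open EliL in
theorem eli : S_ELI := by
  intro Ω _ A B hA hB hG hf h0
  set q := B /ₘ (Polynomial.X - Polynomial.C (-A)) with hq
  set f := B.eval (-A) with hfd
  have hB2 : B = Polynomial.C f + (Polynomial.X - Polynomial.C (-A)) * q := by
    have h1 := Polynomial.modByMonic_add_div B (Polynomial.X - Polynomial.C (-A))
    rw [Polynomial.modByMonic_X_sub_C_eq_C_eval] at h1
    exact h1.symm
  have hq0 : constantCoeff (q.coeff 0) = 0 := by
    have h1 : B.coeff 1 = q.coeff 0 + A * q.coeff 1 := by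
      conv_lhs => rw [hB2]
      rw [Polynomial.coeff_add, Polynomial.coeff_C_succ, sub_mul, Polynomial.coeff_sub,
        Polynomial.coeff_X_mul, Polynomial.coeff_C_mul]
      ring
    rw [h1, map_add, map_mul, hA, zero_mul, add_zero] at hB
    exact hB
  have hev : evz B (X (Sum.inr true)) =
      ro f + (X (Sum.inr true) + ro A) * evz q (X (Sum.inr true)) := by
    conv_lhs => rw [hB2]
    unfold evz
    rw [Polynomial.eval₂_add, Polynomial.eval₂_C, Polynomial.eval₂_mul, Polynomial.eval₂_sub,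
      Polynomial.eval₂_X, Polynomial.eval₂_C]
    change ro f + (X (Sum.inr true) - ro (-A)) * _ = _
    rw [map_neg, sub_neg_eq_add]
  have hΦ : au A q (hyp f) = X (Sum.inr false) * X (Sum.inr true) +
      X (Sum.inr false) * rename Sum.inl A +
      B.eval₂ (rename Sum.inl : MvPolynomial Ω ℂ →ₐ[ℂ] MvPolynomial (Ω ⊕ Bool) ℂ).toRingHom
        (X (Sum.inr true)) := by
    change fw A q (ro f + X (Sum.inr false) * X (Sum.inr true)) =
      X (Sum.inr false) * X (Sum.inr true) + X (Sum.inr false) * ro A + evz B (X (Sum.inr true))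
    rw [hev, map_add, map_mul, map_ro _ (fw_l A q), fw_f, fw_t]
    ring
  have hcc : ∀ a, constantCoeff (au A q (X a)) = 0 := by
    rintro (ω | b)
    · change constantCoeff (fw A q (X (Sum.inl ω))) = 0
      rw [fw_l, constantCoeff_X]
    · cases b
      · change constantCoeff (fw A q (X (Sum.inr false))) = 0
        rw [fw_f, map_add, constantCoeff_X, cc_evz q _ (constantCoeff_X ℂ _), hq0, add_zero]
      · change constantCoeff (fw A q (X (Sum.inr true))) = 0
        rw [fw_t, map_add, constantCoeff_X]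
        change 0 + constantCoeff (rename Sum.inl A) = 0
        rw [constantCoeff_rename, hA, add_zero]
  rw [← hΦ] at hG
  rw [← SM_hyp hf h0, ← SM_iso (au A q) rfl (IsoL.cc_comp _ hcc) (hyp_ne_zero f)]
  refine hG ?_ ?_
  · intro h
    exact hyp_ne_zero f ((map_eq_zero_iff _ (au A q).injective).1 h)
  · change constantCoeff (fw A q (ro f + X (Sum.inr false) * X (Sum.inr true))) = 0
    rw [map_add, map_mul, map_ro _ (fw_l A q), fw_f, fw_t, map_add, map_mul]
    have h1 : constantCoeff (X (Sum.inr true) + ro A : MvPolynomial (Ω ⊕ Bool) ℂ) = 0 := by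
      rw [map_add, constantCoeff_X]
      change 0 + constantCoeff (rename Sum.inl A) = 0
      rw [constantCoeff_rename, hA, add_zero]
    rw [h1, mul_zero, add_zero]
    change constantCoeff (rename Sum.inl f) = 0
    rw [constantCoeff_rename, h0]

theorem sm_equiv {σ τ : Type} [Fintype σ] [Fintype τ] (e : σ ≃ τ) {f : MvPolynomial σ ℂ}
    (hf : f ≠ 0) : SM (rename e f) ↔ SM f :=
  SM_iso (renameEquiv ℂ e) (Fintype.card_congr e) (fun a => constantCoeff_rename _ _) hf

open HypnL in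
theorem hypn : S_HYPN := by
  classical
  intro σ _ r
  have hcc : ∀ (r : ℕ) (g : MvPolynomial σ ℂ), constantCoeff g = 0 →
      constantCoeff (hypN r g) = 0 := by
    intro r g hg
    unfold hypN
    rw [map_add, constantCoeff_rename, hg, map_sum, zero_add]
    exact Finset.sum_eq_zero fun j _ => by rw [map_mul, constantCoeff_X, zero_mul]
  have hne : ∀ (r : ℕ) (g : MvPolynomial σ ℂ), g ≠ 0 → hypN r g ≠ 0 := by
    intro r g hg h
    apply hg
    have h1 := congrArg (aeval (R := ℂ) (Sum.elim (Sum.elim X fun _ => 0) fun _ => 0 :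
      (σ ⊕ Fin r) ⊕ Fin r → MvPolynomial σ ℂ)) h
    unfold hypN at h1
    rw [map_add, aeval_rename, map_sum, map_zero, Finset.sum_eq_zero, add_zero] at h1
    · refine Eq.trans ?_ h1
      exact (aeval_X_left_apply g).symm
    · intro j _
      rw [map_mul, aeval_X, aeval_X, Sum.elim_inr, mul_zero]
  induction r with
  | zero =>
    intro g hg h0
    let e : σ ≃ (σ ⊕ Fin 0) ⊕ Fin 0 :=
      (Equiv.sumEmpty σ (Fin 0)).symm.trans (Equiv.sumEmpty (σ ⊕ Fin 0) (Fin 0)).symm
    have h1 : hypN 0 g = rename e g := by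
      unfold hypN
      rw [Finset.univ_eq_empty, Finset.sum_empty, add_zero]
      rfl
    rw [h1]
    exact sm_equiv e hg
  | succ r ih =>
    intro g hg h0
    have h1 : hypN (r + 1) g = rename (sh σ r) (hyp (hypN r g)) := by
      unfold hypN hyp
      rw [Fin.sum_univ_succ]
      simp only [map_add, map_sum, map_mul, rename_rename, rename_X, Function.comp_def]
      change _ = (rename (fun i => Sum.inl (Sum.inl i)) g +
        ∑ j : Fin r, X (Sum.inl (Sum.inr j.succ)) * X (Sum.inr j.succ)) +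
        X (Sum.inl (Sum.inr 0)) * X (Sum.inr 0)
      ring
    rw [h1, sm_equiv (sh σ r), SM_hyp (hne r g hg) (hcc r g h0)]
    · exact ih g hg h0
    · exact hyp_ne_zero _

/-- normal forms -/
theorem np_Q (pres : S_PRES) (spa : S_SPA) {σ : Type} [Fintype σ] {F : MvPolynomial σ ℂ}
    (hF : NP σ F) : Q F := by
  obtain ⟨D, hD, hP⟩ := pres σ F hF
  have h1 := hP σ X 1 0 (fun i => by rw [constantCoeff_X]) ?_
  · rw [aeval_X_left_apply, one_mul, add_zero] at h1
    exact h1
  · have h2 := spa (σ ⊕ D.τ) D.ι (fun j => Sum.elim (D.P j) (D.N j)) D.c hD.2 ?_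
    · refine Eq.mp (congrArg Q ?_) h2
      rw [map_zero, add_zero, map_one]
      unfold Pr.val
      refine Finset.sum_congr rfl fun j _ => ?_
      rw [Fintype.prod_sum_type, one_pow, mul_one, mul_assoc]
      simp only [Sum.elim_inl, Sum.elim_inr, rename_X]
      rfl
    · rw [Fintype.linearIndependent_iff]
      intro g hg
      refine hD.1 g (fun i => ?_) fun i => ?_
      · have h3 := congrFun hg (Sum.inl i)
        rw [Finset.sum_apply] at h3
        exact h3
      · have h3 := congrFun hg (Sum.inr i)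
        rw [Finset.sum_apply] at h3
        exact h3

/-- the elimination theorem for `Fin r`, with `Q` as a hypothesis -/
theorem stabQ (σ : Type) [Fintype σ] (g : MvPolynomial σ ℂ) (r : ℕ) (R : MvPolynomial (σ ⊕ Fin r) ℂ)
    (l : Fin r → MvPolynomial (σ ⊕ Fin r) ℂ) (u : MvPowerSeries σ ℂ)
    (y : σ → MvPowerSeries σ ℂ) (w : Fin r → MvPowerSeries σ ℂ) (hg : g ≠ 0)
    (hg0 : constantCoeff g = 0) (hu : MvPowerSeries.constantCoeff u ≠ 0) (hy : Coords y)
    (hw : ∀ j, MvPowerSeries.constantCoeff (w j) = 0)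
    (hl : ∀ i, aeval (Sum.elim MvPowerSeries.X w) (l i) = 0)
    (hJ : IsUnit (Matrix.of fun i j =>
      MvPolynomial.coeff (Finsupp.single (Sum.inr j) 1) (l i)).det)
    (hR1 : ∀ j, MvPolynomial.coeff (Finsupp.single (Sum.inr j) 1) R = 0)
    (hgR : u * aeval y g = aeval (Sum.elim MvPowerSeries.X w) R)
    (hind : Q (stabL R l)) : SM g := by
  classical
  -- the differences
  set ρ : MvPowerSeries σ ℂ →ₐ[ℂ] MvPowerSeries (σ ⊕ Fin r) ℂ := MvPowerSeries.rename Sum.inl
    with hρ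
  set θ : MvPowerSeries (σ ⊕ Fin r) ℂ →ₐ[ℂ] MvPowerSeries ((σ ⊕ Fin r) ⊕ Fin r) ℂ :=
    MvPowerSeries.rename Sum.inl with hθ
  have hρX : ∀ i, ρ (MvPowerSeries.X i) = MvPowerSeries.X (Sum.inl i) := fun i => by
    rw [hρ, MvPowerSeries.rename_X]
  have hθX : ∀ i, θ (MvPowerSeries.X i) = MvPowerSeries.X (Sum.inl i) := fun i => by
    rw [hθ, MvPowerSeries.rename_X]
  have hρw : ∀ j, MvPowerSeries.constantCoeff (ρ (w j)) = 0 := fun j => by
    rw [hρ, MvPowerSeries.constantCoeff_rename, hw]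
  have key := tay (σ ⊕ Fin r) σ r (fun i => MvPowerSeries.X (Sum.inl i))
    (fun j => MvPowerSeries.X (Sum.inr j)) (fun j => ρ (w j))
    (fun i => MvPowerSeries.constantCoeff_X _) (fun i => MvPowerSeries.constantCoeff_X _) hρw
  have hX : (Sum.elim (fun i => MvPowerSeries.X (Sum.inl i)) fun j =>
      MvPowerSeries.X (Sum.inr j) : σ ⊕ Fin r → MvPowerSeries (σ ⊕ Fin r) ℂ) =
      MvPowerSeries.X := by
    funext i
    rcases i with i | i <;> rfl
  have hXw : ∀ F : MvPolynomial (σ ⊕ Fin r) ℂ,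
      aeval (Sum.elim (fun i => MvPowerSeries.X (Sum.inl i)) fun j => ρ (w j)) F =
        ρ (aeval (Sum.elim MvPowerSeries.X w) F) := by
    intro F
    rw [aeval_comp']
    congr 2
    funext i
    rcases i with i | i
    · exact (hρX i).symm
    · rfl
  obtain ⟨K, hK1, hK2⟩ := key R
  choose P hP1 hP2 using fun i => key (l i)
  rw [hX, ← coe_eq_aeval, hXw, ← hgR] at hK1
  have hP1' : ∀ i, ((l i : MvPolynomial (σ ⊕ Fin r) ℂ) : MvPowerSeries (σ ⊕ Fin r) ℂ) =
      ∑ j, (MvPowerSeries.X (Sum.inr j) - ρ (w j)) * P i j := by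
    intro i
    have h := hP1 i
    rw [hX, ← coe_eq_aeval, hXw, hl, map_zero, sub_zero] at h
    exact h
  -- the coordinates
  have hc := coo σ r y w P K hy hw (fun j => by rw [hK2, hR1]) (by
    refine Eq.mp (congrArg IsUnit (congrArg Matrix.det ?_)) hJ
    ext i j
    exact (hP2 i j).symm)
  set κ : MvPowerSeries σ ℂ →ₐ[ℂ] MvPowerSeries ((σ ⊕ Fin r) ⊕ Fin r) ℂ :=
    MvPowerSeries.rename (fun i => Sum.inl (Sum.inl i)) with hκ
  have hκρ : ∀ F, κ F = θ (ρ F) := by
    intro F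
    rw [hκ, hθ, hρ, MvPowerSeries.rename_rename]
    rfl
  obtain ⟨U, hU⟩ : IsUnit (κ u) := isUnit_of (by
    rw [hκ, MvPowerSeries.constantCoeff_rename]; exact hu)
  set Y : (σ ⊕ Fin r) ⊕ Fin r → MvPowerSeries ((σ ⊕ Fin r) ⊕ Fin r) ℂ :=
    Sum.elim (Sum.elim (fun i => κ (y i)) fun j => MvPowerSeries.X (Sum.inl (Sum.inr j)) -
      κ (w j)) fun j => (∑ i, MvPowerSeries.X (Sum.inr i) * θ (P i j)) + θ (K j) with hY
  have hc2 := AsmL.coords_mul Y hc (Sum.elim (fun _ => 1) fun _ => U⁻¹)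
  set Y' : (σ ⊕ Fin r) ⊕ Fin r → MvPowerSeries ((σ ⊕ Fin r) ⊕ Fin r) ℂ := fun v =>
    Y v * ((Sum.elim (fun _ => 1) (fun _ => U⁻¹) v : (MvPowerSeries ((σ ⊕ Fin r) ⊕ Fin r) ℂ)ˣ) :
      MvPowerSeries ((σ ⊕ Fin r) ⊕ Fin r) ℂ) with hY'
  obtain ⟨Ψ, hΨ⟩ := inv _ Y' hc2.1 (fun i => Eq.mp (congrArg
    (fun v => v ∈ Submodule.span ℂ (Set.range fun j => lin (Y' j)))
    (SumL.single_inst _ _ i)) (hc2.2 i))
  have hΨ2 : ∀ G : MvPolynomial ((σ ⊕ Fin r) ⊕ Fin r) ℂ,
      Ψ (G : MvPowerSeries ((σ ⊕ Fin r) ⊕ Fin r) ℂ) = aeval Y' G := by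
    intro G
    rw [coe_eq_aeval]
    refine (aeval_comp' (Ψ : MvPowerSeries ((σ ⊕ Fin r) ⊕ Fin r) ℂ →ₐ[ℂ]
      MvPowerSeries ((σ ⊕ Fin r) ⊕ Fin r) ℂ) _ G).trans ?_
    congr 2
    funext i
    exact hΨ i
  have h1 : κ u * Ψ ((hypN r g : MvPolynomial ((σ ⊕ Fin r) ⊕ Fin r) ℂ) :
      MvPowerSeries ((σ ⊕ Fin r) ⊕ Fin r) ℂ) =
      ((stabL R l : MvPolynomial ((σ ⊕ Fin r) ⊕ Fin r) ℂ) :
        MvPowerSeries ((σ ⊕ Fin r) ⊕ Fin r) ℂ) := by
    have e1 : aeval Y' (rename (fun i => Sum.inl (Sum.inl i)) g :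
        MvPolynomial ((σ ⊕ Fin r) ⊕ Fin r) ℂ) = κ (aeval y g) := by
      rw [aeval_rename, aeval_comp']
      congr 2
      funext i
      simp only [hY', hY, Function.comp_apply, Sum.elim_inl, Units.val_one, mul_one]
    have e2 : ∀ j, Y' (Sum.inl (Sum.inr j)) =
        MvPowerSeries.X (Sum.inl (Sum.inr j)) - κ (w j) := by
      intro j
      simp only [hY', hY, Sum.elim_inl, Sum.elim_inr, Units.val_one, mul_one]
    have e3 : ∀ j, κ u * Y' (Sum.inr j) =
        (∑ i, MvPowerSeries.X (Sum.inr i) * θ (P i j)) + θ (K j) := by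
      intro j
      simp only [hY', hY, Sum.elim_inr]
      rw [← hU, mul_comm, mul_assoc, Units.inv_mul, mul_one]
    have e4 : ((stabL R l : MvPolynomial ((σ ⊕ Fin r) ⊕ Fin r) ℂ) :
        MvPowerSeries ((σ ⊕ Fin r) ⊕ Fin r) ℂ) =
        θ (R : MvPowerSeries (σ ⊕ Fin r) ℂ) + ∑ i, MvPowerSeries.X (Sum.inr i) *
          θ ((l i : MvPolynomial (σ ⊕ Fin r) ℂ) : MvPowerSeries (σ ⊕ Fin r) ℂ) := by
      unfold stabL
      rw [← coeToMvPowerSeries.ringHom_apply, map_add, map_sum, hθ]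
      congr 1
      · rw [coeToMvPowerSeries.ringHom_apply, MvPowerSeries.rename_coe]
      · refine Finset.sum_congr rfl fun i _ => ?_
        rw [map_mul, coeToMvPowerSeries.ringHom_apply, coeToMvPowerSeries.ringHom_apply, coe_X,
          MvPowerSeries.rename_coe]
    have e5 : (R : MvPowerSeries (σ ⊕ Fin r) ℂ) = ρ (u * aeval y g) +
        ∑ j, (MvPowerSeries.X (Sum.inr j) - ρ (w j)) * K j := by
      rw [← hK1]
      ring
    rw [hΨ2, hypN, map_add, map_sum, e1, e4, e5]
    simp only [map_mul, aeval_X, e2, hP1', map_add, map_sum, map_sub, hθX, ← hκρ, mul_add,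
      Finset.mul_sum]
    rw [add_assoc]
    congr 1
    rw [Finset.sum_comm, ← Finset.sum_add_distrib]
    refine Finset.sum_congr rfl fun j _ => ?_
    have e6 : κ u * ((MvPowerSeries.X (Sum.inl (Sum.inr j)) - κ (w j)) * Y' (Sum.inr j)) =
        (MvPowerSeries.X (Sum.inl (Sum.inr j)) - κ (w j)) * (κ u * Y' (Sum.inr j)) := by ring
    rw [e6, e3, mul_add, Finset.mul_sum, add_comm]
    congr 1
    refine Finset.sum_congr rfl fun i _ => ?_
    ring
  have hu' : MvPowerSeries.constantCoeff (κ u) ≠ 0 := by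
    rw [hκ, MvPowerSeries.constantCoeff_rename]
    exact hu
  have hN0 : (hypN r g : MvPolynomial ((σ ⊕ Fin r) ⊕ Fin r) ℂ) ≠ 0 := by
    intro h
    have h2 := congrArg (aeval (Sum.elim (Sum.elim X 0) 0 :
      (σ ⊕ Fin r) ⊕ Fin r → MvPolynomial σ ℂ)) h
    rw [hypN, map_add, map_sum, aeval_rename, map_zero] at h2
    have h3 : ((Sum.elim (Sum.elim X 0) 0 : (σ ⊕ Fin r) ⊕ Fin r → MvPolynomial σ ℂ) ∘
      fun i => Sum.inl (Sum.inl i)) = X := rfl
    rw [h3, aeval_X_left_apply, Finset.sum_eq_zero, add_zero] at h2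
    · exact hg h2
    · intro j _
      rw [map_mul, aeval_X, aeval_X]
      simp
  have hL0 : stabL R l ≠ 0 := by
    intro h
    rw [h, coe_zero, ← hU, Units.mul_right_eq_zero] at h1
    exact hN0 (coe_eq_zero_iff.1 ((map_eq_zero_iff Ψ Ψ.injective).1 h1))
  have hLc : constantCoeff (stabL R l) = 0 := by
    have h2 := congrArg MvPowerSeries.constantCoeff h1
    rw [map_mul, hΨ2] at h2
    have h3 : MvPowerSeries.constantCoeff (aeval Y' (hypN r g)) = constantCoeff (hypN r g) := by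
      have h4 : ((MvPowerSeries.constantCoeff (σ := (σ ⊕ Fin r) ⊕ Fin r) (R := ℂ)).comp
          ((aeval Y' : MvPolynomial ((σ ⊕ Fin r) ⊕ Fin r) ℂ →ₐ[ℂ]
            MvPowerSeries ((σ ⊕ Fin r) ⊕ Fin r) ℂ) : MvPolynomial ((σ ⊕ Fin r) ⊕ Fin r) ℂ →+*
              MvPowerSeries ((σ ⊕ Fin r) ⊕ Fin r) ℂ)) =
          (constantCoeff : MvPolynomial ((σ ⊕ Fin r) ⊕ Fin r) ℂ →+* ℂ) := by
        refine ringHom_ext (fun c => ?_) fun i => ?_
        · change MvPowerSeries.constantCoeff (aeval Y' (C c)) = constantCoeff (C c)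
          rw [aeval_C, constantCoeff_C, MvPowerSeries.algebraMap_apply]
          exact MvPowerSeries.constantCoeff_C c
        · change MvPowerSeries.constantCoeff (aeval Y' (X i)) = constantCoeff (X i)
          rw [aeval_X, constantCoeff_X]
          exact hc2.1 i
      exact RingHom.congr_fun h4 _
    rw [h3, hypN, map_add, constantCoeff_rename, hg0, map_sum, Finset.sum_eq_zero, add_zero,
      mul_zero] at h2
    · rw [← MvPowerSeries.coeff_zero_eq_constantCoeff_apply, MvPolynomial.coeff_coe] at h2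
      exact h2.symm
    · intro j _
      rw [map_mul, constantCoeff_X, zero_mul]
  refine (hypn σ r g hg hg0).1 ?_
  have hL1 : SM (stabL R l) := hind hL0 hLc
  obtain ⟨V, hV⟩ := isUnit_of hu'
  refine SM_inv (Equiv.refl _) Ψ.symm (Ψ.symm ((V⁻¹ : (MvPowerSeries ((σ ⊕ Fin r) ⊕ Fin r) ℂ)ˣ) :
    MvPowerSeries ((σ ⊕ Fin r) ⊕ Fin r) ℂ)) ?_ hL0 ?_ hL1
  · have h2 : IsUnit (Ψ.symm ((V⁻¹ : (MvPowerSeries ((σ ⊕ Fin r) ⊕ Fin r) ℂ)ˣ) :
        MvPowerSeries ((σ ⊕ Fin r) ⊕ Fin r) ℂ)) := (V⁻¹).isUnit.map Ψ.symm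
    exact ((MvPowerSeries.isUnit_iff_constantCoeff).1 h2).ne_zero
  · rw [← map_mul, ← h1, ← hV, ← mul_assoc, Units.inv_mul, one_mul, AlgEquiv.symm_apply_apply]

theorem Q_rename {σ τ : Type} [Fintype σ] [Fintype τ] (e : σ ≃ τ) (f : MvPolynomial σ ℂ)
    (h : Q f) : Q (rename e f) := by
  refine Q_equiv e.symm _ ?_
  rw [rename_rename]
  have h6 : (e.symm : τ → σ) ∘ e = id := by
    funext i
    simp
  rw [h6, rename_id_apply]
  exact h

/-- [STQ] the elimination theorem for arbitrary finite index types -/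
theorem stq (σ ρ : Type) [Fintype σ] [Fintype ρ] [DecidableEq ρ] (g : MvPolynomial σ ℂ)
    (R : MvPolynomial (σ ⊕ ρ) ℂ) (l : ρ → MvPolynomial (σ ⊕ ρ) ℂ) (u : MvPowerSeries σ ℂ)
    (y : σ → MvPowerSeries σ ℂ) (w : ρ → MvPowerSeries σ ℂ) (hg : g ≠ 0)
    (hg0 : constantCoeff g = 0) (hu : MvPowerSeries.constantCoeff u ≠ 0) (hy : Coords y)
    (hw : ∀ j, MvPowerSeries.constantCoeff (w j) = 0)
    (hl : ∀ i, aeval (Sum.elim MvPowerSeries.X w) (l i) = 0)
    (hJ : IsUnit (Matrix.of fun i j =>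
      MvPolynomial.coeff (Finsupp.single (Sum.inr j) 1) (l i)).det)
    (hR1 : ∀ j, MvPolynomial.coeff (Finsupp.single (Sum.inr j) 1) R = 0)
    (hgR : u * aeval y g = aeval (Sum.elim MvPowerSeries.X w) R)
    (hQ : Q (rename Sum.inl R + ∑ i, X (Sum.inr i) * rename Sum.inl (l i) :
      MvPolynomial ((σ ⊕ ρ) ⊕ ρ) ℂ)) : SM g := by
  classical
  let e : ρ ≃ Fin (Fintype.card ρ) := Fintype.equivFin ρ
  let E : σ ⊕ ρ ≃ σ ⊕ Fin (Fintype.card ρ) := Equiv.sumCongr (Equiv.refl σ) e
  have hE : ∀ F : MvPolynomial (σ ⊕ ρ) ℂ,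
      aeval (Sum.elim MvPowerSeries.X fun j => w (e.symm j)) (rename E F) =
        aeval (Sum.elim MvPowerSeries.X w) F := by
    intro F
    rw [aeval_rename]
    congr 2
    funext i
    rcases i with i | i
    · rfl
    · change w (e.symm (e i)) = w i
      rw [Equiv.symm_apply_apply]
  have hcf : ∀ (j : Fin (Fintype.card ρ)) (F : MvPolynomial (σ ⊕ ρ) ℂ),
      coeff (Finsupp.single (Sum.inr j) 1) (rename E F) =
        coeff (Finsupp.single (Sum.inr (e.symm j)) 1) F := by
    intro j F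
    rw [← coeff_single_rename E E.injective]
    congr 2
    change _ = Sum.inr (e (e.symm j))
    rw [Equiv.apply_symm_apply]
  refine stabQ σ g (Fintype.card ρ) (rename E R)
    (fun i => rename E (l (e.symm i))) u y (fun j => w (e.symm j)) hg hg0 hu hy
    (fun j => hw _) (fun i => by rw [hE]; exact hl _) ?_ (fun j => by rw [hcf]; exact hR1 _)
    (by rw [hE]; exact hgR) ?_
  · have h1 : (Matrix.of fun i j : Fin (Fintype.card ρ) =>
        coeff (Finsupp.single (Sum.inr j) 1) (rename E (l (e.symm i)))) =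
        (Matrix.of fun i j : ρ => coeff (Finsupp.single (Sum.inr j) 1) (l i)).submatrix
          e.symm e.symm := by
      ext i j
      exact hcf j _
    rw [h1, Matrix.det_submatrix_equiv_self]
    exact hJ
  · have h1 := Q_rename (Equiv.sumCongr E e) _ hQ
    refine Eq.mp (congrArg Q ?_) h1
    unfold stabL
    rw [map_add, map_sum, rename_rename]
    congr 1
    · rw [rename_rename]
      rfl
    · rw [← Equiv.sum_comp e.symm]
      refine Finset.sum_congr rfl fun i _ => ?_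
      rw [map_mul, rename_X, rename_rename, rename_rename]
      congr 2
      change Sum.inr (e (e.symm i)) = _
      rw [Equiv.apply_symm_apply]

end Pool.Agent.Helper33K9.RS
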