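import Pool.Agent.Helper33K9.RO.Stab
import Pool.Agent.Helper33K9.RO.Coo
import Pool.Agent.Helper33K9.RO.Tay
import Pool.Agent.Helper33K9.RS.Nd

set_option autoImplicit false
set_option linter.dupNamespace false

/-! # Restrictions to smooth complete intersections are stably nondegenerate -/

namespace Pool.Agent.Helper33K9.RS

open MvPolynomial Pool.Agent.H628R4.TP Pool.Agent.W428.MOT Pool.Agent.TH192.MT
  Pool.Agent.Helper33K9.HP Pool.Agent.Helper33K9.FQ Pool.Agent.Helper33K9.RO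

open Pool.Agent.TH216.HD (Spans)
open Pool.Agent.TH216.HDNL (HypVL)
open Pool.Agent.Y229.CF (NondegC)

/-- in formal coordinates `R + ∑ y_i l_i` is a unit times `g + ∑ z_j y_j` -/
theorem stab_iso (σ : Type) [Fintype σ] (g : MvPolynomial σ ℂ) (r : ℕ)
    (R : MvPolynomial (σ ⊕ Fin r) ℂ)
    (l : Fin r → MvPolynomial (σ ⊕ Fin r) ℂ) (u : MvPowerSeries σ ℂ)
    (y : σ → MvPowerSeries σ ℂ) (w : Fin r → MvPowerSeries σ ℂ)
    (hu : MvPowerSeries.constantCoeff u ≠ 0) (hy : Coords y)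
    (hw : ∀ j, MvPowerSeries.constantCoeff (w j) = 0)
    (hl : ∀ i, aeval (Sum.elim MvPowerSeries.X w) (l i) = 0)
    (hJ : IsUnit (Matrix.of fun i j =>
      MvPolynomial.coeff (Finsupp.single (Sum.inr j) 1) (l i)).det)
    (hR1 : ∀ j, MvPolynomial.coeff (Finsupp.single (Sum.inr j) 1) R = 0)
    (hgR : u * aeval y g = aeval (Sum.elim MvPowerSeries.X w) R) :
    ∃ (Ψ : MvPowerSeries ((σ ⊕ Fin r) ⊕ Fin r) ℂ ≃ₐ[ℂ] MvPowerSeries ((σ ⊕ Fin r) ⊕ Fin r) ℂ)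
      (U : MvPowerSeries ((σ ⊕ Fin r) ⊕ Fin r) ℂ), MvPowerSeries.constantCoeff U ≠ 0 ∧
      U * Ψ ((hypN r g : MvPolynomial ((σ ⊕ Fin r) ⊕ Fin r) ℂ) :
        MvPowerSeries ((σ ⊕ Fin r) ⊕ Fin r) ℂ) =
      ((stabL R l : MvPolynomial ((σ ⊕ Fin r) ⊕ Fin r) ℂ) :
        MvPowerSeries ((σ ⊕ Fin r) ⊕ Fin r) ℂ) := by
  classical
  -- the differences
  set ρ : MvPowerSeries σ ℂ →ₐ[ℂ] MvPowerSeries (σ ⊕ Fin r) ℂ := MvPowerSeries.rename Sum.inl
    with hρ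
  set θ : MvPowerSeries (σ ⊕ Fin r) ℂ →ₐ[ℂ] MvPowerSeries ((σ ⊕ Fin r) ⊕ Fin r) ℂ :=
    MvPowerSeries.rename Sum.inl with hθ
  have hρX : ∀ i, ρ (MvPowerSeries.X i) = MvPowerSeries.X (Sum.inl i) := fun i => by
    rw [hρ, MvPowerSeries.rename_X]
  have hθX : ∀ i, θ (MvPowerSeries.X i) = MvPowerSeries.X (Sum.inl i) := fun i => by
    rw [hθ, MvPowerSeries.rename_X]
  have hρw : ∀ j, MvPowerSeries.constantCoeff (ρ (w j)) = 0 := fun j => by
    rw [hρ, MvPowerSeries.constantCoeff_rename, hw]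
  have key := tay (σ ⊕ Fin r) σ r (fun i => MvPowerSeries.X (Sum.inl i))
    (fun j => MvPowerSeries.X (Sum.inr j)) (fun j => ρ (w j))
    (fun i => MvPowerSeries.constantCoeff_X _) (fun i => MvPowerSeries.constantCoeff_X _) hρw
  have hX : (Sum.elim (fun i => MvPowerSeries.X (Sum.inl i)) fun j =>
      MvPowerSeries.X (Sum.inr j) : σ ⊕ Fin r → MvPowerSeries (σ ⊕ Fin r) ℂ) =
      MvPowerSeries.X := by
    funext i
    rcases i with i | i <;> rfl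
  have hXw : ∀ F : MvPolynomial (σ ⊕ Fin r) ℂ,
      aeval (Sum.elim (fun i => MvPowerSeries.X (Sum.inl i)) fun j => ρ (w j)) F =
        ρ (aeval (Sum.elim MvPowerSeries.X w) F) := by
    intro F
    rw [aeval_comp']
    congr 2
    funext i
    rcases i with i | i
    · exact (hρX i).symm
    · rfl
  obtain ⟨K, hK1, hK2⟩ := key R
  choose P hP1 hP2 using fun i => key (l i)
  rw [hX, ← coe_eq_aeval, hXw, ← hgR] at hK1
  have hP1' : ∀ i, ((l i : MvPolynomial (σ ⊕ Fin r) ℂ) : MvPowerSeries (σ ⊕ Fin r) ℂ) =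
      ∑ j, (MvPowerSeries.X (Sum.inr j) - ρ (w j)) * P i j := by
    intro i
    have h := hP1 i
    rw [hX, ← coe_eq_aeval, hXw, hl, map_zero, sub_zero] at h
    exact h
  -- the coordinates
  have hc := coo σ r y w P K hy hw (fun j => by rw [hK2, hR1]) (by
    refine Eq.mp (congrArg IsUnit (congrArg Matrix.det ?_)) hJ
    ext i j
    exact (hP2 i j).symm)
  set κ : MvPowerSeries σ ℂ →ₐ[ℂ] MvPowerSeries ((σ ⊕ Fin r) ⊕ Fin r) ℂ :=
    MvPowerSeries.rename (fun i => Sum.inl (Sum.inl i)) with hκ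
  have hκρ : ∀ F, κ F = θ (ρ F) := by
    intro F
    rw [hκ, hθ, hρ, MvPowerSeries.rename_rename]
    rfl
  obtain ⟨U, hU⟩ : IsUnit (κ u) := isUnit_of (by
    rw [hκ, MvPowerSeries.constantCoeff_rename]; exact hu)
  set Y : (σ ⊕ Fin r) ⊕ Fin r → MvPowerSeries ((σ ⊕ Fin r) ⊕ Fin r) ℂ :=
    Sum.elim (Sum.elim (fun i => κ (y i)) fun j => MvPowerSeries.X (Sum.inl (Sum.inr j)) -
      κ (w j)) fun j => (∑ i, MvPowerSeries.X (Sum.inr i) * θ (P i j)) + θ (K j) with hY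
  have hc2 := AsmL.coords_mul Y hc (Sum.elim (fun _ => 1) fun _ => U⁻¹)
  set Y' : (σ ⊕ Fin r) ⊕ Fin r → MvPowerSeries ((σ ⊕ Fin r) ⊕ Fin r) ℂ := fun v =>
    Y v * ((Sum.elim (fun _ => 1) (fun _ => U⁻¹) v : (MvPowerSeries ((σ ⊕ Fin r) ⊕ Fin r) ℂ)ˣ) :
      MvPowerSeries ((σ ⊕ Fin r) ⊕ Fin r) ℂ) with hY'
  obtain ⟨Ψ, hΨ⟩ := inv _ Y' hc2.1 (fun i => Eq.mp (congrArg
    (fun v => v ∈ Submodule.span ℂ (Set.range fun j => lin (Y' j)))
    (SumL.single_inst _ _ i)) (hc2.2 i))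
  have hΨ2 : ∀ G : MvPolynomial ((σ ⊕ Fin r) ⊕ Fin r) ℂ,
      Ψ (G : MvPowerSeries ((σ ⊕ Fin r) ⊕ Fin r) ℂ) = aeval Y' G := by
    intro G
    rw [coe_eq_aeval]
    refine (aeval_comp' (Ψ : MvPowerSeries ((σ ⊕ Fin r) ⊕ Fin r) ℂ →ₐ[ℂ]
      MvPowerSeries ((σ ⊕ Fin r) ⊕ Fin r) ℂ) _ G).trans ?_
    congr 2
    funext i
    exact hΨ i
  have h1 : κ u * Ψ ((hypN r g : MvPolynomial ((σ ⊕ Fin r) ⊕ Fin r) ℂ) :
      MvPowerSeries ((σ ⊕ Fin r) ⊕ Fin r) ℂ) =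
      ((stabL R l : MvPolynomial ((σ ⊕ Fin r) ⊕ Fin r) ℂ) :
        MvPowerSeries ((σ ⊕ Fin r) ⊕ Fin r) ℂ) := by
    have e1 : aeval Y' (rename (fun i => Sum.inl (Sum.inl i)) g :
        MvPolynomial ((σ ⊕ Fin r) ⊕ Fin r) ℂ) = κ (aeval y g) := by
      rw [aeval_rename, aeval_comp']
      congr 2
      funext i
      simp only [hY', hY, Function.comp_apply, Sum.elim_inl, Units.val_one, mul_one]
    have e2 : ∀ j, Y' (Sum.inl (Sum.inr j)) =
        MvPowerSeries.X (Sum.inl (Sum.inr j)) - κ (w j) := by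
      intro j
      simp only [hY', hY, Sum.elim_inl, Sum.elim_inr, Units.val_one, mul_one]
    have e3 : ∀ j, κ u * Y' (Sum.inr j) =
        (∑ i, MvPowerSeries.X (Sum.inr i) * θ (P i j)) + θ (K j) := by
      intro j
      simp only [hY', hY, Sum.elim_inr]
      rw [← hU, mul_comm, mul_assoc, Units.inv_mul, mul_one]
    have e4 : ((stabL R l : MvPolynomial ((σ ⊕ Fin r) ⊕ Fin r) ℂ) :
        MvPowerSeries ((σ ⊕ Fin r) ⊕ Fin r) ℂ) =
        θ (R : MvPowerSeries (σ ⊕ Fin r) ℂ) + ∑ i, MvPowerSeries.X (Sum.inr i) *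
          θ ((l i : MvPolynomial (σ ⊕ Fin r) ℂ) : MvPowerSeries (σ ⊕ Fin r) ℂ) := by
      unfold stabL
      rw [← coeToMvPowerSeries.ringHom_apply, map_add, map_sum, hθ]
      congr 1
      · rw [coeToMvPowerSeries.ringHom_apply, MvPowerSeries.rename_coe]
      · refine Finset.sum_congr rfl fun i _ => ?_
        rw [map_mul, coeToMvPowerSeries.ringHom_apply, coeToMvPowerSeries.ringHom_apply, coe_X,
          MvPowerSeries.rename_coe]
    have e5 : (R : MvPowerSeries (σ ⊕ Fin r) ℂ) = ρ (u * aeval y g) +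
        ∑ j, (MvPowerSeries.X (Sum.inr j) - ρ (w j)) * K j := by
      rw [← hK1]
      ring
    rw [hΨ2, hypN, map_add, map_sum, e1, e4, e5]
    simp only [map_mul, aeval_X, e2, hP1', map_add, map_sum, map_sub, hθX, ← hκρ, mul_add,
      Finset.mul_sum]
    rw [add_assoc]
    congr 1
    rw [Finset.sum_comm, ← Finset.sum_add_distrib]
    refine Finset.sum_congr rfl fun j _ => ?_
    have e6 : κ u * ((MvPowerSeries.X (Sum.inl (Sum.inr j)) - κ (w j)) * Y' (Sum.inr j)) =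
        (MvPowerSeries.X (Sum.inl (Sum.inr j)) - κ (w j)) * (κ u * Y' (Sum.inr j)) := by ring
    rw [e6, e3, mul_add, Finset.mul_sum, add_comm]
    congr 1
    refine Finset.sum_congr rfl fun i _ => ?_
    ring
  have hu' : MvPowerSeries.constantCoeff (κ u) ≠ 0 := by
    rw [hκ, MvPowerSeries.constantCoeff_rename]
    exact hu
  exact ⟨Ψ, κ u, hu', h1⟩

/-- **Restrictions to smooth complete intersections.** -/
theorem stablyND_of {σ : Type} [Fintype σ] (g : MvPolynomial σ ℂ) (r : ℕ)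
    (R : MvPolynomial (σ ⊕ Fin r) ℂ)
    (l : Fin r → MvPolynomial (σ ⊕ Fin r) ℂ) (u : MvPowerSeries σ ℂ)
    (y : σ → MvPowerSeries σ ℂ) (w : Fin r → MvPowerSeries σ ℂ)
    (hu : MvPowerSeries.constantCoeff u ≠ 0) (hy : Coords y)
    (hw : ∀ j, MvPowerSeries.constantCoeff (w j) = 0)
    (hl : ∀ i, aeval (Sum.elim MvPowerSeries.X w) (l i) = 0)
    (hJ : IsUnit (Matrix.of fun i j =>
      MvPolynomial.coeff (Finsupp.single (Sum.inr j) 1) (l i)).det)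
    (hR1 : ∀ j, MvPolynomial.coeff (Finsupp.single (Sum.inr j) 1) R = 0)
    (hgR : u * aeval y g = aeval (Sum.elim MvPowerSeries.X w) R)
    {n k : ℕ} (e : (σ ⊕ Fin r) ⊕ Fin r ≃ Fin n) (v : Fin k → Fin n → ℕ) (c : Fin k → ℂ)
    (V : Finset (Fin k)) (hk : 0 < k) (hv : Function.Injective v) (hv0 : ∀ j, v j ≠ 0)
    (hc : ∀ j, c j ≠ 0) (hnd : NondegC v c) (hV : Spans v V) (hL : HypVL v V)
    (hG : rename e (stabL R l) = ∑ j, C (c j) * ∏ i, X i ^ v j i) : StablyND g := by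
  obtain ⟨Ψ, U, hU, h⟩ := stab_iso σ g r R l u y w hu hy hw hl hJ hR1 hgR
  refine ⟨r, n, k, e, Ψ.trans (MvPowerSeries.renameEquiv ℂ e), MvPowerSeries.rename e U, v, c, V,
    ?_, hk, hv, hv0, hc, hnd, hV, hL, ?_⟩
  · rw [MvPowerSeries.constantCoeff_rename]
    exact hU
  · rw [← hG, ← MvPowerSeries.rename_coe, ← h, map_mul]
    rfl

end Pool.Agent.Helper33K9.RS
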