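import Pool.Agent.Helper33K9.RO.St4
import Pool.Agent.W375.MG.Defs

set_option autoImplicit false
set_option linter.dupNamespace false

/-! # The strong form for read-once formulas and stably sparse germs: definitions and statements of the
leaves -/

namespace Pool.Agent.Helper33K9.RS

open MvPolynomial Pool.Agent.H628R4.TP Pool.Agent.W428.MOT Pool.Agent.TH192.MT
  Pool.Agent.Helper33K9.HP Pool.Agent.Helper33K9.FQ Pool.Agent.Helper33K9.RO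

open Pool.Agent.W375.MG (Good)

/-- `1 - 𝕃⁻¹ T` -/
noncomputable def om : PowerSeries (MK ℂ) := 1 - PowerSeries.C iL * PowerSeries.X

/-- The reduced strong property at the origin: there is a finite set `S` of pairs `(a, b)`, `b > 0`,
such that `a / b` is a root of every `c` with `(s + 1) c(s) f ^ s = P(s) f ^ (s + 1)`, `P(s)` with formal
power series coefficients, and `(1 - 𝕃⁻¹ T) Z(T)` is in the ring generated by `T` and the
`1 / (1 - 𝕃 ^ a T ^ b)`, for the local motivic zeta functions `Z` of `f` at the origin with the angular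
components in arbitrary constructible sets `E` of nonzero numbers. -/
def RS {σ : Type} [Fintype σ] (f : MvPolynomial σ ℂ) : Prop :=
  ∃ S : Finset (ℤ × ℤ), (∀ p ∈ S, 0 < p.2 ∧ ∀ c : Polynomial ℂ,
      IsLocalBFunction f ((Polynomial.X + 1) * c) → c.eval ((p.1 : ℂ) / p.2) = 0) ∧
    ∀ E : Set (AlgebraicClosure ℂ), Good E →
      om * zetaM f {0} E ∈ ratRing ℂ (S : Set (ℤ × ℤ))

/-- `f + ∑_j u_j v_j`, `j ∈ κ` -/
noncomputable def hyT {σ : Type} (κ : Type) [Fintype κ] (f : MvPolynomial σ ℂ) :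
    MvPolynomial (σ ⊕ κ × Bool) ℂ :=
  rename Sum.inl f + ∑ j : κ, X (Sum.inr (j, false)) * X (Sum.inr (j, true))

/-- the property `RS` for all `f + ∑_j u_j v_j` -/
def SM {σ : Type} [Fintype σ] (f : MvPolynomial σ ℂ) : Prop :=
  ∀ (κ : Type) [Fintype κ], RS (hyT κ f)

/-- the pairs `(a + k b, b)` -/
def shn (k : ℤ) (S : Set (ℤ × ℤ)) : Set (ℤ × ℤ) := {p | ∃ q ∈ S, p = (q.1 + k * q.2, q.2)}

/-- [CHI] the class of the jets of `f + u v` at the origin with leading coefficient in `E`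
(`0 ∈ E` is allowed). `AJ f {0} d m`: the `d`-jets at the origin on which `f` has order at least `m`.
Layers: `ord u = i < d`: `[AJ f {0} d (i + 1)] (𝕃 - 1) 𝕃 ^ (d - i) 𝕃 ^ i [E]`; `ord u ≥ d`:
`[JetS f {0} E d] 𝕃 ^ (d + 1)`. -/
def S_CHI : Prop :=
  ∀ (R : Type) [CommRing R] (M : Meas ℂ R) (σ : Type) [Fintype σ] (f : MvPolynomial σ ℂ)
    (E : Set (AlgebraicClosure ℂ)), constantCoeff f = 0 →
    (∀ {ι : Type} (F : Pt ℂ ι → AlgebraicClosure ℂ), IsPF F → Constr {z | F z ∈ E}) →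
    ∀ d : ℕ, 1 ≤ d → M.χ _ (JetS (hyp f) {0} E d) = M.χ _ (JetS f {0} E d) * M.L ^ (d + 1) +
      M.χ (Fin 1) {a | a 0 ∈ E} * (M.L - 1) * M.L ^ d *
        ∑ m ∈ Finset.Ico 2 (d + 1), M.χ _ (AJ f {0} d m)

/-- [STEP] one step: with `A`, `B`, `C` the zeta functions of `f`, `f + u v`, `f + u v + u' v'`,
`𝕃 ^ 3 (1 - 𝕃⁻¹ T) A(T) = (𝕃 ^ 2 + 𝕃) (1 - T) B(𝕃 T) - (1 - 𝕃 T) C(𝕃 ^ 2 T)` -/
def S_STEP : Prop :=
  ∀ (σ : Type) [Fintype σ] (f : MvPolynomial σ ℂ) (E : Set (AlgebraicClosure ℂ)) (S1 S2 : Set (ℤ × ℤ)),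
    constantCoeff f = 0 → Good E → (∀ p ∈ S1, 0 < p.2) → (∀ p ∈ S2, 0 < p.2) →
    om * zetaM (hyp f) {0} E ∈ ratRing ℂ S1 → om * zetaM (hyp (hyp f)) {0} E ∈ ratRing ℂ S2 →
    om * zetaM f {0} E ∈ ratRing ℂ (shn 1 S1 ∪ shn 2 S2)

/-- [BASE] sums of monomials with affinely independent exponents -/
def S_BASE : Prop :=
  ∀ (N r : ℕ) (v : Fin r → Fin N → ℕ) (c : Fin r → ℂ), 1 ≤ r →
    AffineIndependent ℚ (fun (j : Fin r) (i : Fin N) => (v j i : ℚ)) → (∀ j, v j ≠ 0) →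
    (∀ j, c j ≠ 0) → RS (∑ j, C (c j) * ∏ i, X i ^ v j i : MvPolynomial (Fin N) ℂ)

/-- [SPR] polynomials with affinely independent exponents -/
def S_SPR : Prop :=
  ∀ (Ω : Type) [Fintype Ω] (f : MvPolynomial Ω ℂ),
    AffineIndependent ℚ (fun (m : f.support) (i : Ω) => ((m : Ω →₀ ℕ) i : ℚ)) → f ≠ 0 →
    constantCoeff f = 0 → SM f

/-- [BFR] the reduced functional equation of `f + u v` -/
def S_BFR : Prop :=
  ∀ (Ω : Type) [Fintype Ω] (f : MvPolynomial Ω ℂ), f ≠ 0 → constantCoeff f = 0 →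
    ∀ c : Polynomial ℂ, IsLocalBFunction f ((Polynomial.X + 1) * c) →
      IsLocalBFunction (hyp f) ((Polynomial.X + 1) * c.comp (Polynomial.X + 1))

/-- [INV] formal changes of coordinates and units -/
def S_INV : Prop :=
  ∀ (Ω Ω' : Type) [Fintype Ω] [Fintype Ω'] (_ : Ω ≃ Ω')
    (Φ : MvPowerSeries Ω ℂ ≃ₐ[ℂ] MvPowerSeries Ω' ℂ) (U : MvPowerSeries Ω' ℂ)
    (f : MvPolynomial Ω ℂ) (g : MvPolynomial Ω' ℂ), MvPowerSeries.constantCoeff U ≠ 0 → f ≠ 0 →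
    U * Φ (f : MvPowerSeries Ω ℂ) = (g : MvPowerSeries Ω' ℂ) → RS f → RS g

/-- [ST] formal changes of coordinates and units of `f + ∑_j u_j v_j` -/
def S_ST : Prop :=
  ∀ (Ω Ω' κ : Type) [Fintype Ω] [Fintype Ω'] [Fintype κ] (_ : Ω ≃ Ω')
    (Φ : MvPowerSeries Ω ℂ ≃ₐ[ℂ] MvPowerSeries Ω' ℂ) (U : MvPowerSeries Ω' ℂ)
    (f : MvPolynomial Ω ℂ) (g : MvPolynomial Ω' ℂ), MvPowerSeries.constantCoeff U ≠ 0 →
    U * Φ (f : MvPowerSeries Ω ℂ) = (g : MvPowerSeries Ω' ℂ) →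
    ∃ (Φ' : MvPowerSeries (Ω ⊕ κ × Bool) ℂ ≃ₐ[ℂ] MvPowerSeries (Ω' ⊕ κ × Bool) ℂ)
      (U' : MvPowerSeries (Ω' ⊕ κ × Bool) ℂ), MvPowerSeries.constantCoeff U' ≠ 0 ∧
      U' * Φ' (hyT κ f : MvPowerSeries (Ω ⊕ κ × Bool) ℂ) =
        (hyT κ g : MvPowerSeries (Ω' ⊕ κ × Bool) ℂ)

end Pool.Agent.Helper33K9.RS
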